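import Mathlib

/-!
Lie algebras of skew-adjoint complex matrices with a semisimple action and a symmetric commutant:
stable subspaces and blocks.
-/

set_option autoImplicit false

namespace Pool.Agent.V5helper88.HR

open Matrix Module

variable {ι : Type} [Fintype ι] [DecidableEq ι]

/-- The bilinear form of a matrix. -/
def bw (Ω : Matrix ι ι ℂ) (u v : ι → ℂ) : ℂ := u ⬝ᵥ (Ω *ᵥ v)

/-- A Lie algebra of skew-adjoint matrices with nondegenerate trace form, whose commutant consists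
of symmetric matrices, and such that stable subspaces are images of projections in the
commutant. -/
structure Sys (Ω : Matrix ι ι ℂ) (H : Submodule ℂ (Matrix ι ι ℂ)) : Prop where
  alt : Ωᵀ = -Ω
  nd : ∀ v, Ω *ᵥ v = 0 → v = 0
  br : ∀ X ∈ H, ∀ Y ∈ H, X * Y - Y * X ∈ H
  sk : ∀ X ∈ H, Xᵀ * Ω = -(Ω * X)
  trnd : ∀ X ∈ H, (∀ Y ∈ H, trace (X * Y) = 0) → X = 0
  sy : ∀ P, (∀ X ∈ H, P * X = X * P) → Pᵀ * Ω = Ω * P
  proj : ∀ Y : Submodule ℂ (ι → ℂ), (∀ X ∈ H, ∀ v ∈ Y, X *ᵥ v ∈ Y) →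
    ∃ P : Matrix ι ι ℂ, (∀ X ∈ H, P * X = X * P) ∧ (∀ v, P *ᵥ v ∈ Y) ∧ ∀ v ∈ Y, P *ᵥ v = v

/-- Commuting with all elements of `H`. -/
def Cm (H : Submodule ℂ (Matrix ι ι ℂ)) (P : Matrix ι ι ℂ) : Prop := ∀ X ∈ H, P * X = X * P

/-- Stable subspaces. -/
def Stable (H : Submodule ℂ (Matrix ι ι ℂ)) (Y : Submodule ℂ (ι → ℂ)) : Prop :=
  ∀ X ∈ H, ∀ v ∈ Y, X *ᵥ v ∈ Y

/-- Minimal nonzero stable subspaces. -/
structure Block (H : Submodule ℂ (Matrix ι ι ℂ)) (Y : Submodule ℂ (ι → ℂ)) : Prop where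
  st : Stable H Y
  ne : Y ≠ ⊥
  min : ∀ Z, Stable H Z → Z ≤ Y → Z ≠ ⊥ → Z = Y

section form

variable {Ω : Matrix ι ι ℂ}

theorem bw_add_left (u u' v : ι → ℂ) : bw Ω (u + u') v = bw Ω u v + bw Ω u' v :=
  add_dotProduct _ _ _

theorem bw_smul_left (z : ℂ) (u v : ι → ℂ) : bw Ω (z • u) v = z * bw Ω u v := by
  unfold bw; rw [smul_dotProduct, smul_eq_mul]

theorem bw_add_right (u v v' : ι → ℂ) : bw Ω u (v + v') = bw Ω u v + bw Ω u v' := by
  unfold bw; rw [mulVec_add, dotProduct_add]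

theorem bw_smul_right (z : ℂ) (u v : ι → ℂ) : bw Ω u (z • v) = z * bw Ω u v := by
  unfold bw; rw [mulVec_smul, dotProduct_smul, smul_eq_mul]

theorem bw_neg_left (u v : ι → ℂ) : bw Ω (-u) v = - bw Ω u v := by
  unfold bw; rw [neg_dotProduct]

theorem bw_neg_right (u v : ι → ℂ) : bw Ω u (-v) = - bw Ω u v := by
  unfold bw; rw [mulVec_neg, dotProduct_neg]

theorem bw_sub_left (u u' v : ι → ℂ) : bw Ω (u - u') v = bw Ω u v - bw Ω u' v := by
  rw [sub_eq_add_neg, bw_add_left, bw_neg_left]; ring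

theorem bw_sub_right (u v v' : ι → ℂ) : bw Ω u (v - v') = bw Ω u v - bw Ω u v' := by
  rw [sub_eq_add_neg, bw_add_right, bw_neg_right]; ring

theorem bw_zero_left (v : ι → ℂ) : bw Ω 0 v = 0 := by unfold bw; rw [zero_dotProduct]

theorem bw_zero_right (v : ι → ℂ) : bw Ω v 0 = 0 := by
  unfold bw; rw [mulVec_zero, dotProduct_zero]

theorem bw_swap (h : Ωᵀ = -Ω) (u v : ι → ℂ) : bw Ω v u = - bw Ω u v := by
  unfold bw
  rw [dotProduct_comm, dotProduct_comm u, ← neg_dotProduct, ← neg_mulVec, ← h, mulVec_transpose,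
    ← dotProduct_mulVec, dotProduct_comm]

theorem bw_self (h : Ωᵀ = -Ω) (u : ι → ℂ) : bw Ω u u = 0 := by
  have h1 := bw_swap h u u
  linear_combination (1 / 2 : ℂ) * h1

theorem bw_mulVec_left (A : Matrix ι ι ℂ) (u v : ι → ℂ) :
    bw Ω (A *ᵥ u) v = u ⬝ᵥ ((Aᵀ * Ω) *ᵥ v) := by
  unfold bw
  rw [← mulVec_mulVec, dotProduct_mulVec u, vecMul_transpose]

theorem bw_mulVec_right (A : Matrix ι ι ℂ) (u v : ι → ℂ) :
    bw Ω u (A *ᵥ v) = u ⬝ᵥ ((Ω * A) *ᵥ v) := by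
  unfold bw
  rw [← mulVec_mulVec]

end form

variable {Ω : Matrix ι ι ℂ} {H : Submodule ℂ (Matrix ι ι ℂ)}

theorem Sys.bw_nd (hS : Sys Ω H) {v : ι → ℂ} (h : ∀ w, bw Ω v w = 0) : v = 0 := by
  apply hS.nd
  funext i
  have h1 := h (Pi.single i 1)
  rw [← neg_eq_zero, ← bw_swap hS.alt] at h1
  unfold bw at h1
  simpa using h1

theorem Sys.sy_bw (hS : Sys Ω H) {P : Matrix ι ι ℂ} (hP : Cm H P) (u v : ι → ℂ) :
    bw Ω (P *ᵥ u) v = bw Ω u (P *ᵥ v) := by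
  rw [bw_mulVec_left, bw_mulVec_right, hS.sy P hP]

theorem Sys.sk_bw (hS : Sys Ω H) {X : Matrix ι ι ℂ} (hX : X ∈ H) (u v : ι → ℂ) :
    bw Ω (X *ᵥ u) v = - bw Ω u (X *ᵥ v) := by
  rw [bw_mulVec_left, bw_mulVec_right, hS.sk X hX, neg_mulVec, dotProduct_neg]

theorem Sys.mul_left_inj (hS : Sys Ω H) {A B : Matrix ι ι ℂ} (h : Ω * A = Ω * B) : A = B := by
  rw [← sub_eq_zero]
  have h1 : Ω * (A - B) = 0 := by rw [mul_sub, h, sub_self]
  ext i j
  have h2 : (A - B) *ᵥ Pi.single j 1 = 0 := by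
    apply hS.nd
    rw [mulVec_mulVec, h1, zero_mulVec]
  have h3 := congrFun h2 i
  rwa [mulVec_single_one] at h3

theorem Cm.mul {P Q : Matrix ι ι ℂ} (hP : Cm H P) (hQ : Cm H Q) : Cm H (P * Q) := by
  intro X hX
  rw [mul_assoc, hQ X hX, ← mul_assoc, hP X hX, mul_assoc]

theorem Cm.one : Cm H 1 := fun X _ => by rw [one_mul, mul_one]

theorem Cm.add {P Q : Matrix ι ι ℂ} (hP : Cm H P) (hQ : Cm H Q) : Cm H (P + Q) := by
  intro X hX
  rw [add_mul, mul_add, hP X hX, hQ X hX]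

theorem Cm.sub {P Q : Matrix ι ι ℂ} (hP : Cm H P) (hQ : Cm H Q) : Cm H (P - Q) := by
  intro X hX
  rw [sub_mul, mul_sub, hP X hX, hQ X hX]

theorem Cm.smul {P : Matrix ι ι ℂ} (z : ℂ) (hP : Cm H P) : Cm H (z • P) := by
  intro X hX
  rw [smul_mul_assoc, mul_smul_comm, hP X hX]

theorem Cm.comm (hS : Sys Ω H) {P Q : Matrix ι ι ℂ} (hP : Cm H P) (hQ : Cm H Q) :
    P * Q = Q * P := by
  apply hS.mul_left_inj
  rw [← hS.sy _ (hP.mul hQ), transpose_mul, mul_assoc, hS.sy P hP, ← mul_assoc, hS.sy Q hQ,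
    mul_assoc]

/-- The commutant preserves stable subspaces. -/
theorem Stable.cm (hS : Sys Ω H) {Y : Submodule ℂ (ι → ℂ)} (hY : Stable H Y)
    {P : Matrix ι ι ℂ} (hP : Cm H P) : ∀ v ∈ Y, P *ᵥ v ∈ Y := by
  obtain ⟨Q, hQ, hQ1, hQ2⟩ := hS.proj Y hY
  intro v hv
  have h1 : P *ᵥ v = Q *ᵥ (P *ᵥ v) := by
    conv_lhs => rw [← hQ2 v hv]
    rw [mulVec_mulVec, mulVec_mulVec, Cm.comm hS hP hQ]
  rw [h1]
  exact hQ1 _

theorem Stable.inf {Y Z : Submodule ℂ (ι → ℂ)} (hY : Stable H Y) (hZ : Stable H Z) :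
    Stable H (Y ⊓ Z) := fun X hX v hv => ⟨hY X hX v hv.1, hZ X hX v hv.2⟩

theorem Stable.sup {Y Z : Submodule ℂ (ι → ℂ)} (hY : Stable H Y) (hZ : Stable H Z) :
    Stable H (Y ⊔ Z) := by
  intro X hX v hv
  obtain ⟨y, hy, z, hz, rfl⟩ := Submodule.mem_sup.mp hv
  rw [mulVec_add]
  exact Submodule.add_mem_sup (hY X hX y hy) (hZ X hX z hz)

/-- Stable subspaces are nondegenerate. -/
theorem Stable.nondeg (hS : Sys Ω H) {Y : Submodule ℂ (ι → ℂ)} (hY : Stable H Y) {v : ι → ℂ}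
    (hv : v ∈ Y) (h : ∀ w ∈ Y, bw Ω v w = 0) : v = 0 := by
  obtain ⟨Q, hQ, hQ1, hQ2⟩ := hS.proj Y hY
  apply hS.bw_nd
  intro w
  rw [← hQ2 v hv, hS.sy_bw hQ]
  exact h _ (hQ1 w)

/-- Stable subspaces which are isotropic vanish. -/
theorem Stable.iso (hS : Sys Ω H) {Y : Submodule ℂ (ι → ℂ)} (hY : Stable H Y)
    (h : ∀ v ∈ Y, ∀ w ∈ Y, bw Ω v w = 0) : Y = ⊥ := by
  rw [Submodule.eq_bot_iff]
  intro v hv
  exact hY.nondeg hS hv (h v hv)

/-- The eigenspace of an element of the commutant in a stable subspace is stable. -/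
theorem stable_eigen {Y : Submodule ℂ (ι → ℂ)} (hY : Stable H Y) {P : Matrix ι ι ℂ}
    (hP : Cm H P) (z : ℂ) : Stable H (Y ⊓ LinearMap.ker (Matrix.toLin' P - z • LinearMap.id)) := by
  rintro X hX v ⟨hv1, hv2⟩
  refine ⟨hY X hX v hv1, ?_⟩
  change v ∈ LinearMap.ker (Matrix.toLin' P - z • LinearMap.id) at hv2
  change X *ᵥ v ∈ LinearMap.ker (Matrix.toLin' P - z • LinearMap.id)
  rw [LinearMap.mem_ker] at hv2 ⊢
  simp only [LinearMap.sub_apply, LinearMap.smul_apply, LinearMap.id_apply, toLin'_apply] at hv2 ⊢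
  rw [mulVec_mulVec, hP X hX, ← mulVec_mulVec, sub_eq_zero.mp hv2, mulVec_smul, sub_self]

/-- The commutant acts by scalars on blocks. -/
theorem Block.scalar (hS : Sys Ω H) {Y : Submodule ℂ (ι → ℂ)} (hY : Block H Y)
    {P : Matrix ι ι ℂ} (hP : Cm H P) : ∃ z : ℂ, ∀ v ∈ Y, P *ᵥ v = z • v := by
  have hst : ∀ v ∈ Y, Matrix.toLin' P v ∈ Y := fun v hv => by
    rw [toLin'_apply]; exact hY.st.cm hS hP v hv
  haveI : Nontrivial Y := by
    rw [Submodule.nontrivial_iff_ne_bot]; exact hY.ne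
  obtain ⟨z, hz⟩ := Module.End.exists_eigenvalue ((Matrix.toLin' P).restrict hst)
  obtain ⟨v, hv⟩ := hz.exists_hasEigenvector
  refine ⟨z, ?_⟩
  have h1 : Y ⊓ LinearMap.ker (Matrix.toLin' P - z • LinearMap.id) = Y := by
    refine hY.min _ (stable_eigen hY.st hP z) inf_le_left ?_
    intro h0
    apply hv.2
    have h2 : (v : ι → ℂ) ∈ Y ⊓ LinearMap.ker (Matrix.toLin' P - z • LinearMap.id) := by
      refine ⟨v.2, ?_⟩
      change (v : ι → ℂ) ∈ LinearMap.ker (Matrix.toLin' P - z • LinearMap.id)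
      rw [LinearMap.mem_ker, LinearMap.sub_apply, LinearMap.smul_apply, LinearMap.id_apply]
      have h3 := congrArg Subtype.val hv.apply_eq_smul
      rw [LinearMap.restrict_coe_apply] at h3
      rw [h3]
      exact sub_self _
    rw [h0] at h2
    exact Subtype.ext h2
  intro w hw
  rw [← h1] at hw
  have h2 : w ∈ LinearMap.ker (Matrix.toLin' P - z • LinearMap.id) := hw.2
  rw [LinearMap.mem_ker, LinearMap.sub_apply, LinearMap.smul_apply, LinearMap.id_apply,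
    toLin'_apply] at h2
  exact sub_eq_zero.mp h2

theorem exists_block {Y : Submodule ℂ (ι → ℂ)} (hY : Stable H Y) (h0 : Y ≠ ⊥) :
    ∃ Z, Z ≤ Y ∧ Block H Z := by
  induction hn : finrank ℂ Y using Nat.strong_induction_on generalizing Y with
  | _ n ih =>
    by_cases hm : ∀ Z, Stable H Z → Z ≤ Y → Z ≠ ⊥ → Z = Y
    · exact ⟨Y, le_rfl, hY, h0, hm⟩
    · push Not at hm
      obtain ⟨Z, hZ, hZY, hZ0, hne⟩ := hm
      have hlt : Z < Y := lt_of_le_of_ne hZY hne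
      obtain ⟨W, hWZ, hW⟩ := ih _ (hn ▸ Submodule.finrank_lt_finrank_of_lt hlt) hZ hZ0 rfl
      exact ⟨W, hWZ.trans hZY, hW⟩

theorem Block.inf_eq_bot {Y Z : Submodule ℂ (ι → ℂ)} (hY : Block H Y) (hZ : Block H Z)
    (hne : Y ≠ Z) : Y ⊓ Z = ⊥ := by
  by_contra h0
  apply hne
  rw [← hY.min _ (hY.st.inf hZ.st) inf_le_left h0]
  exact hZ.min _ (hY.st.inf hZ.st) inf_le_right h0

/-- Different blocks are orthogonal. -/
theorem Block.orth (hS : Sys Ω H) {Y Z : Submodule ℂ (ι → ℂ)} (hY : Block H Y)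
    (hZ : Block H Z) (hne : Y ≠ Z) {u v : ι → ℂ} (hu : u ∈ Y) (hv : v ∈ Z) : bw Ω u v = 0 := by
  obtain ⟨P, hP, hP1, hP2⟩ := hS.proj Y hY.st
  have h1 : P *ᵥ v ∈ Y ⊓ Z := ⟨hP1 v, hZ.st.cm hS hP v hv⟩
  rw [hY.inf_eq_bot hZ hne] at h1
  rw [← hP2 u hu, hS.sy_bw hP, (Submodule.mem_bot ℂ).mp h1, bw_zero_right]

/-- An element of the commutant which maps a block to another block vanishes on it. -/
theorem Block.hom_zero (hS : Sys Ω H) {Y Z : Submodule ℂ (ι → ℂ)} (hY : Block H Y)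
    (hZ : Block H Z) (hne : Y ≠ Z) {P : Matrix ι ι ℂ} (hP : Cm H P)
    (h : ∀ v ∈ Y, P *ᵥ v ∈ Z) : ∀ v ∈ Y, P *ᵥ v = 0 := by
  intro v hv
  have h1 : P *ᵥ v ∈ Y ⊓ Z := ⟨hY.st.cm hS hP v hv, h v hv⟩
  rw [hY.inf_eq_bot hZ hne] at h1
  exact (Submodule.mem_bot ℂ).mp h1

/-- The union of the blocks. -/
def blockSet (H : Submodule ℂ (Matrix ι ι ℂ)) : Set (ι → ℂ) := {v | ∃ Y, Block H Y ∧ v ∈ Y}

theorem span_blocks (hS : Sys Ω H) : Submodule.span ℂ (blockSet H) = ⊤ := by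
  have hst : Stable H (Submodule.span ℂ (blockSet H)) := by
    intro X hX v hv
    refine Submodule.span_induction (p := fun v _ => X *ᵥ v ∈ Submodule.span ℂ (blockSet H))
      ?_ ?_ ?_ ?_ hv
    · rintro v ⟨Y, hY, hv⟩
      exact Submodule.subset_span ⟨Y, hY, hY.st X hX v hv⟩
    · rw [mulVec_zero]; exact Submodule.zero_mem _
    · intro x y _ _ hx hy
      rw [mulVec_add]; exact Submodule.add_mem _ hx hy
    · intro z x _ hx
      rw [mulVec_smul]; exact Submodule.smul_mem _ _ hx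
  obtain ⟨P, hP, hP1, hP2⟩ := hS.proj _ hst
  by_contra h0
  have hK : Stable H (LinearMap.ker (Matrix.toLin' P)) := by
    intro X hX v hv
    rw [LinearMap.mem_ker, toLin'_apply] at hv ⊢
    rw [mulVec_mulVec, hP X hX, ← mulVec_mulVec, hv, mulVec_zero]
  have hK0 : LinearMap.ker (Matrix.toLin' P) ≠ ⊥ := by
    intro h1
    apply h0
    rw [eq_top_iff]
    intro v _
    have h2 : v - P *ᵥ v ∈ LinearMap.ker (Matrix.toLin' P) := by
      rw [LinearMap.mem_ker, toLin'_apply, mulVec_sub, hP2 _ (hP1 v), sub_self]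
    rw [h1, Submodule.mem_bot, sub_eq_zero] at h2
    rw [h2]
    exact hP1 v
  obtain ⟨Z, hZK, hZ⟩ := exists_block hK hK0
  apply hZ.ne
  rw [Submodule.eq_bot_iff]
  intro v hv
  have h1 := hZK hv
  rw [LinearMap.mem_ker, toLin'_apply, hP2 v (Submodule.subset_span ⟨Z, hZ, hv⟩)] at h1
  exact h1

end Pool.Agent.V5helper88.HR
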