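import Pool.Agent.V5helper88.HR.G9
import Pool.Agent.V5helper88.C4

/-!
There are no equivariant maps between the traceless self-adjoint matrices of different blocks of
dimension four.
-/

set_option autoImplicit false

namespace Pool.Agent.V5helper88.HR

open Matrix Module

variable {ι : Type} [Fintype ι] [DecidableEq ι] {Ω : Matrix ι ι ℂ}
  {H : Submodule ℂ (Matrix ι ι ℂ)}

/-- There are no equivariant maps between different blocks. -/
theorem hom_frames (hS : Sys Ω H) {κ₁ κ₂ : Type} [Fintype κ₁] [DecidableEq κ₁] [Fintype κ₂]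
    [DecidableEq κ₂] {K₁ : Matrix κ₁ κ₁ ℂ} {K₂ : Matrix κ₂ κ₂ ℂ} {B₁ : Matrix ι κ₁ ℂ}
    {B₂ : Matrix ι κ₂ ℂ} (h₁ : Frame Ω H K₁ B₁) (h₂ : Frame Ω H K₂ B₂)
    {Y₁ Y₂ : Submodule ℂ (ι → ℂ)} (hY₁ : Block H Y₁) (hY₂ : Block H Y₂) (hne : Y₂ ≠ Y₁)
    (hr₁ : LinearMap.range B₁.mulVecLin = Y₁) (hr₂ : LinearMap.range B₂.mulVecLin = Y₂)
    {P : Matrix κ₁ κ₂ ℂ} (hP : ∀ X ∈ H, rho Ω K₁ B₁ X * P = P * rho Ω K₂ B₂ X) : P = 0 := by
  have hF : Cm H (B₁ * P * cof Ω K₂ B₂) := by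
    intro X hX
    rw [Matrix.mul_assoc, h₂.cof_mul_X hS hX, ← Matrix.mul_assoc, Matrix.mul_assoc B₁, ← hP X hX,
      ← Matrix.mul_assoc, ← h₁.mul_B hX]
    simp only [Matrix.mul_assoc]
  have h3 := hY₂.hom_zero hS hY₁ hne hF (fun v _ => by
    rw [Matrix.mul_assoc, ← mulVec_mulVec, ← hr₁]
    exact ⟨_, rfl⟩)
  ext i j
  have h4 : B₂ *ᵥ Pi.single j 1 ∈ Y₂ := by rw [← hr₂]; exact ⟨_, rfl⟩
  have h5 := h3 _ h4
  rw [mulVec_mulVec, Matrix.mul_assoc, h₂.cof_mul, Matrix.mul_one, ← mulVec_mulVec] at h5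
  have h6 := congrFun (h₁.B_inj (h5.trans (mulVec_zero _).symm)) i
  rwa [mulVec_single_one] at h6

/-- The alternating tensor attached to a tensor which is alternating in two pairs. -/
def cS (m : Fin 4 → Fin 4 → Fin 4 → Fin 4 → ℂ) :
    Fin 4 ⊕ Fin 4 → Fin 4 ⊕ Fin 4 → Fin 4 ⊕ Fin 4 → Fin 4 ⊕ Fin 4 → ℂ
  | .inl p, .inl q, .inr r, .inr s => m p q r s
  | .inl p, .inr q, .inl r, .inr s => - m p r q s
  | .inl p, .inr q, .inr r, .inl s => m p s q r
  | .inr p, .inl q, .inl r, .inr s => m q r p s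
  | .inr p, .inl q, .inr r, .inl s => - m q s p r
  | .inr p, .inr q, .inl r, .inl s => m r s p q
  | _, _, _, _ => 0

theorem cS_alt {m : Fin 4 → Fin 4 → Fin 4 → Fin 4 → ℂ} (h1 : ∀ a b c d, m b a c d = -m a b c d)
    (h2 : ∀ a b c d, m a b d c = -m a b c d) (p q r s : Fin 4 ⊕ Fin 4) :
    cS m q p r s = -cS m p q r s ∧ cS m p r q s = -cS m p q r s ∧
      cS m p q s r = -cS m p q r s := by
  rcases p with p | p <;> rcases q with q | q <;> rcases r with r | r <;> rcases s with s | s <;>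
    refine ⟨?_, ?_, ?_⟩ <;> simp only [cS, neg_neg, neg_zero] <;>
    first | rfl | exact h1 _ _ _ _ | exact h2 _ _ _ _ | (rw [h1, neg_neg]) | (rw [h2, neg_neg])

theorem cS_inv {m : Fin 4 → Fin 4 → Fin 4 → Fin 4 → ℂ} {X₁ X₂ : Matrix (Fin 4) (Fin 4) ℂ}
    (h : ∀ a b c d, ∑ t, (X₁ t a * m t b c d + X₁ t b * m a t c d + X₂ t c * m a b t d
      + X₂ t d * m a b c t) = 0) (p q r s : Fin 4 ⊕ Fin 4) :
    ∑ t, (fromBlocks X₁ 0 0 X₂ t p * cS m t q r s + fromBlocks X₁ 0 0 X₂ t q * cS m p t r s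
      + fromBlocks X₁ 0 0 X₂ t r * cS m p q t s + fromBlocks X₁ 0 0 X₂ t s * cS m p q r t) = 0 := by
  simp only [Finset.sum_add_distrib] at h
  rcases p with p | p <;> rcases q with q | q <;> rcases r with r | r <;> rcases s with s | s <;>
    simp [cS, Fintype.sum_sum_type, Finset.sum_add_distrib]
  · linear_combination h p q r s
  · linear_combination -h p r q s
  · linear_combination h p s q r
  · linear_combination h q r p s
  · linear_combination -h q s p r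
  · linear_combination h r s p q

theorem cS_CC {m : Fin 4 → Fin 4 → Fin 4 → Fin 4 → ℂ}
    (h : ∀ c d, ∑ a, ∑ b, J4 a b * m a b c d = 0) (z w z' w' : ℂ) :
    ∑ p, ∑ q, ∑ r, ∑ s, fromBlocks (z • J4) 0 0 (z' • J4) p q
      * fromBlocks (w • J4) 0 0 (w' • J4) r s * cS m p q r s = 0 := by
  simp only [Fintype.sum_sum_type, fromBlocks_apply₁₁, fromBlocks_apply₁₂, fromBlocks_apply₂₁,
    fromBlocks_apply₂₂, cS, Matrix.zero_apply, mul_zero, zero_mul, Finset.sum_const_zero,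
    add_zero, zero_add, Matrix.smul_apply, smul_eq_mul]
  have e1 : ∑ a : Fin 4, ∑ b : Fin 4, ∑ c : Fin 4, ∑ d : Fin 4,
      z * J4 a b * (w' * J4 c d) * m a b c d = 0 := by
    have : ∀ a b : Fin 4, ∑ c : Fin 4, ∑ d : Fin 4, z * J4 a b * (w' * J4 c d) * m a b c d
        = ∑ c : Fin 4, ∑ d : Fin 4, (z * w' * J4 c d) * (J4 a b * m a b c d) := by
      intro a b
      refine Finset.sum_congr rfl fun c _ => Finset.sum_congr rfl fun d _ => ?_
      ring
    simp only [this]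
    have h2 : ∑ a : Fin 4, ∑ b : Fin 4, ∑ c : Fin 4, ∑ d : Fin 4,
        (z * w' * J4 c d) * (J4 a b * m a b c d)
        = ∑ c : Fin 4, ∑ d : Fin 4, (z * w' * J4 c d) * ∑ a : Fin 4, ∑ b : Fin 4,
          J4 a b * m a b c d := by
      simp only [Finset.mul_sum]
      rw [Finset.sum_congr rfl fun a _ => Finset.sum_comm]
      rw [Finset.sum_comm]
      refine Finset.sum_congr rfl fun c _ => ?_
      rw [Finset.sum_congr rfl fun a _ => Finset.sum_comm]
      rw [Finset.sum_comm]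
    rw [h2]
    refine Finset.sum_eq_zero fun c _ => Finset.sum_eq_zero fun d _ => ?_
    rw [h, mul_zero]
  have e2 : ∑ a : Fin 4, ∑ b : Fin 4, ∑ c : Fin 4, ∑ d : Fin 4,
      z' * J4 a b * (w * J4 c d) * m c d a b = 0 := by
    refine Finset.sum_eq_zero fun a _ => Finset.sum_eq_zero fun b _ => ?_
    have : ∑ c : Fin 4, ∑ d : Fin 4, z' * J4 a b * (w * J4 c d) * m c d a b
        = (z' * J4 a b * w) * ∑ c : Fin 4, ∑ d : Fin 4, J4 c d * m c d a b := by
      simp only [Finset.mul_sum]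
      refine Finset.sum_congr rfl fun c _ => Finset.sum_congr rfl fun d _ => ?_
      ring
    rw [this, h, mul_zero]
  rw [e1, e2, add_zero]

/-- The identification of indices. -/
def e8 : Fin 8 ≃ Fin 4 ⊕ Fin 4 := (finSumFinEquiv (m := 4) (n := 4)).symm

theorem J8_eq (p q : Fin 8) : F4.J8 p q = fromBlocks J4 0 0 J4 (e8 p) (e8 q) := by
  have h : ∀ a b : Fin 4 ⊕ Fin 4, F4.J8 (e8.symm a) (e8.symm b) = fromBlocks J4 0 0 J4 a b := by
    intro a b
    rcases a with a | a <;> rcases b with b | b <;> fin_cases a <;> fin_cases b <;>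
      simp [F4.J8, J4, e8, finSumFinEquiv]
  rw [← h, Equiv.symm_apply_apply, Equiv.symm_apply_apply]

end Pool.Agent.V5helper88.HR
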