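import Pool.Agent.V5helper88.HR.G10

/-!
There are no equivariant maps between the traceless self-adjoint matrices of different blocks of
dimension four: conclusion.
-/

set_option autoImplicit false

namespace Pool.Agent.V5helper88.HR

open Matrix Module

variable {ι : Type} [Fintype ι] [DecidableEq ι] {Ω : Matrix ι ι ℂ}
  {H : Submodule ℂ (Matrix ι ι ℂ)}

/-- The frame of the sum of two blocks of dimension four. -/
def B8 (B₁ B₂ : Matrix ι (Fin 4) ℂ) : Matrix ι (Fin 8) ℂ :=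
  (fromCols B₁ B₂).submatrix id e8

theorem frame8 (hS : Sys Ω H) {B₁ B₂ : Matrix ι (Fin 4) ℂ} (h₁ : Frame Ω H J4 B₁)
    (h₂ : Frame Ω H J4 B₂) {Y₁ Y₂ : Submodule ℂ (ι → ℂ)} (hY₁ : Block H Y₁)
    (hY₂ : Block H Y₂) (hne : Y₁ ≠ Y₂) (hr₁ : LinearMap.range B₁.mulVecLin = Y₁)
    (hr₂ : LinearMap.range B₂.mulVecLin = Y₂) : Frame Ω H F4.J8 (B8 B₁ B₂) ∧
      ∀ X ∈ H, ∀ p q, rho Ω F4.J8 (B8 B₁ B₂) X p q
        = fromBlocks (rho Ω J4 B₁ X) 0 0 (rho Ω J4 B₂ X) (e8 p) (e8 q) := by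
  have hmem₁ : ∀ j, (fun k => B₁ k j) ∈ Y₁ := fun j => by
    rw [← hr₁]
    refine ⟨Pi.single j 1, ?_⟩
    rw [mulVecLin_apply, mulVec_single_one]
    rfl
  have hmem₂ : ∀ j, (fun k => B₂ k j) ∈ Y₂ := fun j => by
    rw [← hr₂]
    refine ⟨Pi.single j 1, ?_⟩
    rw [mulVecLin_apply, mulVec_single_one]
    rfl
  have hR : ∀ X ∈ H, X * B8 B₁ B₂
      = B8 B₁ B₂ * (fromBlocks (rho Ω J4 B₁ X) 0 0 (rho Ω J4 B₂ X)).submatrix e8 e8 := by
    intro X hX
    have e1 : X * B8 B₁ B₂ = (X * fromCols B₁ B₂).submatrix id e8 := by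
      unfold B8
      ext i j
      simp only [mul_apply, submatrix_apply, id_eq]
    have e2 : B8 B₁ B₂ * (fromBlocks (rho Ω J4 B₁ X) 0 0 (rho Ω J4 B₂ X)).submatrix e8 e8
        = (fromCols B₁ B₂ * fromBlocks (rho Ω J4 B₁ X) 0 0 (rho Ω J4 B₂ X)).submatrix id e8 := by
      unfold B8
      rw [submatrix_mul_equiv]
    rw [e1, e2, mul_fromCols, fromCols_mul_fromBlocks, Matrix.mul_zero, Matrix.mul_zero, add_zero,
      zero_add, h₁.mul_B hX, h₂.mul_B hX]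
  have hf : Frame Ω H F4.J8 (B8 B₁ B₂) := by
    refine ⟨F4.J8_sq, F4.J8_tr, ?_, fun X hX => ⟨_, hR X hX⟩⟩
    ext p q
    rw [gram_entry, J8_eq]
    have hc : ∀ p k, B8 B₁ B₂ k p = fromCols B₁ B₂ k (e8 p) := fun p k => rfl
    simp only [hc]
    rcases e8 p with i | i <;> rcases e8 q with j | j
    · simp only [fromCols_apply_inl, fromBlocks_apply₁₁]
      rw [← gram_entry, h₁.gram]
    · simp only [fromCols_apply_inl, fromCols_apply_inr, fromBlocks_apply₁₂, Matrix.zero_apply]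
      exact hY₁.orth hS hY₂ hne (hmem₁ i) (hmem₂ j)
    · simp only [fromCols_apply_inl, fromCols_apply_inr, fromBlocks_apply₂₁, Matrix.zero_apply]
      exact hY₂.orth hS hY₁ (Ne.symm hne) (hmem₂ i) (hmem₁ j)
    · simp only [fromCols_apply_inr, fromBlocks_apply₂₂]
      rw [← gram_entry, h₂.gram]
  refine ⟨hf, fun X hX p q => ?_⟩
  have h3 : rho Ω F4.J8 (B8 B₁ B₂) X
      = (fromBlocks (rho Ω J4 B₁ X) 0 0 (rho Ω J4 B₂ X)).submatrix e8 e8 := by
    rw [rho_apply, Matrix.mul_assoc, hR X hX, ← Matrix.mul_assoc, hf.cof_mul, Matrix.one_mul]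
  rw [h3]
  rfl

/-- The context of the core statement. -/
theorem ctx8 (hS : Sys Ω H) {B : Matrix ι (Fin 8) ℂ} (hf : Frame Ω H F4.J8 B) :
    F4.Ctx {R | ∃ X ∈ H, R = rho Ω F4.J8 B X} := by
  refine ⟨?_, ?_, ?_⟩
  · rintro _ ⟨X, hX, rfl⟩
    exact hf.rho_sk hS hX
  · intro P hP
    exact hf.comm_sy hS fun X hX => hP _ ⟨X, hX, rfl⟩
  · intro W hW hiso
    have h1 : W.map B.mulVecLin = ⊥ := by
      refine Stable.iso hS ?_ ?_
      · rintro X hX _ ⟨w, hw, rfl⟩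
        refine ⟨rho Ω F4.J8 B X *ᵥ w, hW _ ⟨X, hX, rfl⟩ w hw, ?_⟩
        rw [mulVecLin_apply, mulVecLin_apply, mulVec_mulVec, mulVec_mulVec, hf.mul_B hX]
      · rintro _ ⟨v, hv, rfl⟩ _ ⟨w, hw, rfl⟩
        rw [mulVecLin_apply, mulVecLin_apply, hf.gram_apply]
        exact hiso v hv w hw
    rw [Submodule.eq_bot_iff]
    intro w hw
    have h3 : B.mulVecLin w ∈ W.map B.mulVecLin := ⟨w, hw, rfl⟩
    rw [h1, Submodule.mem_bot, mulVecLin_apply] at h3
    exact hf.B_inj (by rw [h3, mulVec_zero])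

/-- The core statement for two blocks of dimension four. -/
theorem core8 (hS : Sys Ω H) {B₁ B₂ : Matrix ι (Fin 4) ℂ} (h₁ : Frame Ω H J4 B₁)
    (h₂ : Frame Ω H J4 B₂) {Y₁ Y₂ : Submodule ℂ (ι → ℂ)} (hY₁ : Block H Y₁)
    (hY₂ : Block H Y₂) (hne : Y₁ ≠ Y₂) (hr₁ : LinearMap.range B₁.mulVecLin = Y₁)
    (hr₂ : LinearMap.range B₂.mulVecLin = Y₂) {m : Fin 4 → Fin 4 → Fin 4 → Fin 4 → ℂ}
    (m1 : ∀ a b c d, m b a c d = -m a b c d) (m2 : ∀ a b c d, m a b d c = -m a b c d)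
    (m3 : ∀ c d, ∑ a, ∑ b, J4 a b * m a b c d = 0)
    (m4 : ∀ X ∈ H, ∀ a b c d, ∑ t, (rho Ω J4 B₁ X t a * m t b c d + rho Ω J4 B₁ X t b * m a t c d
      + rho Ω J4 B₂ X t c * m a b t d + rho Ω J4 B₂ X t d * m a b c t) = 0) :
    ∀ a b c d, m a b c d = 0 := by
  obtain ⟨hf, hrho⟩ := frame8 hS h₁ h₂ hY₁ hY₂ hne hr₁ hr₂
  set c8 : Fin 8 → Fin 8 → Fin 8 → Fin 8 → ℂ :=
    fun p q r s => cS m (e8 p) (e8 q) (e8 r) (e8 s) with hc8
  have hcls : F4.Cls {R | ∃ X ∈ H, R = rho Ω F4.J8 (B8 B₁ B₂) X} c8 := by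
    refine ⟨⟨fun p q r s => (cS_alt m1 m2 _ _ _ _).1, fun p q r s => (cS_alt m1 m2 _ _ _ _).2.1,
      fun p q r s => (cS_alt m1 m2 _ _ _ _).2.2⟩, ?_, ?_⟩
    · rintro _ ⟨X, hX, rfl⟩ p q r s
      have h5 := cS_inv (m4 X hX) (e8 p) (e8 q) (e8 r) (e8 s)
      rw [← e8.sum_comp] at h5
      rw [← h5]
      refine Finset.sum_congr rfl fun t _ => ?_
      simp only [hrho X hX, hc8]
    · have hblock : ∀ P, F4.Cm {R | ∃ X ∈ H, R = rho Ω F4.J8 (B8 B₁ B₂) X} P →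
          ∃ z z' : ℂ, ∀ p q, (P * F4.J8) p q = fromBlocks (z • J4) 0 0 (z' • J4) (e8 p) (e8 q) := by
        intro P hP
        set P' : Matrix (Fin 4 ⊕ Fin 4) (Fin 4 ⊕ Fin 4) ℂ := P.submatrix e8.symm e8.symm with hP'
        have hcomm : ∀ X ∈ H, P' * fromBlocks (rho Ω J4 B₁ X) 0 0 (rho Ω J4 B₂ X)
            = fromBlocks (rho Ω J4 B₁ X) 0 0 (rho Ω J4 B₂ X) * P' := by
          intro X hX
          have h6 := hP _ ⟨X, hX, rfl⟩
          have h7 : rho Ω F4.J8 (B8 B₁ B₂) X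
              = (fromBlocks (rho Ω J4 B₁ X) 0 0 (rho Ω J4 B₂ X)).submatrix e8 e8 := by
            ext p q
            exact hrho X hX p q
          rw [h7] at h6
          have h8 : P = P'.submatrix e8 e8 := by
            rw [hP', submatrix_submatrix]; simp
          rw [h8, submatrix_mul_equiv, submatrix_mul_equiv] at h6
          have h9 := congrArg (fun Z => Z.submatrix e8.symm e8.symm) h6
          simpa only [submatrix_submatrix, Equiv.self_comp_symm, submatrix_id_id] using h9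
        have hdec : P' = fromBlocks P'.toBlocks₁₁ P'.toBlocks₁₂ P'.toBlocks₂₁ P'.toBlocks₂₂ :=
          (fromBlocks_toBlocks P').symm
        have hb : ∀ X ∈ H, P'.toBlocks₁₁ * rho Ω J4 B₁ X = rho Ω J4 B₁ X * P'.toBlocks₁₁ ∧
            P'.toBlocks₁₂ * rho Ω J4 B₂ X = rho Ω J4 B₁ X * P'.toBlocks₁₂ ∧
            P'.toBlocks₂₁ * rho Ω J4 B₁ X = rho Ω J4 B₂ X * P'.toBlocks₂₁ ∧
            P'.toBlocks₂₂ * rho Ω J4 B₂ X = rho Ω J4 B₂ X * P'.toBlocks₂₂ := by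
          intro X hX
          have h6 := hcomm X hX
          rw [hdec, fromBlocks_multiply, fromBlocks_multiply, fromBlocks_inj] at h6
          simpa using h6
        obtain ⟨z, hz⟩ := h₁.comm_scalar hS hY₁ hr₁ fun X hX => (hb X hX).1
        obtain ⟨z', hz'⟩ := h₂.comm_scalar hS hY₂ hr₂ fun X hX => (hb X hX).2.2.2
        have h12 := hom_frames hS h₁ h₂ hY₁ hY₂ (Ne.symm hne) hr₁ hr₂
          fun X hX => (hb X hX).2.1.symm
        have h21 := hom_frames hS h₂ h₁ hY₂ hY₁ hne hr₂ hr₁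
          fun X hX => (hb X hX).2.2.1.symm
        refine ⟨z, z', fun p q => ?_⟩
        have h8 : P = P'.submatrix e8 e8 := by
          rw [hP', submatrix_submatrix]; simp
        have h9 : F4.J8 = (fromBlocks J4 0 0 J4).submatrix e8 e8 := by
          ext p q; exact J8_eq p q
        rw [h8, h9, submatrix_mul_equiv, hdec, hz, hz', h12, h21, fromBlocks_multiply]
        simp
      intro P Q hP hQ
      obtain ⟨z, z', hz⟩ := hblock P hP
      obtain ⟨w, w', hw⟩ := hblock Q hQ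
      unfold F4.CC
      simp only [hz, hw, hc8]
      rw [← cS_CC m3 z w z' w']
      rw [← e8.sum_comp]
      refine Finset.sum_congr rfl fun p _ => ?_
      rw [← e8.sum_comp]
      refine Finset.sum_congr rfl fun q _ => ?_
      rw [← e8.sum_comp]
      refine Finset.sum_congr rfl fun r _ => ?_
      rw [← e8.sum_comp]
  have h0 := F4.core (ctx8 hS hf) hcls
  intro a b c d
  have h5 := congrFun (congrFun (congrFun (congrFun h0 (e8.symm (.inl a))) (e8.symm (.inl b)))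
    (e8.symm (.inr c))) (e8.symm (.inr d))
  simpa only [hc8, Equiv.apply_symm_apply, cS, Pi.zero_apply] using h5

end Pool.Agent.V5helper88.HR
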