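import Pool.Agent.V5helper88.HR.G11

/-!
Equivariant maps between the traceless self-adjoint matrices of different blocks of dimension four
vanish.
-/

set_option autoImplicit false

namespace Pool.Agent.V5helper88.HR

open Matrix Module

section general

variable {κ : Type} [Fintype κ] [DecidableEq κ]

theorem ew_add_left (K : Matrix κ κ ℂ) (v v' w : κ → ℂ) :
    ew K (v + v') w = ew K v w + ew K v' w := by
  unfold ew; rw [add_vecMulVec]

theorem ew_smul_left (K : Matrix κ κ ℂ) (z : ℂ) (v w : κ → ℂ) :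
    ew K (z • v) w = z • ew K v w := by
  unfold ew; rw [smul_vecMulVec]

theorem ew_add_right (K : Matrix κ κ ℂ) (v w w' : κ → ℂ) :
    ew K v (w + w') = ew K v w + ew K v w' := by
  unfold ew; rw [add_vecMul, vecMulVec_add]

theorem ew_smul_right (K : Matrix κ κ ℂ) (z : ℂ) (v w : κ → ℂ) :
    ew K v (z • w) = z • ew K v w := by
  unfold ew; rw [smul_vecMul, vecMulVec_smul]

/-- The traceless self-adjoint matrices attached to pairs of vectors. -/
noncomputable def sv (K : Matrix κ κ ℂ) : (κ → ℂ) →ₗ[ℂ] (κ → ℂ) →ₗ[ℂ] Matrix κ κ ℂ :=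
  LinearMap.mk₂ ℂ
    (fun v w => ew K v w - ew K w v - (2 * bw K w v / Fintype.card κ) • (1 : Matrix κ κ ℂ))
    (fun v v' w => by rw [ew_add_left, ew_add_right, bw_add_right]; module)
    (fun z v w => by rw [ew_smul_left, ew_smul_right, bw_smul_right]; module)
    (fun v w w' => by rw [ew_add_left, ew_add_right, bw_add_left]; module)
    (fun z v w => by rw [ew_smul_left, ew_smul_right, bw_smul_left]; module)

theorem sv_apply (K : Matrix κ κ ℂ) (v w : κ → ℂ) : sv K v w
    = ew K v w - ew K w v - (2 * bw K w v / Fintype.card κ) • (1 : Matrix κ κ ℂ) := rfl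

theorem sv_swap {K : Matrix κ κ ℂ} (hKt : Kᵀ = -K) (v w : κ → ℂ) : sv K w v = -sv K v w := by
  rw [sv_apply, sv_apply, bw_swap hKt w v]
  module

theorem sv_ad {K R : Matrix κ κ ℂ} (hR : Rᵀ * K = -(K * R)) (v w : κ → ℂ) :
    R * sv K v w - sv K v w * R = sv K (R *ᵥ v) w + sv K v (R *ᵥ w) := by
  have h1 : bw K (R *ᵥ w) v = -bw K w (R *ᵥ v) := sk_bw hR w v
  simp only [sv_apply, mul_sub, sub_mul, mul_ew, ew_mul hR, mul_smul_comm, smul_mul_assoc,
    mul_one, one_mul, h1]
  module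

/-- Self-adjoint traceless matrices are combinations of the matrices `sv`. -/
theorem sv_span {K : Matrix κ κ ℂ} (hK : K * K = -1) (hKt : Kᵀ = -K)
    (hN : (Fintype.card κ : ℂ) ≠ 0) {s : Matrix κ κ ℂ} (hs : s ∈ S0 K) :
    s = (1 / 2 : ℂ) • ∑ i, ∑ j, s i j • sv K (Pi.single i 1) (-(Pi.single j 1 ᵥ* K)) := by
  set w : κ → κ → ℂ := fun j => -((Pi.single j 1 : κ → ℂ) ᵥ* K) with hw
  have h1 : s = ∑ i, ∑ j, s i j • ew K (Pi.single i 1) (w j) := by
    conv_lhs => rw [matrix_eq_sum_single s]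
    refine Finset.sum_congr rfl fun i _ => Finset.sum_congr rfl fun j _ => ?_
    have h2 : ew K (Pi.single i 1) (w j) = single i j (1 : ℂ) := by
      unfold ew
      rw [hw]
      simp only
      rw [neg_vecMul, vecMul_vecMul, hK, vecMul_neg, vecMul_one, neg_neg]
      exact (single_eq_single_vecMulVec_single i j).symm
    rw [h2, smul_single, smul_eq_mul, mul_one]
  have h2 : sta K s = s := by
    unfold sta
    rw [mul_assoc, hs.1, ← mul_assoc, hK]; simp
  have hadd : ∀ X Y : Matrix κ κ ℂ, sta K (X + Y) = sta K X + sta K Y := fun X Y => by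
    unfold sta; rw [transpose_add]; noncomm_ring
  let L : Matrix κ κ ℂ →ₗ[ℂ] Matrix κ κ ℂ :=
    { toFun := sta K
      map_add' := hadd
      map_smul' := fun z X => by
        unfold sta
        rw [transpose_smul, mul_smul_comm, smul_mul_assoc, smul_neg, RingHom.id_apply] }
  have h3 : s = -∑ i, ∑ j, s i j • ew K (w j) (Pi.single i 1) := by
    have h4 : L s = s := h2
    rw [h1, map_sum] at h4
    rw [← h1] at h4
    rw [← h4, ← Finset.sum_neg_distrib]
    refine Finset.sum_congr rfl fun i _ => ?_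
    rw [map_sum, ← Finset.sum_neg_distrib]
    refine Finset.sum_congr rfl fun j _ => ?_
    rw [map_smul]
    change s i j • sta K (ew K (Pi.single i 1) (w j)) = _
    rw [sta_ew hK hKt, smul_neg, h4]
  set z : ℂ := ∑ i, ∑ j, s i j * (2 * bw K (w j) (Pi.single i 1) / Fintype.card κ) with hz
  have h5 : ∑ i, ∑ j, s i j • sv K (Pi.single i 1) (w j)
      = (2 : ℂ) • s - z • (1 : Matrix κ κ ℂ) := by
    have h6 : ∀ i j, s i j • sv K (Pi.single i 1) (w j)
        = s i j • ew K (Pi.single i 1) (w j) - s i j • ew K (w j) (Pi.single i 1)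
          - (s i j * (2 * bw K (w j) (Pi.single i 1) / Fintype.card κ)) • (1 : Matrix κ κ ℂ) := by
      intro i j
      rw [sv_apply, smul_sub, smul_sub, smul_smul]
    simp only [h6, Finset.sum_sub_distrib, ← Finset.sum_smul]
    rw [← h1, ← hz]
    have h7 : ∑ i, ∑ j, s i j • ew K (w j) (Pi.single i 1) = -s := by
      conv_rhs => rw [h3]
      rw [neg_neg]
    rw [h7]
    module
  have hmem : ∑ i, ∑ j, s i j • sv K (Pi.single i 1) (w j) ∈ S0 K :=
    Submodule.sum_mem _ fun i _ => Submodule.sum_mem _ fun j _ =>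
      (S0 K).smul_mem _ (ew_S0 hK hKt hN _ _)
  have h8 : z = 0 := by
    have h9 := hmem.2
    rw [h5, trace_sub, trace_smul, trace_smul, hs.2, trace_one, smul_zero, zero_sub,
      neg_eq_zero, smul_eq_mul] at h9
    exact (mul_eq_zero.mp h9).resolve_right hN
  rw [h5, h8, zero_smul, sub_zero, smul_smul]
  norm_num

theorem functional_mulVec (f : (κ → ℂ) →ₗ[ℂ] ℂ) (R : Matrix κ κ ℂ) (a : κ) :
    f (R *ᵥ Pi.single a 1) = ∑ t, R t a * f (Pi.single t 1) := by
  have h1 : R *ᵥ Pi.single a 1 = ∑ t, R t a • (Pi.single t 1 : κ → ℂ) := by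
    rw [mulVec_single_one]
    funext k
    simp [Finset.sum_apply, Pi.single_apply]
  rw [h1, map_sum]
  refine Finset.sum_congr rfl fun t _ => ?_
  rw [map_smul, smul_eq_mul]

end general

variable {ι : Type} [Fintype ι] [DecidableEq ι] {Ω : Matrix ι ι ℂ}
  {H : Submodule ℂ (Matrix ι ι ℂ)}

theorem core44 (hS : Sys Ω H) {B₁ B₂ : Matrix ι (Fin 4) ℂ} (h₁ : Frame Ω H J4 B₁)
    (h₂ : Frame Ω H J4 B₂) {Y₁ Y₂ : Submodule ℂ (ι → ℂ)} (hY₁ : Block H Y₁)
    (hY₂ : Block H Y₂) (hne : Y₁ ≠ Y₂) (hr₁ : LinearMap.range B₁.mulVecLin = Y₁)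
    (hr₂ : LinearMap.range B₂.mulVecLin = Y₂)
    (M : Matrix (Fin 4) (Fin 4) ℂ →ₗ[ℂ] Matrix (Fin 4) (Fin 4) ℂ)
    (hM : ∀ s ∈ S0 J4, M s ∈ S0 J4)
    (heq : ∀ X ∈ H, ∀ s ∈ S0 J4, M (rho Ω J4 B₂ X * s - s * rho Ω J4 B₂ X)
      = rho Ω J4 B₁ X * M s - M s * rho Ω J4 B₁ X) : ∀ s ∈ S0 J4, M s = 0 := by
  have hN : (Fintype.card (Fin 4) : ℂ) ≠ 0 := by rw [Fintype.card_fin]; norm_num
  have hsv : ∀ v w, sv J4 v w ∈ S0 J4 := fun v w => ew_S0 J4_sq J4_tr hN v w
  let e : Fin 4 → Fin 4 → ℂ := fun i => Pi.single i 1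
  let m : Fin 4 → Fin 4 → Fin 4 → Fin 4 → ℂ := fun a b c d =>
    bw J4 (M (sv J4 (e c) (e d)) *ᵥ e a) (e b)
  have hsy : ∀ s ∈ S0 J4, ∀ v w, bw J4 (s *ᵥ v) w = bw J4 v (s *ᵥ w) := fun s hs v w => by
    rw [bw_mulVec_left, bw_mulVec_right, hs.1]
  have hm : ∀ a b c d, m a b c d = 0 := by
    refine core8 hS h₁ h₂ hY₁ hY₂ hne hr₁ hr₂ ?_ ?_ ?_ ?_
    · intro a b c d
      change bw J4 (M _ *ᵥ e b) (e a) = -bw J4 (M _ *ᵥ e a) (e b)
      rw [hsy _ (hM _ (hsv _ _)), bw_swap J4_tr]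
    · intro a b c d
      change bw J4 (M (sv J4 (e d) (e c)) *ᵥ e a) (e b) = -bw J4 (M _ *ᵥ e a) (e b)
      rw [sv_swap J4_tr, map_neg, neg_mulVec, bw_neg_left]
    · intro c d
      have h5 := hM _ (hsv (e c) (e d))
      set S := M (sv J4 (e c) (e d)) with hSd
      have h6 : ∀ a b, m a b c d = (Sᵀ * J4) a b := by
        intro a b
        change bw J4 (S *ᵥ e a) (e b) = _
        rw [bw_mulVec_left, single_one_dotProduct, mulVec_single_one]
        rfl
      simp only [h6]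
      have h7 : ∑ a, ∑ b, J4 a b * (Sᵀ * J4) a b = trace (J4ᵀ * (Sᵀ * J4)) := by
        rw [trace]
        simp only [diag_apply, mul_apply (M := J4ᵀ), transpose_apply J4]
        rw [Finset.sum_comm]
      rw [h7, J4_tr, h5.1, neg_mul, ← mul_assoc, J4_sq, neg_one_mul, neg_neg, h5.2]
    · intro X hX a b c d
      have hk₁ := h₁.rho_sk hS hX
      have hk₂ := h₂.rho_sk hS hX
      set S := M (sv J4 (e c) (e d)) with hSd
      have f1 : ∑ t, rho Ω J4 B₁ X t a * m t b c d
          = bw J4 (S *ᵥ (rho Ω J4 B₁ X *ᵥ e a)) (e b) := by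
        let f : (Fin 4 → ℂ) →ₗ[ℂ] ℂ :=
          { toFun := fun v => bw J4 (S *ᵥ v) (e b)
            map_add' := fun v w => by rw [mulVec_add, bw_add_left]
            map_smul' := fun z v => by rw [mulVec_smul, bw_smul_left]; rfl }
        exact (functional_mulVec f _ a).symm
      have f2 : ∑ t, rho Ω J4 B₁ X t b * m a t c d
          = bw J4 (S *ᵥ e a) (rho Ω J4 B₁ X *ᵥ e b) := by
        let f : (Fin 4 → ℂ) →ₗ[ℂ] ℂ :=
          { toFun := fun v => bw J4 (S *ᵥ e a) v
            map_add' := fun v w => by rw [bw_add_right]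
            map_smul' := fun z v => by rw [bw_smul_right]; rfl }
        exact (functional_mulVec f _ b).symm
      have f3 : ∑ t, rho Ω J4 B₂ X t c * m a b t d
          = bw J4 (M (sv J4 (rho Ω J4 B₂ X *ᵥ e c) (e d)) *ᵥ e a) (e b) := by
        let f : (Fin 4 → ℂ) →ₗ[ℂ] ℂ :=
          { toFun := fun v => bw J4 (M (sv J4 v (e d)) *ᵥ e a) (e b)
            map_add' := fun v w => by
              rw [map_add, LinearMap.add_apply, map_add, add_mulVec, bw_add_left]
            map_smul' := fun z v => by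
              rw [map_smul, LinearMap.smul_apply, map_smul, smul_mulVec, bw_smul_left]; rfl }
        exact (functional_mulVec f _ c).symm
      have f4 : ∑ t, rho Ω J4 B₂ X t d * m a b c t
          = bw J4 (M (sv J4 (e c) (rho Ω J4 B₂ X *ᵥ e d)) *ᵥ e a) (e b) := by
        let f : (Fin 4 → ℂ) →ₗ[ℂ] ℂ :=
          { toFun := fun v => bw J4 (M (sv J4 (e c) v) *ᵥ e a) (e b)
            map_add' := fun v w => by
              rw [map_add, map_add, add_mulVec, bw_add_left]
            map_smul' := fun z v => by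
              rw [map_smul, map_smul, smul_mulVec, bw_smul_left]; rfl }
        exact (functional_mulVec f _ d).symm
      rw [Finset.sum_add_distrib, Finset.sum_add_distrib, Finset.sum_add_distrib, f1, f2, f3, f4]
      have h5 := heq X hX _ (hsv (e c) (e d))
      rw [sv_ad hk₂, map_add] at h5
      have h6 := congrArg (fun Z => bw J4 (Z *ᵥ e a) (e b)) h5
      simp only [add_mulVec, sub_mulVec, bw_add_left, bw_sub_left, ← mulVec_mulVec] at h6
      rw [sk_bw hk₁] at h6
      rw [← hSd] at h6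
      linear_combination h6
  have hz : ∀ c d, M (sv J4 (e c) (e d)) = 0 := by
    intro c d
    have h5 := hM _ (hsv (e c) (e d))
    have h6 : (M (sv J4 (e c) (e d)))ᵀ * J4 = 0 := by
      ext a b
      have h7 := hm a b c d
      change bw J4 (M (sv J4 (e c) (e d)) *ᵥ e a) (e b) = 0 at h7
      rw [bw_mulVec_left, single_one_dotProduct, mulVec_single_one] at h7
      exact h7
    rw [h5.1] at h6
    have h8 : M (sv J4 (e c) (e d)) = -(J4 * (J4 * M (sv J4 (e c) (e d)))) := by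
      rw [← mul_assoc, J4_sq]; simp
    rw [h8, h6, mul_zero, neg_zero]
  have hzz : ∀ v w, M (sv J4 v w) = 0 := by
    have h5 : (sv J4).compr₂ M = 0 := by
      refine LinearMap.pi_ext' fun c => LinearMap.ext_ring ?_
      refine LinearMap.pi_ext' fun d => LinearMap.ext_ring ?_
      exact hz c d
    intro v w
    exact congrArg (fun G : (Fin 4 → ℂ) →ₗ[ℂ] (Fin 4 → ℂ) →ₗ[ℂ] Matrix (Fin 4) (Fin 4) ℂ => G v w) h5
  intro s hs
  rw [sv_span J4_sq J4_tr hN hs, map_smul, map_sum]
  rw [Finset.sum_eq_zero, smul_zero]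
  intro i _
  rw [map_sum]
  refine Finset.sum_eq_zero fun j _ => ?_
  rw [map_smul, hzz, smul_zero]

end Pool.Agent.V5helper88.HR
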