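import Pool.Agent.V5helper88.HR.G12

/-!
The tensor of a minimal ideal which acts on two different blocks.
-/

set_option autoImplicit false

namespace Pool.Agent.V5helper88.HR

open Matrix Module Kronecker

theorem idem_trace {α : Type} [Fintype α] [DecidableEq α] {p : Matrix α α ℂ} (hp : p * p = p) :
    ∃ m : ℕ, trace p = m ∧ finrank ℂ (LinearMap.range (toLin' p)) = m := by
  have hff : IsIdempotentElem (Matrix.toLin' p) := by
    unfold IsIdempotentElem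
    rw [Module.End.mul_eq_comp, ← Matrix.toLin'_mul, hp]
  have h1 := (LinearMap.IsIdempotentElem.isProj_range _ hff).trace
  rw [Matrix.trace_toLin'_eq] at h1
  exact ⟨_, h1, rfl⟩

/-- The numerical contradiction for two blocks of dimension four. -/
theorem dio (n : ℕ) (hn : 1 ≤ n) (e : ℤ)
    (h : e ^ 2 * (4 * (n : ℤ) ^ 2 + 5 * n + 25) = 64 * (2 * (n : ℤ) - 5) ^ 2) : False := by
  have hn' : (1 : ℤ) ≤ n := by exact_mod_cast hn
  have h1 : e ^ 2 < 64 := by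
    by_contra hcon
    push Not at hcon
    nlinarith [mul_le_mul_of_nonneg_right hcon (by positivity : (0 : ℤ) ≤ 4 * (n : ℤ) ^ 2 + 5 * n + 25)]
  have h2 : e < 8 := by nlinarith
  have h3 : -8 < e := by nlinarith
  have h4 : (n : ℤ) ≤ 26 := by
    have h5 : e ^ 2 ≤ 49 := by nlinarith
    by_contra hcon
    push Not at hcon
    nlinarith [mul_le_mul_of_nonneg_right h5 (by positivity : (0 : ℤ) ≤ 4 * (n : ℤ) ^ 2 + 5 * n + 25)]
  generalize (n : ℤ) = m at *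
  interval_cases e <;> interval_cases m <;> omega

theorem count44 {PP : Matrix (Fin 4 × Fin 4) (Fin 4 × Fin 4) ℂ} {t : ℂ} {n : ℕ} (hn : 1 ≤ n)
    (ht : t ≠ 0) (htr : trace PP = 0)
    (h : PP * PP = -(t * (2 * n - 5) / 10) • PP + (t ^ 2 * n / 16) • 1) : False := by
  obtain ⟨r, hr⟩ := IsAlgClosed.exists_pow_nat_eq (4 * (n : ℂ) ^ 2 + 5 * n + 25) (n := 2) (by norm_num)
  have hr0 : r ≠ 0 := by
    intro h0
    rw [h0] at hr
    have h1 : ((4 * n ^ 2 + 5 * n + 25 : ℕ) : ℂ) = 0 := by push_cast; rw [← hr]; ring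
    rw [Nat.cast_eq_zero] at h1
    omega
  set q : ℂ := t * ((2 * n - 5) + r) / 20 with hq
  set E : Matrix (Fin 4 × Fin 4) (Fin 4 × Fin 4) ℂ := (10 / (t * r)) • (PP + q • 1) with hE
  have hEE : E * E = E := by
    rw [hE, smul_mul_smul_comm]
    have h1 : (PP + q • 1) * (PP + q • 1) = PP * PP + (2 * q) • PP + (q ^ 2) • 1 := by
      rw [add_mul, mul_add, mul_add, smul_mul_assoc, one_mul, mul_smul_comm, mul_one,
        smul_mul_smul_comm, mul_one]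
      module
    have h2 : PP * PP + (2 * q) • PP + (q ^ 2) • 1 = (t * r / 10) • (PP + q • (1 : Matrix (Fin 4 × Fin 4) (Fin 4 × Fin 4) ℂ)) := by
      rw [h]
      have e1 : -(t * (2 * n - 5) / 10) + 2 * q = t * r / 10 := by rw [hq]; ring
      have e2 : t ^ 2 * n / 16 + q ^ 2 = t * r / 10 * q := by
        rw [hq]
        linear_combination (-(t ^ 2 / 400)) * hr
      rw [smul_add, smul_smul, ← e2, ← e1]
      module
    rw [h1, h2, smul_smul]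
    congr 1
    field_simp
  obtain ⟨m, hm, -⟩ := idem_trace hEE
  have h3 : trace E = 8 * ((2 * n - 5) + r) / r := by
    rw [hE, trace_smul, trace_add, htr, trace_smul, trace_one]
    simp only [Fintype.card_prod, Fintype.card_fin, smul_eq_mul]
    rw [hq]
    push_cast
    field_simp
    ring
  rw [h3, div_eq_iff hr0] at hm
  have h4 : ((m : ℂ) - 8) ^ 2 * (4 * (n : ℂ) ^ 2 + 5 * n + 25) = 64 * (2 * n - 5) ^ 2 := by
    rw [← hr]
    have h5 : ((m : ℂ) - 8) * r = 8 * (2 * n - 5) := by linear_combination -hm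
    calc ((m : ℂ) - 8) ^ 2 * r ^ 2 = (((m : ℂ) - 8) * r) ^ 2 := by ring
      _ = _ := by rw [h5]; ring
  refine dio n hn ((m : ℤ) - 8) ?_
  exact_mod_cast h4

section tensor

variable {ι : Type} [Fintype ι] [DecidableEq ι] {Ω : Matrix ι ι ℂ}
  {H : Submodule ℂ (Matrix ι ι ℂ)} {a : Submodule ℂ (Matrix ι ι ℂ)}
  {n : ℕ} {x x' : Fin n → Matrix ι ι ℂ}
  {κ₁ κ₂ : Type} [Fintype κ₁] [DecidableEq κ₁] [Fintype κ₂] [DecidableEq κ₂]
  {K₁ : Matrix κ₁ κ₁ ℂ} {K₂ : Matrix κ₂ κ₂ ℂ} {B₁ : Matrix ι κ₁ ℂ} {B₂ : Matrix ι κ₂ ℂ}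

/-- The tensor of the ideal on two blocks. -/
noncomputable def PP (A : Fin n → Matrix κ₁ κ₁ ℂ) (A' : Fin n → Matrix κ₂ κ₂ ℂ) :
    Matrix (κ₁ × κ₂) (κ₁ × κ₂) ℂ := ∑ i, A i ⊗ₖ A' i

/-- The symmetric part of its square. -/
noncomputable def GG (A : Fin n → Matrix κ₁ κ₁ ℂ) (A' : Fin n → Matrix κ₂ κ₂ ℂ) :
    Matrix (κ₁ × κ₂) (κ₁ × κ₂) ℂ :=
  ∑ i, ∑ j, (A i * A j + A j * A i) ⊗ₖ (A' i * A' j + A' j * A' i)

theorem PP_sq (A : Fin n → Matrix κ₁ κ₁ ℂ) (A' : Fin n → Matrix κ₂ κ₂ ℂ) :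
    (4 : ℂ) • (PP A A' * PP A A') = GG A A'
      + ∑ i, ∑ j, (A i * A j - A j * A i) ⊗ₖ (A' i * A' j - A' j * A' i) := by
  have h1 : PP A A' * PP A A' = ∑ i, ∑ j, (A i * A j) ⊗ₖ (A' i * A' j) := by
    unfold PP
    rw [Finset.sum_mul]
    refine Finset.sum_congr rfl fun i _ => ?_
    rw [Finset.mul_sum]
    refine Finset.sum_congr rfl fun j _ => ?_
    rw [mul_kronecker_mul]
  have h2 : PP A A' * PP A A' = ∑ i, ∑ j, (A j * A i) ⊗ₖ (A' j * A' i) := by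
    rw [h1, Finset.sum_comm]
  have h3 : (4 : ℂ) • (PP A A' * PP A A')
      = (2 : ℂ) • (PP A A' * PP A A') + (2 : ℂ) • (PP A A' * PP A A') := by module
  rw [h3]
  nth_rewrite 1 [h1]
  rw [h2]
  unfold GG
  rw [Finset.smul_sum, Finset.smul_sum, ← Finset.sum_add_distrib, ← Finset.sum_add_distrib]
  refine Finset.sum_congr rfl fun i _ => ?_
  rw [Finset.smul_sum, Finset.smul_sum, ← Finset.sum_add_distrib, ← Finset.sum_add_distrib]
  refine Finset.sum_congr rfl fun j _ => ?_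
  have sl : ∀ (X X' : Matrix κ₁ κ₁ ℂ) (Y : Matrix κ₂ κ₂ ℂ),
      (X - X') ⊗ₖ Y = X ⊗ₖ Y - X' ⊗ₖ Y := fun X X' Y => by
    rw [eq_sub_iff_add_eq, ← add_kronecker, sub_add_cancel]
  have sr : ∀ (X : Matrix κ₁ κ₁ ℂ) (Y Y' : Matrix κ₂ κ₂ ℂ),
      X ⊗ₖ (Y - Y') = X ⊗ₖ Y - X ⊗ₖ Y' := fun X Y Y' => by
    rw [eq_sub_iff_add_eq, ← kronecker_add, sub_add_cancel]
  simp only [add_kronecker, kronecker_add, sl, sr]
  module

theorem comm_part (ha : MinId H a) (hD : Dual a x x') {k : ℂ}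
    (hk : ∀ Y ∈ a, ∑ i, (x i * (x' i * Y - Y * x' i) - (x' i * Y - Y * x' i) * x i) = k • Y)
    (h₁ : Frame Ω H K₁ B₁) (h₂ : Frame Ω H K₂ B₂) :
    ∑ i, ∑ j, (rho Ω K₁ B₁ (x i) * rho Ω K₁ B₁ (x j) - rho Ω K₁ B₁ (x j) * rho Ω K₁ B₁ (x i))
      ⊗ₖ (rho Ω K₂ B₂ (x' i) * rho Ω K₂ B₂ (x' j) - rho Ω K₂ B₂ (x' j) * rho Ω K₂ B₂ (x' i))
      = -k • PP (fun i => rho Ω K₁ B₁ (x i)) (fun i => rho Ω K₂ B₂ (x' i)) := by
  have hm : ∀ i, x i ∈ H := fun i => ha.id.le (hD.mem i)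
  have hm' : ∀ i, x' i ∈ H := fun i => ha.id.le (hD.mem' i)
  have h1 : ∀ i, ∑ j, (rho Ω K₁ B₁ (x i) * rho Ω K₁ B₁ (x j)
      - rho Ω K₁ B₁ (x j) * rho Ω K₁ B₁ (x i))
      ⊗ₖ (rho Ω K₂ B₂ (x' i) * rho Ω K₂ B₂ (x' j) - rho Ω K₂ B₂ (x' j) * rho Ω K₂ B₂ (x' i))
      = -∑ j, rho Ω K₁ B₁ (x j) ⊗ₖ
        rho Ω K₂ B₂ (x' i * (x i * x' j - x' j * x i) - (x i * x' j - x' j * x i) * x' i) := by
    intro i
    let F : Matrix ι ι ℂ →ₗ[ℂ] Matrix ι ι ℂ →ₗ[ℂ] Matrix (κ₁ × κ₂) (κ₁ × κ₂) ℂ :=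
      LinearMap.mk₂ ℂ (fun U V => rho Ω K₁ B₁ U ⊗ₖ rho Ω K₂ B₂ (x' i * V - V * x' i))
        (fun U U' V => by rw [map_add, add_kronecker])
        (fun z U V => by rw [map_smul, smul_kronecker])
        (fun U V V' => by
          rw [← kronecker_add, ← map_add]; congr 2; noncomm_ring)
        (fun z U V => by
          rw [← kronecker_smul, ← map_smul, mul_smul_comm, smul_mul_assoc, ← smul_sub])
    have h2 := hD.inv ha.id (hm i) F
    have h3 : ∀ U V, F U V = rho Ω K₁ B₁ U ⊗ₖ rho Ω K₂ B₂ (x' i * V - V * x' i) := fun U V => rfl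
    simp only [h3] at h2
    rw [← eq_neg_of_add_eq_zero_left h2]
    refine Finset.sum_congr rfl fun j _ => ?_
    rw [h₁.rho_bracket (hm i) (hm j), h₂.rho_bracket (hm' i) (hm' j)]
  rw [Finset.sum_congr rfl fun i _ => h1 i, Finset.sum_neg_distrib, Finset.sum_comm]
  have h4 : ∀ j, ∑ i, rho Ω K₁ B₁ (x j) ⊗ₖ
      rho Ω K₂ B₂ (x' i * (x i * x' j - x' j * x i) - (x i * x' j - x' j * x i) * x' i)
      = k • rho Ω K₁ B₁ (x j) ⊗ₖ rho Ω K₂ B₂ (x' j) := by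
    intro j
    let F : Matrix ι ι ℂ →ₗ[ℂ] Matrix ι ι ℂ →ₗ[ℂ] Matrix ι ι ℂ :=
      LinearMap.mk₂ ℂ (fun U V => V * (U * x' j - x' j * U) - (U * x' j - x' j * U) * V)
        (fun U U' V => by noncomm_ring)
        (fun z U V => by simp only [smul_mul_assoc, mul_smul_comm, smul_sub, mul_sub, sub_mul])
        (fun U V V' => by noncomm_ring)
        (fun z U V => by simp only [smul_mul_assoc, mul_smul_comm, smul_sub])
    have h5 := hD.symm F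
    have h6 : ∀ U V, F U V = V * (U * x' j - x' j * U) - (U * x' j - x' j * U) * V :=
      fun U V => rfl
    simp only [h6] at h5
    rw [hk _ (hD.mem' j)] at h5
    have h7 : ∀ Z : Fin n → Matrix ι ι ℂ, ∑ i, rho Ω K₁ B₁ (x j) ⊗ₖ rho Ω K₂ B₂ (Z i)
        = rho Ω K₁ B₁ (x j) ⊗ₖ rho Ω K₂ B₂ (∑ i, Z i) := by
      intro Z
      rw [map_sum]
      ext p q
      rw [Matrix.sum_apply, kroneckerMap_apply, Matrix.sum_apply, Finset.mul_sum]
      rfl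
    rw [h7, h5, map_smul, kronecker_smul]
  rw [Finset.sum_congr rfl fun j _ => h4 j, ← Finset.smul_sum, neg_smul]
  rfl

/-- The square of the tensor. -/
theorem PP_sq' (ha : MinId H a) (hD : Dual a x x') {k : ℂ}
    (hk : ∀ Y ∈ a, ∑ i, (x i * (x' i * Y - Y * x' i) - (x' i * Y - Y * x' i) * x i) = k • Y)
    (h₁ : Frame Ω H K₁ B₁) (h₂ : Frame Ω H K₂ B₂) {g : ℂ}
    (hG : GG (fun i => rho Ω K₁ B₁ (x i)) (fun i => rho Ω K₂ B₂ (x' i)) = g • 1) :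
    PP (fun i => rho Ω K₁ B₁ (x i)) (fun i => rho Ω K₂ B₂ (x' i))
      * PP (fun i => rho Ω K₁ B₁ (x i)) (fun i => rho Ω K₂ B₂ (x' i))
      = (-(k / 4)) • PP (fun i => rho Ω K₁ B₁ (x i)) (fun i => rho Ω K₂ B₂ (x' i))
        + (g / 4) • 1 := by
  have h1 := PP_sq (fun i => rho Ω K₁ B₁ (x i)) (fun i => rho Ω K₂ B₂ (x' i))
  rw [comm_part ha hD hk h₁ h₂, hG] at h1
  have h2 := congrArg (fun Z => (1 / 4 : ℂ) • Z) h1
  simp only [smul_smul] at h2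
  rw [show (1 / 4 : ℂ) * 4 = 1 by norm_num, one_smul] at h2
  rw [h2]
  module

theorem PP_trace (ha : MinId H a) (hD : Dual a x x') (hS : Sys Ω H)
    (h₁ : Frame Ω H K₁ B₁) :
    trace (PP (fun i => rho Ω K₁ B₁ (x i)) (fun i => rho Ω K₂ B₂ (x' i))) = 0 := by
  unfold PP
  rw [trace_sum]
  refine Finset.sum_eq_zero fun i _ => ?_
  rw [trace_kronecker, trace_sk_zero h₁.ksq h₁.ktr (h₁.rho_sk hS (ha.id.le (hD.mem i))), zero_mul]

/-- The contraction of `GG` with the identity. -/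
theorem GG_one (hD : Dual a x x') {t₂ γ : ℂ}
    (ht₂ : ∀ U ∈ a, ∀ V ∈ a, trace (rho Ω K₂ B₂ U * rho Ω K₂ B₂ V) = t₂ * trace (U * V))
    (hγ : Phi (fun i => rho Ω K₁ B₁ (x i)) (fun i => rho Ω K₁ B₁ (x' i)) 1
      = γ • (1 : Matrix κ₁ κ₁ ℂ)) :
    ∑ i, ∑ j, trace (rho Ω K₂ B₂ (x' i) * rho Ω K₂ B₂ (x' j)
        + rho Ω K₂ B₂ (x' j) * rho Ω K₂ B₂ (x' i)) •
      (rho Ω K₁ B₁ (x i) * rho Ω K₁ B₁ (x j) + rho Ω K₁ B₁ (x j) * rho Ω K₁ B₁ (x i))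
      = (4 * t₂ * γ) • (1 : Matrix κ₁ κ₁ ℂ) := by
  have h1 : ∀ i, ∑ j, trace (rho Ω K₂ B₂ (x' i) * rho Ω K₂ B₂ (x' j)
        + rho Ω K₂ B₂ (x' j) * rho Ω K₂ B₂ (x' i)) •
      (rho Ω K₁ B₁ (x i) * rho Ω K₁ B₁ (x j) + rho Ω K₁ B₁ (x j) * rho Ω K₁ B₁ (x i))
      = (2 * t₂) • (rho Ω K₁ B₁ (x i) * 1 * rho Ω K₁ B₁ (x' i)
        + rho Ω K₁ B₁ (x' i) * 1 * rho Ω K₁ B₁ (x i)) := by
    intro i
    have h2 : ∀ j, trace (rho Ω K₂ B₂ (x' i) * rho Ω K₂ B₂ (x' j)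
        + rho Ω K₂ B₂ (x' j) * rho Ω K₂ B₂ (x' i)) = 2 * t₂ * trace (x' j * x' i) := by
      intro j
      rw [trace_add, ht₂ _ (hD.mem' i) _ (hD.mem' j), ht₂ _ (hD.mem' j) _ (hD.mem' i),
        trace_mul_comm (x' i)]
      ring
    simp only [h2]
    have h3 := congrArg (rho Ω K₁ B₁) (hD.ex' _ (hD.mem' i))
    rw [map_sum] at h3
    simp only [map_smul] at h3
    rw [mul_one, mul_one, ← h3, Finset.mul_sum, Finset.sum_mul, ← Finset.sum_add_distrib,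
      Finset.smul_sum]
    refine Finset.sum_congr rfl fun j _ => ?_
    rw [mul_smul_comm, smul_mul_assoc, ← smul_add, smul_smul]
  rw [Finset.sum_congr rfl fun i _ => h1 i, ← Finset.smul_sum, Finset.sum_add_distrib,
    phi_symm hD, ← Phi_apply (fun i => rho Ω K₁ B₁ (x i)) (fun i => rho Ω K₁ B₁ (x' i)), hγ]
  module

end tensor

end Pool.Agent.V5helper88.HR
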