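import Pool.Agent.V5helper88.HR.G13

/-!
A minimal ideal acts on at most one block of dimension four.
-/

set_option autoImplicit false

namespace Pool.Agent.V5helper88.HR

open Matrix Module Kronecker

section proj

variable {κ : Type} [Fintype κ] [DecidableEq κ] {K : Matrix κ κ ℂ}

/-- The traceless self-adjoint component. -/
noncomputable def s0p (K E : Matrix κ κ ℂ) : Matrix κ κ ℂ :=
  (1 / 2 : ℂ) • (E + sta K E) - (trace E / Fintype.card κ) • 1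

theorem trace_mul_sta (hK : K * K = -1) {T : Matrix κ κ ℂ} (hT : Tᵀ * K = K * T)
    (E : Matrix κ κ ℂ) : trace (T * sta K E) = trace (T * E) := by
  unfold sta
  have h1 : T * -(K * Eᵀ * K) = -((T * K * Eᵀ) * K) := by noncomm_ring
  rw [h1, trace_neg, trace_mul_comm]
  have h2 : K * (T * K * Eᵀ) = (K * T) * K * Eᵀ := by noncomm_ring
  rw [h2, ← hT]
  have h3 : Tᵀ * K * K * Eᵀ = -(Tᵀ * Eᵀ) := by
    rw [mul_assoc Tᵀ, hK]; noncomm_ring
  rw [h3, trace_neg, neg_neg, ← transpose_mul, trace_transpose, trace_mul_comm]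

theorem s0p_mem (hK : K * K = -1) (hKt : Kᵀ = -K) (hN : (Fintype.card κ : ℂ) ≠ 0)
    (E : Matrix κ κ ℂ) : s0p K E ∈ S0 K := by
  have h1 : (sta K E)ᵀ * K = K * E := by
    unfold sta
    rw [transpose_neg, transpose_mul, transpose_mul, transpose_transpose, hKt]
    have : -(-K * (E * -K)) * K = -(K * E * (K * K)) := by noncomm_ring
    rw [this, hK]; simp
  have h2 : K * sta K E = Eᵀ * K := by
    unfold sta
    have : K * -(K * Eᵀ * K) = -((K * K) * Eᵀ * K) := by noncomm_ring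
    rw [this, hK]; simp
  refine ⟨?_, ?_⟩
  · unfold s0p
    rw [transpose_sub, transpose_smul, transpose_add, transpose_smul, transpose_one, sub_mul,
      smul_mul_assoc, add_mul, h1, smul_mul_assoc, one_mul, mul_sub, mul_smul_comm, mul_add, h2,
      mul_smul_comm, mul_one, add_comm (Eᵀ * K)]
  · have h3 := trace_mul_sta hK (T := 1) (by rw [transpose_one, one_mul, mul_one]) E
    rw [one_mul, one_mul] at h3
    unfold s0p
    rw [trace_sub, trace_smul, trace_smul, trace_add, h3, trace_one, smul_eq_mul, smul_eq_mul]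
    field_simp
    ring

theorem trace_mul_s0p (hK : K * K = -1) {T : Matrix κ κ ℂ} (hT : Tᵀ * K = K * T)
    (E : Matrix κ κ ℂ) : trace (T * s0p K E)
      = trace (T * E) - trace E / Fintype.card κ * trace T := by
  unfold s0p
  rw [mul_sub, mul_smul_comm, mul_add, mul_smul_comm, mul_one, trace_sub, trace_smul, trace_smul,
    trace_add, trace_mul_sta hK hT, smul_eq_mul, smul_eq_mul]
  ring

/-- The symmetrized product of skew matrices is self-adjoint. -/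
theorem anti_sy {A B : Matrix κ κ ℂ} (hA : Aᵀ * K = -(K * A)) (hB : Bᵀ * K = -(K * B)) :
    (A * B + B * A)ᵀ * K = K * (A * B + B * A) := by
  have h1 : ∀ {A B : Matrix κ κ ℂ}, Aᵀ * K = -(K * A) → Bᵀ * K = -(K * B) →
      (A * B)ᵀ * K = K * (B * A) := by
    intro A B hA hB
    rw [transpose_mul, mul_assoc, hA, mul_neg, ← mul_assoc, hB, neg_mul, neg_neg, mul_assoc]
  rw [transpose_add, add_mul, h1 hA hB, h1 hB hA, mul_add, add_comm]

theorem ad_trace (X A B s : Matrix κ κ ℂ) :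
    trace ((A * B + B * A) * (X * s - s * X))
      = -trace (((X * A - A * X) * B + B * (X * A - A * X)) * s)
        - trace ((A * (X * B - B * X) + (X * B - B * X) * A) * s) := by
  have h1 : trace ((A * B + B * A) * (X * s - s * X))
      = trace (((A * B + B * A) * X - X * (A * B + B * A)) * s) := by
    rw [mul_sub, trace_sub, sub_mul, trace_sub, ← mul_assoc, ← mul_assoc _ s X,
      trace_mul_comm _ X, ← mul_assoc]
  rw [h1, ← trace_neg, ← trace_sub]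
  congr 1
  noncomm_ring

end proj

variable {ι : Type} [Fintype ι] [DecidableEq ι] {Ω : Matrix ι ι ℂ}
  {H : Submodule ℂ (Matrix ι ι ℂ)} {a : Submodule ℂ (Matrix ι ι ℂ)}
  {n : ℕ} {x x' : Fin n → Matrix ι ι ℂ}

section big

variable {κ₁ κ₂ : Type} [Fintype κ₁] [DecidableEq κ₁] [Fintype κ₂] [DecidableEq κ₂]
  {K₁ : Matrix κ₁ κ₁ ℂ} {K₂ : Matrix κ₂ κ₂ ℂ} {B₁ : Matrix ι κ₁ ℂ} {B₂ : Matrix ι κ₂ ℂ}

/-- The contraction map. -/
noncomputable def MM (A : Fin n → Matrix κ₁ κ₁ ℂ) (A' : Fin n → Matrix κ₂ κ₂ ℂ) :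
    Matrix κ₂ κ₂ ℂ →ₗ[ℂ] Matrix κ₁ κ₁ ℂ where
  toFun s := ∑ i, ∑ j, trace ((A' i * A' j + A' j * A' i) * s) • (A i * A j + A j * A i)
  map_add' s s' := by
    simp only [mul_add, trace_add, add_smul, Finset.sum_add_distrib]
  map_smul' z s := by
    simp only [mul_smul_comm, trace_smul, smul_assoc, ← Finset.smul_sum, RingHom.id_apply]

theorem MM_apply (A : Fin n → Matrix κ₁ κ₁ ℂ) (A' : Fin n → Matrix κ₂ κ₂ ℂ) (s : Matrix κ₂ κ₂ ℂ) :
    MM A A' s = ∑ i, ∑ j, trace ((A' i * A' j + A' j * A' i) * s) • (A i * A j + A j * A i) :=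
  rfl

theorem MM_ad (ha : MinId H a) (hD : Dual a x x') (h₁ : Frame Ω H K₁ B₁) (h₂ : Frame Ω H K₂ B₂)
    {X : Matrix ι ι ℂ} (hX : X ∈ H) (s : Matrix κ₂ κ₂ ℂ) :
    MM (fun i => rho Ω K₁ B₁ (x i)) (fun i => rho Ω K₂ B₂ (x' i))
      (rho Ω K₂ B₂ X * s - s * rho Ω K₂ B₂ X)
      = rho Ω K₁ B₁ X * MM (fun i => rho Ω K₁ B₁ (x i)) (fun i => rho Ω K₂ B₂ (x' i)) s
        - MM (fun i => rho Ω K₁ B₁ (x i)) (fun i => rho Ω K₂ B₂ (x' i)) s * rho Ω K₁ B₁ X := by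
  have hm : ∀ i, x i ∈ H := fun i => ha.id.le (hD.mem i)
  have hm' : ∀ i, x' i ∈ H := fun i => ha.id.le (hD.mem' i)
  let F : Fin n → Matrix ι ι ℂ →ₗ[ℂ] Matrix ι ι ℂ →ₗ[ℂ] Matrix κ₁ κ₁ ℂ := fun j =>
    LinearMap.mk₂ ℂ (fun U V => trace ((rho Ω K₂ B₂ V * rho Ω K₂ B₂ (x' j)
        + rho Ω K₂ B₂ (x' j) * rho Ω K₂ B₂ V) * s) •
        (rho Ω K₁ B₁ U * rho Ω K₁ B₁ (x j) + rho Ω K₁ B₁ (x j) * rho Ω K₁ B₁ U))
      (fun U U' V => by
        simp only [map_add, add_mul, mul_add, smul_add]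
        abel)
      (fun z U V => by
        simp only [map_smul, smul_mul_assoc, mul_smul_comm, ← smul_add]
        rw [smul_comm])
      (fun U V V' => by
        simp only [map_add, add_mul, mul_add, trace_add, add_smul]
        abel)
      (fun z U V => by
        simp only [map_smul, smul_mul_assoc, mul_smul_comm, ← smul_add, trace_smul, smul_assoc])
  have hF : ∀ j U V, F j U V = trace ((rho Ω K₂ B₂ V * rho Ω K₂ B₂ (x' j)
        + rho Ω K₂ B₂ (x' j) * rho Ω K₂ B₂ V) * s) •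
        (rho Ω K₁ B₁ U * rho Ω K₁ B₁ (x j) + rho Ω K₁ B₁ (x j) * rho Ω K₁ B₁ U) :=
    fun j U V => rfl
  have h1 : ∀ j, ∑ i, F j (X * x i - x i * X) (x' i) + ∑ i, F j (x i) (X * x' i - x' i * X) = 0 :=
    fun j => hD.inv ha.id hX (F j)
  have h2 : ∑ j, ∑ i, (F j (X * x i - x i * X) (x' i) + F j (x i) (X * x' i - x' i * X)) = 0 := by
    refine Finset.sum_eq_zero fun j _ => ?_
    rw [Finset.sum_add_distrib]
    exact h1 j
  have h3 : ∑ j, ∑ i, (F i (X * x j - x j * X) (x' j) + F i (x j) (X * x' j - x' j * X)) = 0 := by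
    rw [Finset.sum_comm]
    exact h2
  have h4 : ∑ j, ∑ i, (F j (X * x i - x i * X) (x' i) + F j (x i) (X * x' i - x' i * X))
      + ∑ j, ∑ i, (F i (X * x j - x j * X) (x' j) + F i (x j) (X * x' j - x' j * X)) = 0 := by
    rw [h2, h3, add_zero]
  rw [← sub_eq_zero, ← neg_eq_zero]
  refine Eq.trans ?_ h4
  rw [MM_apply, MM_apply]
  simp only [Finset.mul_sum, Finset.sum_mul]
  rw [← Finset.sum_sub_distrib, ← Finset.sum_sub_distrib, ← Finset.sum_neg_distrib,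
    ← Finset.sum_add_distrib]
  refine Finset.sum_congr rfl fun j _ => ?_
  rw [← Finset.sum_sub_distrib, ← Finset.sum_sub_distrib, ← Finset.sum_neg_distrib,
    ← Finset.sum_add_distrib]
  refine Finset.sum_congr rfl fun i _ => ?_
  rw [hF, hF, hF, hF, h₁.rho_bracket hX (hm i), h₁.rho_bracket hX (hm j),
    h₂.rho_bracket hX (hm' i), h₂.rho_bracket hX (hm' j), ad_trace]
  set T₁ := trace ((rho Ω K₂ B₂ (x' j) * rho Ω K₂ B₂ (x' i)
    + rho Ω K₂ B₂ (x' i) * rho Ω K₂ B₂ (x' j)) * s) with hT₁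
  have e1 : trace ((rho Ω K₂ B₂ (x' i) * rho Ω K₂ B₂ (x' j)
    + rho Ω K₂ B₂ (x' j) * rho Ω K₂ B₂ (x' i)) * s) = T₁ := by rw [hT₁, add_comm]
  rw [e1]
  set T₂ := trace (((rho Ω K₂ B₂ X * rho Ω K₂ B₂ (x' j) - rho Ω K₂ B₂ (x' j) * rho Ω K₂ B₂ X)
    * rho Ω K₂ B₂ (x' i) + rho Ω K₂ B₂ (x' i) * (rho Ω K₂ B₂ X * rho Ω K₂ B₂ (x' j)
      - rho Ω K₂ B₂ (x' j) * rho Ω K₂ B₂ X)) * s) with hT₂
  set T₃ := trace (((rho Ω K₂ B₂ X * rho Ω K₂ B₂ (x' i) - rho Ω K₂ B₂ (x' i) * rho Ω K₂ B₂ X)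
    * rho Ω K₂ B₂ (x' j) + rho Ω K₂ B₂ (x' j) * (rho Ω K₂ B₂ X * rho Ω K₂ B₂ (x' i)
      - rho Ω K₂ B₂ (x' i) * rho Ω K₂ B₂ X)) * s) with hT₃
  have e2 : trace ((rho Ω K₂ B₂ (x' j) * (rho Ω K₂ B₂ X * rho Ω K₂ B₂ (x' i)
      - rho Ω K₂ B₂ (x' i) * rho Ω K₂ B₂ X)
    + (rho Ω K₂ B₂ X * rho Ω K₂ B₂ (x' i) - rho Ω K₂ B₂ (x' i) * rho Ω K₂ B₂ X)
      * rho Ω K₂ B₂ (x' j)) * s) = T₃ := by rw [hT₃, add_comm]
  rw [e2]
  simp only [mul_smul_comm, smul_mul_assoc, ← smul_sub]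
  generalize rho Ω K₁ B₁ X = X₁
  generalize rho Ω K₁ B₁ (x i) = A₁
  generalize rho Ω K₁ B₁ (x j) = C₁
  have e3 : X₁ * (C₁ * A₁ + A₁ * C₁) - (C₁ * A₁ + A₁ * C₁) * X₁
      = ((X₁ * A₁ - A₁ * X₁) * C₁ + C₁ * (X₁ * A₁ - A₁ * X₁))
        + ((X₁ * C₁ - C₁ * X₁) * A₁ + A₁ * (X₁ * C₁ - C₁ * X₁)) := by noncomm_ring
  rw [e3]
  have e4 : C₁ * A₁ + A₁ * C₁ = A₁ * C₁ + C₁ * A₁ := add_comm _ _
  rw [e4]
  module

end big

end Pool.Agent.V5helper88.HR
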