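import Pool.Agent.V5helper88.HR.G14

/-!
A minimal ideal acts on at most one block of dimension four and at most one block of dimension two.
-/

set_option autoImplicit false

namespace Pool.Agent.V5helper88.HR

open Matrix Module Kronecker

variable {ι : Type} [Fintype ι] [DecidableEq ι] {Ω : Matrix ι ι ℂ}
  {H : Submodule ℂ (Matrix ι ι ℂ)} {a : Submodule ℂ (Matrix ι ι ℂ)}
  {n : ℕ} {x x' : Fin n → Matrix ι ι ℂ}

theorem MM_mem (ha : MinId H a) (hD : Dual a x x') (hS : Sys Ω H) {B₁ B₂ : Matrix ι (Fin 4) ℂ}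
    (h₁ : Frame Ω H J4 B₁) (h₂ : Frame Ω H J4 B₂) {t₁ γ₂ : ℂ}
    (ht₁ : ∀ U ∈ a, ∀ V ∈ a, trace (rho Ω J4 B₁ U * rho Ω J4 B₁ V) = t₁ * trace (U * V))
    (hγ₂ : Phi (fun i => rho Ω J4 B₂ (x i)) (fun i => rho Ω J4 B₂ (x' i)) 1
      = γ₂ • (1 : Matrix (Fin 4) (Fin 4) ℂ)) {s : Matrix (Fin 4) (Fin 4) ℂ} (hs : s ∈ S0 J4) :
    MM (fun i => rho Ω J4 B₁ (x i)) (fun i => rho Ω J4 B₂ (x' i)) s ∈ S0 J4 := by
  have hk₁ : ∀ i, (rho Ω J4 B₁ (x i))ᵀ * J4 = -(J4 * rho Ω J4 B₁ (x i)) := fun i =>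
    h₁.rho_sk hS (ha.id.le (hD.mem i))
  refine ⟨?_, ?_⟩
  · rw [MM_apply, transpose_sum, Finset.sum_mul, Finset.mul_sum]
    refine Finset.sum_congr rfl fun i _ => ?_
    rw [transpose_sum, Finset.sum_mul, Finset.mul_sum]
    refine Finset.sum_congr rfl fun j _ => ?_
    rw [transpose_smul, smul_mul_assoc, anti_sy (hk₁ i) (hk₁ j), mul_smul_comm]
  · rw [MM_apply, trace_sum]
    have h3 : ∀ i, trace (∑ j, trace ((rho Ω J4 B₂ (x' i) * rho Ω J4 B₂ (x' j)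
          + rho Ω J4 B₂ (x' j) * rho Ω J4 B₂ (x' i)) * s) •
        (rho Ω J4 B₁ (x i) * rho Ω J4 B₁ (x j) + rho Ω J4 B₁ (x j) * rho Ω J4 B₁ (x i)))
        = (2 * t₁) * trace ((rho Ω J4 B₂ (x' i) * 1 * rho Ω J4 B₂ (x i)
          + rho Ω J4 B₂ (x i) * 1 * rho Ω J4 B₂ (x' i)) * s) := by
      intro i
      rw [trace_sum]
      have h4 : ∀ j, trace (trace ((rho Ω J4 B₂ (x' i) * rho Ω J4 B₂ (x' j)
          + rho Ω J4 B₂ (x' j) * rho Ω J4 B₂ (x' i)) * s) •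
        (rho Ω J4 B₁ (x i) * rho Ω J4 B₁ (x j) + rho Ω J4 B₁ (x j) * rho Ω J4 B₁ (x i)))
        = (2 * t₁) * (trace (x j * x i) * trace ((rho Ω J4 B₂ (x' i) * rho Ω J4 B₂ (x' j)
          + rho Ω J4 B₂ (x' j) * rho Ω J4 B₂ (x' i)) * s)) := by
        intro j
        rw [trace_smul, trace_add, ht₁ _ (hD.mem i) _ (hD.mem j), ht₁ _ (hD.mem j) _ (hD.mem i),
          trace_mul_comm (x i), smul_eq_mul]
        ring
      rw [Finset.sum_congr rfl fun j _ => h4 j, ← Finset.mul_sum]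
      congr 1
      have h5 := congrArg (rho Ω J4 B₂) (hD.ex _ (hD.mem i))
      rw [map_sum] at h5
      simp only [map_smul] at h5
      rw [mul_one, mul_one, ← h5, Finset.mul_sum, Finset.sum_mul, ← Finset.sum_add_distrib,
        Finset.sum_mul, trace_sum]
      refine Finset.sum_congr rfl fun j _ => ?_
      rw [mul_smul_comm, smul_mul_assoc, ← smul_add, smul_mul_assoc, trace_smul, smul_eq_mul]
    rw [Finset.sum_congr rfl fun i _ => h3 i, ← Finset.mul_sum, ← trace_sum, ← Finset.sum_mul,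
      Finset.sum_add_distrib, phi_symm hD,
      ← Phi_apply (fun i => rho Ω J4 B₂ (x i)) (fun i => rho Ω J4 B₂ (x' i)), hγ₂, ← add_smul,
      smul_mul_assoc, one_mul, trace_smul, hs.2, smul_zero, mul_zero]

theorem GG44 (hS : Sys Ω H) (ha : MinId H a) (hD : Dual a x x') {B₁ B₂ : Matrix ι (Fin 4) ℂ}
    (h₁ : Frame Ω H J4 B₁) (h₂ : Frame Ω H J4 B₂) {Y₁ Y₂ : Submodule ℂ (ι → ℂ)}
    (hY₁ : Block H Y₁) (hY₂ : Block H Y₂) (hne : Y₁ ≠ Y₂)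
    (hr₁ : LinearMap.range B₁.mulVecLin = Y₁) (hr₂ : LinearMap.range B₂.mulVecLin = Y₂)
    {t₁ t₂ : ℂ}
    (ht₁ : ∀ U ∈ a, ∀ V ∈ a, trace (rho Ω J4 B₁ U * rho Ω J4 B₁ V) = t₁ * trace (U * V))
    (ht₂ : ∀ U ∈ a, ∀ V ∈ a, trace (rho Ω J4 B₂ U * rho Ω J4 B₂ V) = t₂ * trace (U * V))
    (hγ₁ : Phi (fun i => rho Ω J4 B₁ (x i)) (fun i => rho Ω J4 B₁ (x' i)) 1
      = (t₁ * n / 4) • (1 : Matrix (Fin 4) (Fin 4) ℂ))
    (hγ₂ : Phi (fun i => rho Ω J4 B₂ (x i)) (fun i => rho Ω J4 B₂ (x' i)) 1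
      = (t₂ * n / 4) • (1 : Matrix (Fin 4) (Fin 4) ℂ)) :
    GG (fun i => rho Ω J4 B₁ (x i)) (fun i => rho Ω J4 B₂ (x' i)) = (t₁ * t₂ * n / 4) • 1 := by
  have hN : (Fintype.card (Fin 4) : ℂ) ≠ 0 := by rw [Fintype.card_fin]; norm_num
  have hM := core44 hS h₁ h₂ hY₁ hY₂ hne hr₁ hr₂
    (MM (fun i => rho Ω J4 B₁ (x i)) (fun i => rho Ω J4 B₂ (x' i)))
    (fun s hs => MM_mem ha hD hS h₁ h₂ ht₁ hγ₂ hs) (fun X hX s _ => MM_ad ha hD h₁ h₂ hX s)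
  have hk₂ : ∀ i, (rho Ω J4 B₂ (x' i))ᵀ * J4 = -(J4 * rho Ω J4 B₂ (x' i)) := fun i =>
    h₂.rho_sk hS (ha.id.le (hD.mem' i))
  have hone := GG_one (B₂ := B₂) hD ht₂ hγ₁
  ext ⟨p, c⟩ ⟨q, d⟩
  have h3 := congrFun (congrFun (hM _ (s0p_mem J4_sq J4_tr hN (single d c 1))) p) q
  rw [MM_apply] at h3
  have h4 := congrFun (congrFun hone p) q
  have h5 : ∀ T : Matrix (Fin 4) (Fin 4) ℂ, trace (T * single d c 1) = T c d := by
    intro T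
    rw [trace_mul_single]
    simp
  have h6 : trace (single d c (1 : ℂ)) = if c = d then 1 else 0 := by
    have := h5 1
    rw [one_mul] at this
    rw [this, one_apply]
  have h7 : GG (fun i => rho Ω J4 B₁ (x i)) (fun i => rho Ω J4 B₂ (x' i)) (p, c) (q, d)
      = ∑ i, ∑ j, (rho Ω J4 B₁ (x i) * rho Ω J4 B₁ (x j)
          + rho Ω J4 B₁ (x j) * rho Ω J4 B₁ (x i)) p q
        * (rho Ω J4 B₂ (x' i) * rho Ω J4 B₂ (x' j)
          + rho Ω J4 B₂ (x' j) * rho Ω J4 B₂ (x' i)) c d := by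
    unfold GG
    simp only [Matrix.sum_apply]
    rfl
  simp only [Matrix.sum_apply, Matrix.smul_apply, smul_eq_mul, Matrix.zero_apply] at h3 h4
  rw [h7, Matrix.smul_apply, smul_eq_mul]
  have h8 : ∀ i j, (rho Ω J4 B₁ (x i) * rho Ω J4 B₁ (x j)
          + rho Ω J4 B₁ (x j) * rho Ω J4 B₁ (x i)) p q
        * (rho Ω J4 B₂ (x' i) * rho Ω J4 B₂ (x' j)
          + rho Ω J4 B₂ (x' j) * rho Ω J4 B₂ (x' i)) c d
      = trace ((rho Ω J4 B₂ (x' i) * rho Ω J4 B₂ (x' j)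
          + rho Ω J4 B₂ (x' j) * rho Ω J4 B₂ (x' i)) * s0p J4 (single d c 1))
        * (rho Ω J4 B₁ (x i) * rho Ω J4 B₁ (x j)
          + rho Ω J4 B₁ (x j) * rho Ω J4 B₁ (x i)) p q
        + (if c = d then 1 else 0) / 4 * (trace (rho Ω J4 B₂ (x' i) * rho Ω J4 B₂ (x' j)
          + rho Ω J4 B₂ (x' j) * rho Ω J4 B₂ (x' i))
        * (rho Ω J4 B₁ (x i) * rho Ω J4 B₁ (x j)
          + rho Ω J4 B₁ (x j) * rho Ω J4 B₁ (x i)) p q) := by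
    intro i j
    rw [trace_mul_s0p J4_sq (anti_sy (hk₂ i) (hk₂ j)), h5, h6, Fintype.card_fin]
    push_cast
    ring
  simp only [h8, Finset.sum_add_distrib, ← Finset.mul_sum]
  rw [h3, h4, one_apply, one_apply]
  by_cases hcd : c = d
  · subst hcd
    by_cases hpq : p = q
    · subst hpq
      simp only [if_true]
      ring
    · have : ¬ ((p, c) = (q, c)) := fun h => hpq (Prod.mk.inj h).1
      rw [if_neg hpq, if_neg this]
      ring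
  · have : ¬ ((p, c) = (q, d)) := fun h => hcd (Prod.mk.inj h).2
    rw [if_neg hcd, if_neg this]
    ring

/-- A minimal ideal acts on at most one block of dimension four. -/
theorem pair44 (hS : Sys Ω H) (ha : MinId H a) (hD : Dual a x x') (hn : 2 ≤ n) {k : ℂ}
    (hk : ∀ Y ∈ a, ∑ i, (x i * (x' i * Y - Y * x' i) - (x' i * Y - Y * x' i) * x i) = k • Y)
    (hk0 : k ≠ 0) {B₁ B₂ : Matrix ι (Fin 4) ℂ}
    (h₁ : Frame Ω H J4 B₁) (h₂ : Frame Ω H J4 B₂) {Y₁ Y₂ : Submodule ℂ (ι → ℂ)}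
    (hY₁ : Block H Y₁) (hY₂ : Block H Y₂) (hne : Y₁ ≠ Y₂)
    (hr₁ : LinearMap.range B₁.mulVecLin = Y₁) (hr₂ : LinearMap.range B₂.mulVecLin = Y₂)
    {U V : Matrix ι ι ℂ} (hU : U ∈ a) (hV : V ∈ a) (hU0 : rho Ω J4 B₁ U ≠ 0)
    (hV0 : rho Ω J4 B₂ V ≠ 0) : False := by
  obtain ⟨t₁, ht₁, hγ₁, -, hk₁⟩ := blk4 hS ha hD hk h₁ hY₁ hr₁
  obtain ⟨t₂, ht₂, hγ₂, -, hk₂⟩ := blk4 hS ha hD hk h₂ hY₂ hr₂
  have e₁ := hk₁ U hU hU0
  have e₂ := hk₂ V hV hV0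
  have hc0 : (4 * (n : ℂ) / 5 - 2) ≠ 0 := by
    intro h0
    rw [h0, mul_zero] at e₁
    exact hk0 e₁
  have htt : t₁ = t₂ := mul_right_cancel₀ hc0 (e₁.symm.trans e₂)
  subst htt
  have ht0 : t₁ ≠ 0 := by
    intro h0
    rw [h0, zero_mul] at e₁
    exact hk0 e₁
  have hG := GG44 hS ha hD h₁ h₂ hY₁ hY₂ hne hr₁ hr₂ ht₁ ht₂ hγ₁ hγ₂
  have h3 := PP_sq' ha hD hk h₁ h₂ hG
  refine count44 (PP := PP (fun i => rho Ω J4 B₁ (x i)) (fun i => rho Ω J4 B₂ (x' i)))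
    (n := n) (by omega) ht0 (PP_trace ha hD hS h₁) ?_
  rw [h3, e₁]
  congr 2
  · ring
  · ring

theorem two_scalar {T : Matrix (Fin 2) (Fin 2) ℂ} (hT : Tᵀ * J2 = J2 * T) :
    T = (trace T / 2) • 1 := by
  have h1 : T - (trace T / 2) • 1 ∈ S0 J2 := by
    refine ⟨?_, ?_⟩
    · rw [transpose_sub, transpose_smul, transpose_one, sub_mul, mul_sub, hT, smul_mul_assoc,
        one_mul, mul_smul_comm, mul_one]
    · rw [trace_sub, trace_smul, trace_one, Fintype.card_fin, smul_eq_mul]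
      push_cast
      ring
  exact sub_eq_zero.mp (S0_two h1)

theorem GG22 (hS : Sys Ω H) (ha : MinId H a) (hD : Dual a x x') {B₁ B₂ : Matrix ι (Fin 2) ℂ}
    (h₂ : Frame Ω H J2 B₂) {t₁ t₂ : ℂ}
    (ht₂ : ∀ U ∈ a, ∀ V ∈ a, trace (rho Ω J2 B₂ U * rho Ω J2 B₂ V) = t₂ * trace (U * V))
    (hγ₁ : Phi (fun i => rho Ω J2 B₁ (x i)) (fun i => rho Ω J2 B₁ (x' i)) 1
      = (t₁ * n / 2) • (1 : Matrix (Fin 2) (Fin 2) ℂ)) :
    GG (fun i => rho Ω J2 B₁ (x i)) (fun i => rho Ω J2 B₂ (x' i)) = (t₁ * t₂ * n) • 1 := by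
  have hk₂ : ∀ i, (rho Ω J2 B₂ (x' i))ᵀ * J2 = -(J2 * rho Ω J2 B₂ (x' i)) := fun i =>
    h₂.rho_sk hS (ha.id.le (hD.mem' i))
  have hone := GG_one (B₂ := B₂) hD ht₂ hγ₁
  ext ⟨p, c⟩ ⟨q, d⟩
  have h4 := congrFun (congrFun hone p) q
  have h7 : GG (fun i => rho Ω J2 B₁ (x i)) (fun i => rho Ω J2 B₂ (x' i)) (p, c) (q, d)
      = ∑ i, ∑ j, (rho Ω J2 B₁ (x i) * rho Ω J2 B₁ (x j)
          + rho Ω J2 B₁ (x j) * rho Ω J2 B₁ (x i)) p q
        * (rho Ω J2 B₂ (x' i) * rho Ω J2 B₂ (x' j)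
          + rho Ω J2 B₂ (x' j) * rho Ω J2 B₂ (x' i)) c d := by
    unfold GG
    simp only [Matrix.sum_apply]
    rfl
  simp only [Matrix.sum_apply, Matrix.smul_apply, smul_eq_mul] at h4
  rw [h7, Matrix.smul_apply, smul_eq_mul]
  have h8 : ∀ i j, (rho Ω J2 B₁ (x i) * rho Ω J2 B₁ (x j)
          + rho Ω J2 B₁ (x j) * rho Ω J2 B₁ (x i)) p q
        * (rho Ω J2 B₂ (x' i) * rho Ω J2 B₂ (x' j)
          + rho Ω J2 B₂ (x' j) * rho Ω J2 B₂ (x' i)) c d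
      = (1 : Matrix (Fin 2) (Fin 2) ℂ) c d / 2 * (trace (rho Ω J2 B₂ (x' i) * rho Ω J2 B₂ (x' j)
          + rho Ω J2 B₂ (x' j) * rho Ω J2 B₂ (x' i))
        * (rho Ω J2 B₁ (x i) * rho Ω J2 B₁ (x j)
          + rho Ω J2 B₁ (x j) * rho Ω J2 B₁ (x i)) p q) := by
    intro i j
    conv_lhs => rw [two_scalar (anti_sy (hk₂ i) (hk₂ j))]
    rw [Matrix.smul_apply, smul_eq_mul]
    ring
  simp only [h8, ← Finset.mul_sum]
  rw [h4, one_apply, one_apply, one_apply]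
  by_cases hcd : c = d
  · subst hcd
    by_cases hpq : p = q
    · subst hpq
      simp only [if_true]
      ring
    · have : ¬ ((p, c) = (q, c)) := fun h => hpq (Prod.mk.inj h).1
      rw [if_neg hpq, if_neg this]
      ring
  · have : ¬ ((p, c) = (q, d)) := fun h => hcd (Prod.mk.inj h).2
    rw [if_neg hcd, if_neg this]
    ring

/-- The action on the tensor product of two blocks. -/
noncomputable def hat {κ₁ κ₂ : Type} [DecidableEq κ₁] [DecidableEq κ₂]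
    (X₁ : Matrix κ₁ κ₁ ℂ) (X₂ : Matrix κ₂ κ₂ ℂ) : Matrix (κ₁ × κ₂) (κ₁ × κ₂) ℂ :=
  X₁ ⊗ₖ (1 : Matrix κ₂ κ₂ ℂ) + (1 : Matrix κ₁ κ₁ ℂ) ⊗ₖ X₂

section hat

variable {κ₁ κ₂ : Type} [Fintype κ₁] [DecidableEq κ₁] [Fintype κ₂] [DecidableEq κ₂]
  {K₁ : Matrix κ₁ κ₁ ℂ} {K₂ : Matrix κ₂ κ₂ ℂ} {B₁ : Matrix ι κ₁ ℂ} {B₂ : Matrix ι κ₂ ℂ}

theorem hat_comm (ha : MinId H a) (hD : Dual a x x') (h₁ : Frame Ω H K₁ B₁)
    (h₂ : Frame Ω H K₂ B₂) {X : Matrix ι ι ℂ} (hX : X ∈ H) :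
    hat (rho Ω K₁ B₁ X) (rho Ω K₂ B₂ X)
        * PP (fun i => rho Ω K₁ B₁ (x i)) (fun i => rho Ω K₂ B₂ (x' i))
      = PP (fun i => rho Ω K₁ B₁ (x i)) (fun i => rho Ω K₂ B₂ (x' i))
        * hat (rho Ω K₁ B₁ X) (rho Ω K₂ B₂ X) := by
  have hm : ∀ i, x i ∈ H := fun i => ha.id.le (hD.mem i)
  have hm' : ∀ i, x' i ∈ H := fun i => ha.id.le (hD.mem' i)
  let F : Matrix ι ι ℂ →ₗ[ℂ] Matrix ι ι ℂ →ₗ[ℂ] Matrix (κ₁ × κ₂) (κ₁ × κ₂) ℂ :=
    LinearMap.mk₂ ℂ (fun U V => rho Ω K₁ B₁ U ⊗ₖ rho Ω K₂ B₂ V)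
      (fun U U' V => by rw [map_add, add_kronecker])
      (fun z U V => by rw [map_smul, smul_kronecker])
      (fun U V V' => by rw [map_add, kronecker_add])
      (fun z U V => by rw [map_smul, kronecker_smul])
  have h1 := hD.inv ha.id hX F
  have h2 : ∀ U V, F U V = rho Ω K₁ B₁ U ⊗ₖ rho Ω K₂ B₂ V := fun U V => rfl
  simp only [h2] at h1
  have sl : ∀ (X X' : Matrix κ₁ κ₁ ℂ) (Y : Matrix κ₂ κ₂ ℂ),
      (X - X') ⊗ₖ Y = X ⊗ₖ Y - X' ⊗ₖ Y := fun X X' Y => by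
    rw [eq_sub_iff_add_eq, ← add_kronecker, sub_add_cancel]
  have sr : ∀ (X : Matrix κ₁ κ₁ ℂ) (Y Y' : Matrix κ₂ κ₂ ℂ),
      X ⊗ₖ (Y - Y') = X ⊗ₖ Y - X ⊗ₖ Y' := fun X Y Y' => by
    rw [eq_sub_iff_add_eq, ← kronecker_add, sub_add_cancel]
  rw [← sub_eq_zero, ← h1, ← Finset.sum_add_distrib]
  unfold hat PP
  rw [Finset.mul_sum, Finset.sum_mul, ← Finset.sum_sub_distrib]
  refine Finset.sum_congr rfl fun i _ => ?_
  rw [h₁.rho_bracket hX (hm i), h₂.rho_bracket hX (hm' i), sl, sr, add_mul, mul_add,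
    ← mul_kronecker_mul, ← mul_kronecker_mul, ← mul_kronecker_mul, ← mul_kronecker_mul,
    one_mul, one_mul, mul_one, mul_one]
  abel

theorem hat_trace (ha : MinId H a) (hD : Dual a x x') (hS : Sys Ω H) (h₁ : Frame Ω H K₁ B₁)
    (h₂ : Frame Ω H K₂ B₂) {X : Matrix ι ι ℂ} (hX : X ∈ H) :
    trace (hat (rho Ω K₁ B₁ X) (rho Ω K₂ B₂ X)) = 0 ∧
    trace (hat (rho Ω K₁ B₁ X) (rho Ω K₂ B₂ X)
        * PP (fun i => rho Ω K₁ B₁ (x i)) (fun i => rho Ω K₂ B₂ (x' i))) = 0 := by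
  have z₁ : trace (rho Ω K₁ B₁ X) = 0 := trace_sk_zero h₁.ksq h₁.ktr (h₁.rho_sk hS hX)
  have z₂ : trace (rho Ω K₂ B₂ X) = 0 := trace_sk_zero h₂.ksq h₂.ktr (h₂.rho_sk hS hX)
  refine ⟨?_, ?_⟩
  · unfold hat
    rw [trace_add, trace_kronecker, trace_kronecker, z₁, z₂, zero_mul, mul_zero, add_zero]
  · unfold hat PP
    rw [Finset.mul_sum, trace_sum]
    refine Finset.sum_eq_zero fun i _ => ?_
    have y₁ : trace (rho Ω K₁ B₁ (x i)) = 0 :=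
      trace_sk_zero h₁.ksq h₁.ktr (h₁.rho_sk hS (ha.id.le (hD.mem i)))
    have y₂ : trace (rho Ω K₂ B₂ (x' i)) = 0 :=
      trace_sk_zero h₂.ksq h₂.ktr (h₂.rho_sk hS (ha.id.le (hD.mem' i)))
    rw [add_mul, ← mul_kronecker_mul, ← mul_kronecker_mul, one_mul, one_mul, trace_add,
      trace_kronecker, trace_kronecker, y₁, y₂, mul_zero, zero_mul, add_zero]

end hat

/-- A minimal ideal acts on at most one block of dimension two. -/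
theorem pair22 (hS : Sys Ω H) (ha : MinId H a) (hD : Dual a x x') (hn : 2 ≤ n) {k : ℂ}
    (hk : ∀ Y ∈ a, ∑ i, (x i * (x' i * Y - Y * x' i) - (x' i * Y - Y * x' i) * x i) = k • Y)
    (hk0 : k ≠ 0) {B₁ B₂ : Matrix ι (Fin 2) ℂ}
    (h₁ : Frame Ω H J2 B₁) (h₂ : Frame Ω H J2 B₂) {Y₁ Y₂ : Submodule ℂ (ι → ℂ)}
    (hY₁ : Block H Y₁) (hY₂ : Block H Y₂) (hne : Y₁ ≠ Y₂)
    (hr₁ : LinearMap.range B₁.mulVecLin = Y₁) (hr₂ : LinearMap.range B₂.mulVecLin = Y₂)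
    {U V : Matrix ι ι ℂ} (hU : U ∈ a) (hV : V ∈ a) (hU0 : rho Ω J2 B₁ U ≠ 0)
    (hV0 : rho Ω J2 B₂ V ≠ 0) : False := by
  obtain ⟨t₁, ht₁, hγ₁, hk₁⟩ := blk2 hS ha hD hk h₁ hY₁ hr₁
  obtain ⟨t₂, ht₂, hγ₂, hk₂⟩ := blk2 hS ha hD hk h₂ hY₂ hr₂
  have e₁ := hk₁ U hU hU0
  have e₂ := hk₂ V hV hV0
  have hc0 : (2 * (n : ℂ) - 2) ≠ 0 := by
    intro h0
    rw [h0, mul_zero] at e₁
    exact hk0 e₁
  have htt : t₁ = t₂ := mul_right_cancel₀ hc0 (e₁.symm.trans e₂)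
  subst htt
  have ht0 : t₁ ≠ 0 := by
    intro h0
    rw [h0, zero_mul] at e₁
    exact hk0 e₁
  have hn1 : (n : ℂ) + 1 ≠ 0 := by
    have : ((n + 1 : ℕ) : ℂ) ≠ 0 := Nat.cast_ne_zero.mpr (by omega)
    exact_mod_cast this
  have hG := GG22 (B₁ := B₁) hS ha hD h₂ ht₂ hγ₁
  have h3 := PP_sq' ha hD hk h₁ h₂ hG
  set P := PP (fun i => rho Ω J2 B₁ (x i)) (fun i => rho Ω J2 B₂ (x' i)) with hP
  have hPt : trace P = 0 := PP_trace ha hD hS h₁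
  have hPP : P * P = -(t₁ * (n - 1) / 2) • P + (t₁ ^ 2 * n / 4) • 1 := by
    rw [h3, e₁]
    congr 2
    · ring
    · ring
  set E : Matrix (Fin 2 × Fin 2) (Fin 2 × Fin 2) ℂ :=
    (2 / (t₁ * (n + 1))) • ((t₁ / 2) • 1 - P) with hE
  have hEE : E * E = E := by
    rw [hE, smul_mul_smul_comm]
    have e3 : ((t₁ / 2) • 1 - P) * ((t₁ / 2) • 1 - P) = (t₁ * (n + 1) / 2) • ((t₁ / 2) • 1 - P) := by
      have : ((t₁ / 2) • 1 - P) * ((t₁ / 2) • 1 - P) = (t₁ / 2 * (t₁ / 2)) • 1 - t₁ • P + P * P := by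
        rw [sub_mul, mul_sub, mul_sub, smul_mul_smul_comm, mul_one, smul_mul_assoc, one_mul,
          mul_smul_comm, mul_one]
        module
      rw [this, hPP]
      module
    rw [e3, smul_smul]
    congr 1
    field_simp
  have htE : trace E = 4 / (n + 1) := by
    rw [hE, trace_smul, trace_sub, hPt, trace_smul, trace_one]
    simp only [Fintype.card_prod, Fintype.card_fin, smul_eq_mul]
    push_cast
    field_simp
    ring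
  obtain ⟨m, hm, hrk⟩ := idem_trace hEE
  have hm1 : m = 1 := by
    rw [htE, div_eq_iff hn1] at hm
    have h4 : (4 : ℕ) = m * (n + 1) := by exact_mod_cast hm
    have h5 : 3 * m ≤ 4 := by nlinarith
    have h6 : m ≠ 0 := by
      rintro rfl
      omega
    omega
  rw [hm1] at hrk hm
  obtain ⟨z, hz0, hz⟩ := finrank_eq_one_iff'.mp hrk
  have hz' : ∀ v, ∃ c : ℂ, E *ᵥ v = c • z.1 := by
    intro v
    obtain ⟨c, hc⟩ := hz ⟨E *ᵥ v, ⟨v, rfl⟩⟩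
    exact ⟨c, (congrArg Subtype.val hc).symm⟩
  have hEz : E *ᵥ z.1 = z.1 := by
    obtain ⟨w, hw⟩ := z.2
    rw [← hw]
    change E *ᵥ (E *ᵥ w) = E *ᵥ w
    rw [mulVec_mulVec, hEE]
  have hkill : ∀ X ∈ H, hat (rho Ω J2 B₁ X) (rho Ω J2 B₂ X) *ᵥ z.1 = 0 := by
    intro X hX
    set Xh := hat (rho Ω J2 B₁ X) (rho Ω J2 B₂ X) with hXh
    have hcm : Xh * E = E * Xh := by
      rw [hE, mul_smul_comm, mul_sub, hat_comm ha hD h₁ h₂ hX, smul_mul_assoc, sub_mul,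
        mul_smul_comm, mul_one, smul_mul_assoc, one_mul]
    obtain ⟨c, hc⟩ := hz' (Xh *ᵥ z.1)
    have h4 : Xh *ᵥ z.1 = c • z.1 := by
      rw [← hc, mulVec_mulVec, ← hcm, ← mulVec_mulVec, hEz]
    have h5 : Xh * E = c • E := by
      refine toLin'.injective (LinearMap.ext fun v => ?_)
      obtain ⟨d, hd⟩ := hz' v
      have hsm : (c • E) *ᵥ v = c • (E *ᵥ v) := smul_mulVec _ _ _
      rw [toLin'_apply, toLin'_apply, ← mulVec_mulVec, hsm, hd, mulVec_smul, h4, smul_comm]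
    obtain ⟨hx1, hx2⟩ := hat_trace ha hD hS h₁ h₂ hX
    have h6 : trace (Xh * E) = 0 := by
      rw [hE, mul_smul_comm, mul_sub, trace_smul, trace_sub, hx2, mul_smul_comm, mul_one,
        trace_smul, hx1, smul_zero, sub_zero, smul_zero]
    rw [h5, trace_smul, hm] at h6
    have h7 : c = 0 := by simpa using h6
    rw [h4, h7, zero_smul]
  set Z : Matrix (Fin 2) (Fin 2) ℂ := Matrix.of fun i j => z.1 (i, j) with hZ
  have hZe : ∀ X ∈ H, rho Ω J2 B₁ X * Z + Z * (rho Ω J2 B₂ X)ᵀ = 0 := by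
    intro X hX
    ext i j
    have h4 := congrFun (hkill X hX) (i, j)
    unfold hat at h4
    rw [add_mulVec] at h4
    simp only [Pi.add_apply, mulVec, dotProduct, kroneckerMap_apply, Fintype.sum_prod_type,
      one_apply, Pi.zero_apply, mul_ite, mul_one, mul_zero, ite_mul, zero_mul, one_mul,
      Finset.sum_ite_eq, Finset.mem_univ, if_true, Finset.sum_ite_irrel, Finset.sum_const_zero]
      at h4
    rw [Matrix.add_apply, mul_apply, mul_apply]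
    simp only [hZ, of_apply, transpose_apply]
    rw [Matrix.zero_apply, ← h4]
    congr 1
    refine Finset.sum_congr rfl fun k _ => ?_
    ring
  have hF : Z * J2 = 0 := by
    refine hom_frames hS h₁ h₂ hY₁ hY₂ (Ne.symm hne) hr₁ hr₂ fun X hX => ?_
    have h4 : rho Ω J2 B₁ X * Z = -(Z * (rho Ω J2 B₂ X)ᵀ) := eq_neg_of_add_eq_zero_left (hZe X hX)
    rw [← mul_assoc, h4, neg_mul, mul_assoc, h₂.rho_sk hS hX, mul_neg, neg_neg, mul_assoc]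
  have hZ0 : Z = 0 := by
    have h4 : Z = -(Z * J2 * J2) := by rw [mul_assoc, J2_sq]; simp
    rw [h4, hF, zero_mul, neg_zero]
  apply hz0
  refine Subtype.ext (funext fun ij => ?_)
  exact congrFun (congrFun hZ0 ij.1) ij.2

end Pool.Agent.V5helper88.HR
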