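import Pool.Agent.V5helper88.HR.G15

/-!
Primitive invariant alternating forms of positive degree vanish.
-/

set_option autoImplicit false

namespace Pool.Agent.V5helper88.HR

open Matrix Module Function

variable {ι : Type} [Fintype ι] [DecidableEq ι] {Ω : Matrix ι ι ℂ}
  {H : Submodule ℂ (Matrix ι ι ℂ)} {κ : Type} [Fintype κ] [DecidableEq κ]

/-- Alternating forms which are annihilated by `H` and by all contractions with the bivectors of
the commutant. -/
structure Prim (Ω : Matrix ι ι ℂ) (H : Submodule ℂ (Matrix ι ι ℂ))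
    (φ : (ι → ℂ) [⋀^κ]→ₗ[ℂ] ℂ) : Prop where
  inv : ∀ X ∈ H, ∀ v, ∑ s, φ (update v s (X *ᵥ v s)) = 0
  con : ∀ Q : Matrix ι ι ℂ, Cm H (Q * Ω) → ∀ s s' : κ, s ≠ s' → ∀ v,
    ∑ i, ∑ j, Q i j * φ (update (update v s (Pi.single i 1)) s' (Pi.single j 1)) = 0

/-- The form in two of the variables. -/
noncomputable def bil (φ : (ι → ℂ) [⋀^κ]→ₗ[ℂ] ℂ) (v : κ → ι → ℂ) {s s' : κ} (h : s ≠ s') :
    (ι → ℂ) →ₗ[ℂ] (ι → ℂ) →ₗ[ℂ] ℂ :=
  LinearMap.mk₂ ℂ (fun u w => φ (update (update v s u) s' w))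
    (fun u u' w => by
      simp only [update_comm h]
      rw [φ.map_update_add])
    (fun z u w => by
      simp only [update_comm h]
      rw [φ.map_update_smul])
    (fun u w w' => by rw [φ.map_update_add])
    (fun z u w => by rw [φ.map_update_smul])

theorem bil_apply (φ : (ι → ℂ) [⋀^κ]→ₗ[ℂ] ℂ) (v : κ → ι → ℂ) {s s' : κ} (h : s ≠ s')
    (u w : ι → ℂ) : bil φ v h u w = φ (update (update v s u) s' w) := rfl

theorem bil_self (φ : (ι → ℂ) [⋀^κ]→ₗ[ℂ] ℂ) (v : κ → ι → ℂ) {s s' : κ} (h : s ≠ s')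
    (u : ι → ℂ) : bil φ v h u u = 0 := by
  rw [bil_apply]
  refine φ.map_eq_zero_of_eq _ ?_ h
  rw [update_of_ne h, update_self, update_self]

theorem bil_swap (φ : (ι → ℂ) [⋀^κ]→ₗ[ℂ] ℂ) (v : κ → ι → ℂ) {s s' : κ} (h : s ≠ s')
    (u w : ι → ℂ) : bil φ v h w u = -bil φ v h u w := by
  have h1 := bil_self φ v h (u + w)
  rw [LinearMap.map_add₂, map_add, map_add, bil_self, bil_self] at h1
  linear_combination h1

theorem mulVec_basis {κ' : Type} [Fintype κ'] [DecidableEq κ'] (B : Matrix ι κ' ℂ) (p : κ') :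
    B *ᵥ Pi.single p 1 = ∑ i, B i p • (Pi.single i 1 : ι → ℂ) := by
  rw [mulVec_single_one]
  funext k
  simp [Finset.sum_apply, Pi.single_apply]

/-- The contraction over a block. -/
theorem Prim.frame {φ : (ι → ℂ) [⋀^κ]→ₗ[ℂ] ℂ} (hφ : Prim Ω H φ) (hS : Sys Ω H) {κ' : Type}
    [Fintype κ'] [DecidableEq κ'] {K : Matrix κ' κ' ℂ} {B : Matrix ι κ' ℂ} (hB : Frame Ω H K B)
    (v : κ → ι → ℂ) {s s' : κ} (h : s ≠ s') :
    ∑ p, ∑ q, K p q * bil φ v h (B *ᵥ Pi.single p 1) (B *ᵥ Pi.single q 1) = 0 := by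
  have h0 := (frame_proj hS hB rfl).1
  have h1 : Cm H ((B * K * Bᵀ) * Ω) := by
    have h2 : (B * K * Bᵀ) * Ω = (-1 : ℂ) • (B * cof Ω K B) := by
      unfold cof
      rw [Matrix.mul_neg, smul_neg, neg_smul, one_smul, neg_neg]
      simp only [Matrix.mul_assoc]
    rw [h2]
    exact h0.smul _
  have h3 := hφ.con _ h1 s s' h v
  rw [← h3]
  have h4 : ∀ p q, K p q * bil φ v h (B *ᵥ Pi.single p 1) (B *ᵥ Pi.single q 1)
      = ∑ i, ∑ j, B i p * K p q * B j q * bil φ v h (Pi.single i 1) (Pi.single j 1) := by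
    intro p q
    rw [mulVec_basis, mulVec_basis, LinearMap.map_sum₂, Finset.mul_sum]
    refine Finset.sum_congr rfl fun i _ => ?_
    rw [LinearMap.map_smul₂, map_sum, smul_eq_mul, Finset.mul_sum, Finset.mul_sum]
    refine Finset.sum_congr rfl fun j _ => ?_
    rw [map_smul, smul_eq_mul]
    ring
  have h5 : ∀ i j, (B * K * Bᵀ) i j = ∑ p, ∑ q, B i p * K p q * B j q := by
    intro i j
    rw [mul_apply, Finset.sum_comm]
    refine Finset.sum_congr rfl fun q _ => ?_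
    rw [mul_apply, Finset.sum_mul]
    rfl
  simp only [h4, h5, Finset.sum_mul]
  have c1 : ∀ (f : κ' → κ' → ι → ι → ℂ),
      ∑ p, ∑ q, ∑ i, ∑ j, f p q i j = ∑ i, ∑ j, ∑ p, ∑ q, f p q i j := by
    intro f
    calc ∑ p, ∑ q, ∑ i, ∑ j, f p q i j = ∑ p, ∑ i, ∑ q, ∑ j, f p q i j :=
          Finset.sum_congr rfl fun p _ => Finset.sum_comm
      _ = ∑ i, ∑ p, ∑ q, ∑ j, f p q i j := Finset.sum_comm
      _ = ∑ i, ∑ p, ∑ j, ∑ q, f p q i j :=
          Finset.sum_congr rfl fun i _ => Finset.sum_congr rfl fun p _ => Finset.sum_comm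
      _ = ∑ i, ∑ j, ∑ p, ∑ q, f p q i j :=
          Finset.sum_congr rfl fun i _ => Finset.sum_comm
  rw [c1]
  rfl

/-- Two variables in a block of dimension two. -/
theorem Prim.duo {φ : (ι → ℂ) [⋀^κ]→ₗ[ℂ] ℂ} (hφ : Prim Ω H φ) (hS : Sys Ω H)
    {B : Matrix ι (Fin 2) ℂ} (hB : Frame Ω H J2 B) {v : κ → ι → ℂ} {s s' : κ} (h : s ≠ s')
    (hs : v s ∈ LinearMap.range B.mulVecLin) (hs' : v s' ∈ LinearMap.range B.mulVecLin) :
    φ v = 0 := by
  have h1 := hφ.frame hS hB v h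
  set m := bil φ v h with hm
  have hsw : ∀ u w, m w u = -m u w := bil_swap φ v h
  have hself : ∀ u, m u u = 0 := bil_self φ v h
  simp only [Fin.sum_univ_two, J2] at h1
  have h2 : m (B *ᵥ Pi.single 0 1) (B *ᵥ Pi.single 1 1) = 0 := by
    have h3 := hsw (B *ᵥ Pi.single 0 1) (B *ᵥ Pi.single 1 1)
    simp at h1
    rw [mulVec_single_one, mulVec_single_one] at h3 ⊢
    rw [h3] at h1
    linear_combination (1 / 2 : ℂ) * h1
  obtain ⟨u, hu⟩ := hs
  obtain ⟨w, hw⟩ := hs'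
  have h4 : (m.compl₁₂ B.mulVecLin B.mulVecLin) = 0 := by
    refine LinearMap.pi_ext' fun c => LinearMap.ext_ring ?_
    refine LinearMap.pi_ext' fun d => LinearMap.ext_ring ?_
    change m (B *ᵥ Pi.single c 1) (B *ᵥ Pi.single d 1) = 0
    fin_cases c <;> fin_cases d
    · exact hself _
    · exact h2
    · have h6 := hsw (B *ᵥ Pi.single 0 1) (B *ᵥ Pi.single 1 1)
      rw [h2, neg_zero] at h6
      exact h6
    · exact hself _
  have h5 : m (v s) (v s') = 0 := by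
    rw [← hu, ← hw]
    exact congrArg (fun G : (Fin 2 → ℂ) →ₗ[ℂ] (Fin 2 → ℂ) →ₗ[ℂ] ℂ => G u w) h4
  rw [hm, bil_apply, update_eq_self, update_eq_self] at h5
  exact h5

theorem tri_aux (g : Fin 4 → Fin 4 → Fin 4 → ℂ) (h1 : ∀ a b c, g b a c = -g a b c)
    (h2 : ∀ a b c, g a c b = -g a b c) (h3 : ∀ c, ∑ a, ∑ b, J4 a b * g a b c = 0) (a b c : Fin 4) :
    g a b c = 0 := by
  have e1 : ∀ a c, g a a c = 0 := fun a c => by
    have := h1 a a c; linear_combination (1 / 2 : ℂ) * this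
  have e2 : ∀ a c, g a c c = 0 := fun a c => by
    have := h2 a c c; linear_combination (1 / 2 : ℂ) * this
  have e3 : ∀ a c, g a c a = 0 := fun a c => by
    rw [h2 a a c, e1, neg_zero]
  have h4 : ∀ c, g 0 1 c + g 2 3 c = 0 := by
    intro c
    have h5 := h3 c
    simp [J4, Fin.sum_univ_four] at h5
    have h6 := h1 0 1 c
    have h7 := h1 2 3 c
    linear_combination (1 / 2 : ℂ) * h5 + (1 / 2 : ℂ) * h6 + (1 / 2 : ℂ) * h7
  have h01 : ∀ c, g 0 1 c = 0 := by
    intro c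
    have h5 := h4 c
    fin_cases c
    · exact e3 0 1
    · exact e2 0 1
    · have h6 : g 2 3 2 = 0 := e3 2 3
      change g 0 1 2 + g 2 3 2 = 0 at h5
      change g 0 1 2 = 0
      rw [h6, add_zero] at h5
      exact h5
    · have h6 : g 2 3 3 = 0 := e2 2 3
      change g 0 1 3 + g 2 3 3 = 0 at h5
      change g 0 1 3 = 0
      rw [h6, add_zero] at h5
      exact h5
  have h23 : ∀ c, g 2 3 c = 0 := fun c => by
    have h5 := h4 c
    rwa [h01, zero_add] at h5
  have h5 : ∀ a b : Fin 4, a.val / 2 = b.val / 2 → ∀ c, g a b c = 0 := by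
    intro a b hab c
    fin_cases a <;> fin_cases b <;> first | exact e1 _ _ | exact h01 _ | exact h23 _ |
      exact (h1 0 1 c).trans (by rw [h01, neg_zero]) |
      exact (h1 2 3 c).trans (by rw [h23, neg_zero]) | (exfalso; revert hab; decide)
  have h6 : a.val / 2 = b.val / 2 ∨ b.val / 2 = c.val / 2 ∨ a.val / 2 = c.val / 2 := by omega
  rcases h6 with h6 | h6 | h6
  · exact h5 a b h6 c
  · have e5 : g a b c = g b c a := by rw [h1 b a c, h2 b c a, neg_neg]
    rw [e5]; exact h5 b c h6 a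
  · rw [h2 a c b, h5 a c h6, neg_zero]

/-- Three variables in a block of dimension four. -/
theorem Prim.tri {φ : (ι → ℂ) [⋀^κ]→ₗ[ℂ] ℂ} (hφ : Prim Ω H φ) (hS : Sys Ω H)
    {B : Matrix ι (Fin 4) ℂ} (hB : Frame Ω H J4 B) {v : κ → ι → ℂ} {s s' s'' : κ} (h : s ≠ s')
    (h' : s ≠ s'') (h'' : s' ≠ s'')
    (hs : v s ∈ LinearMap.range B.mulVecLin) (hs' : v s' ∈ LinearMap.range B.mulVecLin)
    (hs'' : v s'' ∈ LinearMap.range B.mulVecLin) : φ v = 0 := by
  let g : Fin 4 → Fin 4 → Fin 4 → ℂ := fun a b c =>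
    bil φ (update v s'' (B *ᵥ Pi.single c 1)) h (B *ᵥ Pi.single a 1) (B *ᵥ Pi.single b 1)
  have hg : ∀ a b c, g a b c = 0 := by
    refine tri_aux g (fun a b c => bil_swap _ _ _ _ _) ?_ ?_
    · intro a b c
      change bil φ (update v s'' (B *ᵥ Pi.single b 1)) h (B *ᵥ Pi.single a 1) (B *ᵥ Pi.single c 1)
        = -bil φ (update v s'' (B *ᵥ Pi.single c 1)) h (B *ᵥ Pi.single a 1) (B *ᵥ Pi.single b 1)
      rw [bil_apply, bil_apply]
      have e1 : ∀ y z w : ι → ℂ, update (update (update v s'' y) s z) s' w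
          = update (update (update v s z) s' w) s'' y := by
        intro y z w
        rw [update_comm h'.symm, update_comm h''.symm]
      rw [e1, e1]
      have e2 := bil_swap φ (update v s (B *ᵥ Pi.single a 1)) h''
        (B *ᵥ Pi.single b 1) (B *ᵥ Pi.single c 1)
      rw [bil_apply, bil_apply] at e2
      exact e2
    · intro c
      exact hφ.frame hS hB _ h
  obtain ⟨u, hu⟩ := hs
  obtain ⟨u', hu'⟩ := hs'
  obtain ⟨u'', hu''⟩ := hs''
  have h4 : ∀ c, ((bil φ (update v s'' (B *ᵥ Pi.single c 1)) h).compl₁₂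
      B.mulVecLin B.mulVecLin) = 0 := by
    intro c
    refine LinearMap.pi_ext' fun a => LinearMap.ext_ring ?_
    refine LinearMap.pi_ext' fun b => LinearMap.ext_ring ?_
    exact hg a b c
  have h5 : ∀ c, φ (update v s'' (B *ᵥ Pi.single c 1)) = 0 := by
    intro c
    have h6 := congrArg (fun G : (Fin 4 → ℂ) →ₗ[ℂ] (Fin 4 → ℂ) →ₗ[ℂ] ℂ => G u u') (h4 c)
    change bil φ (update v s'' (B *ᵥ Pi.single c 1)) h (B.mulVecLin u) (B.mulVecLin u') = 0 at h6
    rw [hu, hu', bil_apply] at h6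
    have e1 : update (update (update v s'' (B *ᵥ Pi.single c 1)) s (v s)) s' (v s')
        = update v s'' (B *ᵥ Pi.single c 1) := by
      rw [update_comm h'.symm, update_comm h''.symm, update_eq_self, update_eq_self]
    rwa [e1] at h6
  have h6 : φ (update v s'' (B.mulVecLin u'')) = 0 := by
    have h7 : u'' = ∑ c, u'' c • (Pi.single c 1 : Fin 4 → ℂ) := by
      funext k
      simp [Finset.sum_apply, Pi.single_apply]
    rw [h7, map_sum]
    have h8 := map_sum (φ.toMultilinearMap.toLinearMap v s'')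
      (fun c => B.mulVecLin (u'' c • (Pi.single c 1 : Fin 4 → ℂ))) Finset.univ
    change φ (update v s'' _) = _ at h8
    rw [h8]
    refine Finset.sum_eq_zero fun c _ => ?_
    change φ (update v s'' (B.mulVecLin _)) = 0
    rw [map_smul, φ.map_update_smul, mulVecLin_apply, h5, smul_zero]
  rw [hu'', update_eq_self] at h6
  exact h6

end Pool.Agent.V5helper88.HR
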