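import Pool.Agent.V5helper88.HR.G16

/-!
The Casimir operator of a minimal ideal on the variables in its blocks, and the vanishing theorem.
-/

set_option autoImplicit false

namespace Pool.Agent.V5helper88.HR

open Matrix Module Function

variable {ι : Type} [Fintype ι] [DecidableEq ι] {Ω : Matrix ι ι ℂ}
  {H : Submodule ℂ (Matrix ι ι ℂ)} {κ : Type} [Fintype κ] [DecidableEq κ]
  {a : Submodule ℂ (Matrix ι ι ℂ)} {n : ℕ} {x x' : Fin n → Matrix ι ι ℂ}

/-- The action on some of the variables. -/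
def DS (S : Finset κ) (X : Matrix ι ι ℂ) (f : (κ → ι → ℂ) → ℂ) (v : κ → ι → ℂ) : ℂ :=
  ∑ s ∈ S, f (update v s (X *ᵥ v s))

theorem DS_comm {S T : Finset κ} (h : Disjoint S T) (X Y : Matrix ι ι ℂ)
    (f : (κ → ι → ℂ) → ℂ) (v : κ → ι → ℂ) : DS S X (DS T Y f) v = DS T Y (DS S X f) v := by
  unfold DS
  rw [Finset.sum_comm]
  refine Finset.sum_congr rfl fun t ht => Finset.sum_congr rfl fun s hs => ?_
  have hne : s ≠ t := fun h0 => Finset.disjoint_left.mp h hs (h0 ▸ ht)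
  rw [update_of_ne hne, update_of_ne hne.symm, update_comm hne]

/-- The Casimir operator on the vectors of a block. -/
theorem cas_vec (ha : MinId H a) (hD : Dual a x x') {κ' : Type} [Fintype κ'] [DecidableEq κ']
    {K : Matrix κ' κ' ℂ} {B : Matrix ι κ' ℂ} (hB : Frame Ω H K B) {γ : ℂ}
    (hγ : Phi (fun i => rho Ω K B (x i)) (fun i => rho Ω K B (x' i)) 1
      = γ • (1 : Matrix κ' κ' ℂ)) {v : ι → ℂ} (hv : v ∈ LinearMap.range B.mulVecLin) :
    ∑ i, x i *ᵥ (x' i *ᵥ v) = γ • v ∧ ∑ i, x' i *ᵥ (x i *ᵥ v) = γ • v := by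
  obtain ⟨u, rfl⟩ := hv
  have hm : ∀ i, x i * B = B * rho Ω K B (x i) := fun i => hB.mul_B (ha.id.le (hD.mem i))
  have hm' : ∀ i, x' i * B = B * rho Ω K B (x' i) := fun i => hB.mul_B (ha.id.le (hD.mem' i))
  have key : ∀ (y y' : Matrix ι ι ℂ), y * B = B * rho Ω K B y → y' * B = B * rho Ω K B y' →
      y *ᵥ (y' *ᵥ (B *ᵥ u)) = B *ᵥ ((rho Ω K B y * 1 * rho Ω K B y') *ᵥ u) := by
    intro y y' hy hy'
    rw [mulVec_mulVec, mulVec_mulVec, Matrix.mul_assoc, hy', ← Matrix.mul_assoc, hy,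
      mulVec_mulVec, Matrix.mul_one, Matrix.mul_assoc]
  refine ⟨?_, ?_⟩
  · simp only [mulVecLin_apply]
    rw [Finset.sum_congr rfl fun i _ => key _ _ (hm i) (hm' i), ← mulVec_sum, ← sum_mulVec,
      ← Phi_apply (fun i => rho Ω K B (x i)) (fun i => rho Ω K B (x' i)), hγ, smul_mulVec,
      one_mulVec, mulVec_smul]
  · simp only [mulVecLin_apply]
    rw [Finset.sum_congr rfl fun i _ => key _ _ (hm' i) (hm i), ← mulVec_sum, ← sum_mulVec,
      phi_symm hD, hγ, smul_mulVec, one_mulVec, mulVec_smul]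

theorem map_update_sum' (φ : (ι → ℂ) [⋀^κ]→ₗ[ℂ] ℂ) (v : κ → ι → ℂ) (s : κ)
    (w : Fin n → ι → ℂ) : φ (update v s (∑ i, w i)) = ∑ i, φ (update v s (w i)) :=
  map_sum (φ.toMultilinearMap.toLinearMap v s) w Finset.univ

theorem cas_one (φ : (ι → ℂ) [⋀^κ]→ₗ[ℂ] ℂ) {γ : ℂ} {v : κ → ι → ℂ} {s : κ}
    (h : ∑ i, x' i *ᵥ (x i *ᵥ v s) = γ • v s) :
    ∑ i, DS {s} (x i) (DS {s} (x' i) φ) v = γ * φ v := by
  unfold DS
  simp only [Finset.sum_singleton, update_self, update_idem]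
  rw [← map_update_sum', h, φ.map_update_smul, update_eq_self, smul_eq_mul]

theorem cas_empty (φ : (ι → ℂ) [⋀^κ]→ₗ[ℂ] ℂ) (v : κ → ι → ℂ) :
    ∑ i, DS (∅ : Finset κ) (x i) (DS ∅ (x' i) φ) v = 0 := by
  unfold DS
  simp

/-- The mixed part of the Casimir operator for two variables in a block of dimension four. -/
theorem cas_mix (hS : Sys Ω H) (ha : MinId H a) (hD : Dual a x x') {φ : (ι → ℂ) [⋀^κ]→ₗ[ℂ] ℂ}
    (hφ : Prim Ω H φ) {B : Matrix ι (Fin 4) ℂ} (hB : Frame Ω H J4 B) {φ0 : ℂ}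
    (h0 : ∀ s ∈ S0 J4, Phi (fun i => rho Ω J4 B (x i)) (fun i => rho Ω J4 B (x' i)) s = φ0 • s)
    {v : κ → ι → ℂ} {s s' : κ} (h : s ≠ s') (hs : v s ∈ LinearMap.range B.mulVecLin)
    (hs' : v s' ∈ LinearMap.range B.mulVecLin) :
    ∑ i, φ (update (update v s (x i *ᵥ v s)) s' (x' i *ᵥ v s')) = -(φ0 * φ v) := by
  obtain ⟨u, hu⟩ := hs
  obtain ⟨w, hw⟩ := hs'
  rw [mulVecLin_apply] at hu hw
  have hm : ∀ i, x i * B = B * rho Ω J4 B (x i) := fun i => hB.mul_B (ha.id.le (hD.mem i))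
  have hm' : ∀ i, x' i * B = B * rho Ω J4 B (x' i) := fun i => hB.mul_B (ha.id.le (hD.mem' i))
  let m : (Fin 4 → ℂ) →ₗ[ℂ] (Fin 4 → ℂ) →ₗ[ℂ] ℂ := (bil φ v h).compl₁₂ B.mulVecLin B.mulVecLin
  have hma : ∀ p q, m p q = φ (update (update v s (B *ᵥ p)) s' (B *ᵥ q)) := fun p q => rfl
  let M : Matrix (Fin 4) (Fin 4) ℂ := Matrix.of fun i j => m (Pi.single i 1) (Pi.single j 1)
  have hMt : Mᵀ = -M := by
    ext i j
    exact bil_swap φ v h _ _
  have hmM : ∀ p q, m p q = p ⬝ᵥ (M *ᵥ q) := by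
    have h1 : m = LinearMap.mk₂ ℂ (fun p q => p ⬝ᵥ (M *ᵥ q))
        (fun p p' q => by rw [add_dotProduct])
        (fun z p q => by rw [smul_dotProduct])
        (fun p q q' => by rw [mulVec_add, dotProduct_add])
        (fun z p q => by rw [mulVec_smul, dotProduct_smul]) := by
      refine LinearMap.pi_ext' fun a => LinearMap.ext_ring ?_
      refine LinearMap.pi_ext' fun b => LinearMap.ext_ring ?_
      change m (Pi.single a 1) (Pi.single b 1) = Pi.single a 1 ⬝ᵥ (M *ᵥ Pi.single b 1)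
      rw [single_one_dotProduct, mulVec_single_one]
      rfl
    intro p q
    exact congrArg (fun G : (Fin 4 → ℂ) →ₗ[ℂ] (Fin 4 → ℂ) →ₗ[ℂ] ℂ => G p q) h1
  have htr : trace (J4 * M) = 0 := by
    have h1 := hφ.frame hS hB v h
    have h2 : trace (J4 * M) = ∑ p, ∑ q, J4 p q * M q p := by
      rw [trace]
      simp only [Matrix.diag_apply, mul_apply]
    rw [h2, ← neg_eq_zero, ← h1, ← Finset.sum_neg_distrib]
    refine Finset.sum_congr rfl fun p _ => ?_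
    rw [← Finset.sum_neg_distrib]
    refine Finset.sum_congr rfl fun q _ => ?_
    have h3 : M q p = -M p q := congrFun (congrFun hMt p) q
    rw [h3, mul_neg, neg_neg]
    rfl
  let σ : Matrix (Fin 4) (Fin 4) ℂ := -(J4 * M)
  have hJσ : J4 * σ = M := by
    change J4 * -(J4 * M) = M
    rw [mul_neg, ← mul_assoc, J4_sq]; simp
  have hσJ : σᵀ * J4 = M := by
    change (-(J4 * M))ᵀ * J4 = M
    rw [transpose_neg, transpose_mul, hMt, J4_tr, neg_mul_neg, neg_mul, mul_assoc, J4_sq]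
    simp
  have hσ : σ ∈ S0 J4 := by
    refine ⟨by rw [hσJ, hJσ], ?_⟩
    change trace (-(J4 * M)) = 0
    rw [trace_neg, htr, neg_zero]
  have hmσ : ∀ p q, m p q = bw J4 (σ *ᵥ p) q := by
    intro p q
    rw [hmM, bw_mulVec_left, hσJ]
  have h1 : ∀ i, φ (update (update v s (x i *ᵥ v s)) s' (x' i *ᵥ v s'))
      = -bw J4 ((rho Ω J4 B (x' i) * σ * rho Ω J4 B (x i)) *ᵥ u) w := by
    intro i
    rw [← hu, ← hw, mulVec_mulVec, mulVec_mulVec, hm i, hm' i, ← mulVec_mulVec, ← mulVec_mulVec,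
      ← hma, hmσ]
    have h2 := sk_bw (hB.rho_sk hS (ha.id.le (hD.mem' i))) (σ *ᵥ (rho Ω J4 B (x i) *ᵥ u)) w
    rw [← neg_eq_iff_eq_neg.mpr h2]
    rw [mulVec_mulVec, mulVec_mulVec]
  have h2 : φ v = bw J4 (σ *ᵥ u) w := by
    rw [← hmσ, hma, hu, hw, update_eq_self, update_eq_self]
  have h3 : ∀ (Z : Fin n → Matrix (Fin 4) (Fin 4) ℂ), ∑ i, bw J4 (Z i *ᵥ u) w
      = bw J4 ((∑ i, Z i) *ᵥ u) w := by
    intro Z
    unfold bw
    rw [sum_mulVec, sum_dotProduct]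
  rw [Finset.sum_congr rfl fun i _ => h1 i, Finset.sum_neg_distrib, h3, phi_symm hD, h0 σ hσ,
    smul_mulVec, bw_smul_left, h2]

theorem cas_two (hS : Sys Ω H) (ha : MinId H a) (hD : Dual a x x') {φ : (ι → ℂ) [⋀^κ]→ₗ[ℂ] ℂ}
    (hφ : Prim Ω H φ) {B : Matrix ι (Fin 4) ℂ} (hB : Frame Ω H J4 B) {γ φ0 : ℂ}
    (hγ : Phi (fun i => rho Ω J4 B (x i)) (fun i => rho Ω J4 B (x' i)) 1
      = γ • (1 : Matrix (Fin 4) (Fin 4) ℂ))
    (h0 : ∀ s ∈ S0 J4, Phi (fun i => rho Ω J4 B (x i)) (fun i => rho Ω J4 B (x' i)) s = φ0 • s)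
    {v : κ → ι → ℂ} {s s' : κ} (h : s ≠ s') (hs : v s ∈ LinearMap.range B.mulVecLin)
    (hs' : v s' ∈ LinearMap.range B.mulVecLin) :
    ∑ i, DS {s, s'} (x i) (DS {s, s'} (x' i) φ) v = (2 * γ - 2 * φ0) * φ v := by
  have h1 : ∀ i, DS {s, s'} (x i) (DS {s, s'} (x' i) φ) v
      = φ (update v s (x' i *ᵥ (x i *ᵥ v s)))
        + φ (update (update v s (x i *ᵥ v s)) s' (x' i *ᵥ v s'))
        + (φ (update (update v s' (x i *ᵥ v s')) s (x' i *ᵥ v s))
        + φ (update v s' (x' i *ᵥ (x i *ᵥ v s')))) := by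
    intro i
    unfold DS
    rw [Finset.sum_pair h, Finset.sum_pair h, Finset.sum_pair h]
    rw [update_self, update_self, update_idem, update_idem, update_of_ne h.symm, update_of_ne h]
  rw [Finset.sum_congr rfl fun i _ => h1 i, Finset.sum_add_distrib, Finset.sum_add_distrib,
    Finset.sum_add_distrib, cas_mix hS ha hD hφ hB h0 h hs hs',
    cas_mix hS ha hD hφ hB h0 h.symm hs' hs, ← map_update_sum', ← map_update_sum',
    (cas_vec ha hD hB hγ hs).2, (cas_vec ha hD hB hγ hs').2, φ.map_update_smul,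
    φ.map_update_smul, update_eq_self, update_eq_self, smul_eq_mul]
  ring

/-- The Casimir operators on complementary sets of variables have equal values. -/
theorem cas_cross (ha : MinId H a) (hD : Dual a x x') {φ : (ι → ℂ) [⋀^κ]→ₗ[ℂ] ℂ}
    (hφ : Prim Ω H φ) {Yf : κ → Submodule ℂ (ι → ℂ)} (hYf : ∀ s, Stable H (Yf s))
    {S T : Finset κ} (hST : Disjoint S T)
    (hz : ∀ s, s ∉ S → s ∉ T → ∀ X ∈ a, ∀ w ∈ Yf s, X *ᵥ w = 0) {v : κ → ι → ℂ}
    (hv : ∀ s, v s ∈ Yf s) :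
    ∑ i, DS S (x i) (DS S (x' i) φ) v = ∑ i, DS T (x' i) (DS T (x i) φ) v := by
  have h1 : ∀ X ∈ a, ∀ w : κ → ι → ℂ, (∀ s, w s ∈ Yf s) → DS S X φ w = -DS T X φ w := by
    intro X hX w hw
    have h2 := hφ.inv X (ha.id.le hX) w
    rw [← Finset.sum_add_sum_compl (S ∪ T), Finset.sum_union hST] at h2
    have h3 : ∑ s ∈ (S ∪ T)ᶜ, φ (update w s (X *ᵥ w s)) = 0 := by
      refine Finset.sum_eq_zero fun s hs => ?_
      rw [Finset.mem_compl, Finset.mem_union, not_or] at hs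
      rw [hz s hs.1 hs.2 X hX _ (hw s)]
      exact φ.map_update_zero _ _
    rw [h3, add_zero] at h2
    exact eq_neg_of_add_eq_zero_left h2
  have hst : ∀ X ∈ a, ∀ s, ∀ t, update v s (X *ᵥ v s) t ∈ Yf t := by
    intro X hX s t
    by_cases h : t = s
    · subst h
      rw [update_self]
      exact hYf t X (ha.id.le hX) _ (hv t)
    · rw [update_of_ne h]
      exact hv t
  refine Finset.sum_congr rfl fun i _ => ?_
  have h2 : DS S (x i) (DS S (x' i) φ) v = -DS S (x i) (DS T (x' i) φ) v := by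
    unfold DS
    rw [← Finset.sum_neg_distrib]
    refine Finset.sum_congr rfl fun s _ => ?_
    exact h1 _ (hD.mem' i) _ (hst _ (hD.mem i) s)
  have h3 : DS T (x' i) (DS S (x i) φ) v = -DS T (x' i) (DS T (x i) φ) v := by
    unfold DS
    rw [← Finset.sum_neg_distrib]
    refine Finset.sum_congr rfl fun s _ => ?_
    exact h1 _ (hD.mem i) _ (hst _ (hD.mem' i) s)
  rw [h2, DS_comm hST, h3, neg_neg]

end Pool.Agent.V5helper88.HR
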