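import Pool.Agent.V5helper88.HR.G17

/-!
The vanishing theorem for primitive invariant forms.
-/

set_option autoImplicit false

namespace Pool.Agent.V5helper88.HR

open Matrix Module Function

variable {ι : Type} [Fintype ι] [DecidableEq ι] {Ω : Matrix ι ι ℂ}
  {H : Submodule ℂ (Matrix ι ι ℂ)} {κ : Type} [Fintype κ] [DecidableEq κ]

theorem rho_ne {κ' : Type} [Fintype κ'] [DecidableEq κ'] {K : Matrix κ' κ' ℂ} {B : Matrix ι κ' ℂ}
    (hB : Frame Ω H K B) {X : Matrix ι ι ℂ} (hX : X ∈ H) {v : ι → ℂ}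
    (hv : v ∈ LinearMap.range B.mulVecLin) (hne : X *ᵥ v ≠ 0) : rho Ω K B X ≠ 0 := by
  intro h0
  obtain ⟨u, rfl⟩ := hv
  apply hne
  rw [mulVecLin_apply, mulVec_mulVec, hB.mul_B hX, h0, Matrix.mul_zero, zero_mulVec]

theorem eig_ne {n : ℕ} (hn : 2 ≤ n) {k t t' : ℂ} (hk : k ≠ 0)
    (h1 : k = t * (4 * n / 5 - 2)) (h2 : k = t' * (2 * n - 2)) :
    t * n / 4 ≠ t' * n / 2 ∧ 2 * t * n / 5 ≠ t' * n / 2 := by
  have hn0 : (n : ℂ) ≠ 0 := Nat.cast_ne_zero.mpr (by omega)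
  have ht' : t' ≠ 0 := by
    rintro rfl
    rw [zero_mul] at h2
    exact hk h2
  have h3 : t * (4 * n / 5 - 2) = t' * (2 * n - 2) := h1.symm.trans h2
  refine ⟨fun h => ?_, fun h => ?_⟩
  · have h4 : t = 2 * t' := by
      have h5 : (n : ℂ) * (t - 2 * t') = 0 := by linear_combination 4 * h
      exact sub_eq_zero.mp ((mul_eq_zero.mp h5).resolve_left hn0)
    have h6 : t' * ((n + 5 : ℕ) : ℂ) = 0 := by
      push_cast
      rw [h4] at h3
      linear_combination (-5 / 2 : ℂ) * h3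
    rcases mul_eq_zero.mp h6 with h | h
    · exact ht' h
    · rw [Nat.cast_eq_zero] at h; omega
  · have h4 : 4 * t = 5 * t' := by
      have h5 : (n : ℂ) * (4 * t - 5 * t') = 0 := by linear_combination 10 * h
      exact sub_eq_zero.mp ((mul_eq_zero.mp h5).resolve_left hn0)
    have h6 : t' * ((2 * n + 1 : ℕ) : ℂ) = 0 := by
      push_cast
      linear_combination (-2 : ℂ) * h3 + (2 * n / 5 - 1 : ℂ) * h4
    rcases mul_eq_zero.mp h6 with h | h
    · exact ht' h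
    · rw [Nat.cast_eq_zero] at h; omega

theorem vanish_block (hS : Sys Ω H) (hd : ∀ Y, Block H Y → finrank ℂ Y ≤ 4) [Nonempty κ]
    {φ : (ι → ℂ) [⋀^κ]→ₗ[ℂ] ℂ} (hφ : Prim Ω H φ) {Yf : κ → Submodule ℂ (ι → ℂ)}
    (hYf : ∀ s, Block H (Yf s)) {v : κ → ι → ℂ} (hv : ∀ s, v s ∈ Yf s) : φ v = 0 := by
  classical
  let s₀ : κ := Classical.arbitrary κ
  obtain ⟨a, ha, X₀, hX₀, v₀, hv₀, hne₀⟩ := exists_minId_block hS (hYf s₀)
  obtain ⟨n, x, x', hD, hn⟩ := exists_dual hS ha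
  obtain ⟨k, hk⟩ := hD.casimir ha
  have hk0 : k ≠ 0 := k_ne hS hd ha hD hn hk
  have hn0 : (n : ℂ) ≠ 0 := Nat.cast_ne_zero.mpr (by omega)
  let Act : κ → Prop := fun s => ∃ X ∈ a, ∃ w ∈ Yf s, X *ᵥ w ≠ 0
  let Four : κ → Prop := fun s => ∃ B : Matrix ι (Fin 4) ℂ, Frame Ω H J4 B ∧
    LinearMap.range B.mulVecLin = Yf s
  let S : Finset κ := Finset.univ.filter fun s => Act s ∧ Four s
  let T : Finset κ := Finset.univ.filter fun s => Act s ∧ ¬ Four s
  have hS' : ∀ s, s ∈ S ↔ Act s ∧ Four s := fun s => by simp [S]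
  have hT' : ∀ s, s ∈ T ↔ Act s ∧ ¬ Four s := fun s => by simp [T]
  have hT2 : ∀ s, s ∈ T → ∃ B : Matrix ι (Fin 2) ℂ, Frame Ω H J2 B ∧
      LinearMap.range B.mulVecLin = Yf s := by
    intro s hs
    rcases exists_frame hS (hYf s).st (hYf s).ne (hd _ (hYf s)) with h | h
    · exact h
    · exact absurd h ((hT' s).1 hs).2
  have hSS : ∀ s ∈ S, ∀ s' ∈ S, Yf s = Yf s' := by
    intro s hs s' hs'
    obtain ⟨⟨X, hX, w, hw, hne⟩, B, hB, hr⟩ := (hS' s).1 hs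
    obtain ⟨⟨X', hX', w', hw', hne'⟩, B', hB', hr'⟩ := (hS' s').1 hs'
    by_contra hcon
    rw [← hr] at hw
    rw [← hr'] at hw'
    exact pair44 hS ha hD hn hk hk0 hB hB' (hYf s) (hYf s') hcon hr hr' hX hX'
      (rho_ne hB (ha.id.le hX) hw hne) (rho_ne hB' (ha.id.le hX') hw' hne')
  have hTT : ∀ s ∈ T, ∀ s' ∈ T, Yf s = Yf s' := by
    intro s hs s' hs'
    obtain ⟨X, hX, w, hw, hne⟩ := ((hT' s).1 hs).1
    obtain ⟨X', hX', w', hw', hne'⟩ := ((hT' s').1 hs').1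
    obtain ⟨B, hB, hr⟩ := hT2 s hs
    obtain ⟨B', hB', hr'⟩ := hT2 s' hs'
    by_contra hcon
    rw [← hr] at hw
    rw [← hr'] at hw'
    exact pair22 hS ha hD hn hk hk0 hB hB' (hYf s) (hYf s') hcon hr hr' hX hX'
      (rho_ne hB (ha.id.le hX) hw hne) (rho_ne hB' (ha.id.le hX') hw' hne')
  -- many variables in one block
  by_cases hSc : 2 < S.card
  · obtain ⟨s, hs, s', hs', s'', hs'', h1, h2, h3⟩ := Finset.two_lt_card.mp hSc
    obtain ⟨-, B, hB, hr⟩ := (hS' s).1 hs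
    refine hφ.tri hS hB h1 h2 h3 ?_ ?_ ?_
    · rw [hr]; exact hv s
    · rw [hr, hSS s hs s' hs']; exact hv s'
    · rw [hr, hSS s hs s'' hs'']; exact hv s''
  by_cases hTc : 1 < T.card
  · obtain ⟨s, hs, s', hs', h1⟩ := Finset.one_lt_card.mp hTc
    obtain ⟨B, hB, hr⟩ := hT2 s hs
    refine hφ.duo hS hB h1 ?_ ?_
    · rw [hr]; exact hv s
    · rw [hr, hTT s hs s' hs']; exact hv s'
  -- the Casimir operator
  have hST : Disjoint S T := by
    rw [Finset.disjoint_left]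
    intro s hs ht
    exact ((hT' s).1 ht).2 ((hS' s).1 hs).2
  have hz : ∀ s, s ∉ S → s ∉ T → ∀ X ∈ a, ∀ w ∈ Yf s, X *ᵥ w = 0 := by
    intro s hs ht X hX w hw
    by_contra hne
    have hact : Act s := ⟨X, hX, w, hw, hne⟩
    by_cases h4 : Four s
    · exact hs ((hS' s).2 ⟨hact, h4⟩)
    · exact ht ((hT' s).2 ⟨hact, h4⟩)
  have hcr := cas_cross ha hD hφ (fun s => (hYf s).st) hST hz hv
  have hne : S.Nonempty ∨ T.Nonempty := by
    by_contra hcon
    rw [not_or, Finset.not_nonempty_iff_eq_empty, Finset.not_nonempty_iff_eq_empty] at hcon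
    exact hne₀ (hz s₀ (by rw [hcon.1]; exact Finset.notMem_empty _)
      (by rw [hcon.2]; exact Finset.notMem_empty _) X₀ hX₀ v₀ hv₀)
  have hl : ∃ c : ℂ, ∑ i, DS S (x i) (DS S (x' i) φ) v = c * φ v ∧ ((c = 0 ∧ ¬ S.Nonempty) ∨
      ∃ t : ℂ, k = t * (4 * n / 5 - 2) ∧ (c = t * n / 4 ∨ c = 2 * t * n / 5)) := by
    by_cases h0 : S.Nonempty
    · obtain ⟨s, hs⟩ := h0
      obtain ⟨⟨X, hX, w, hw, hne⟩, B, hB, hr⟩ := (hS' s).1 hs
      obtain ⟨t, ht, hγ, hs0, htk⟩ := blk4 hS ha hD hk hB (hYf s) hr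
      have hw' := hw
      rw [← hr] at hw'
      have htk' := htk X hX (rho_ne hB (ha.id.le hX) hw' hne)
      have hc : S.card = 1 ∨ S.card = 2 := by
        have := Finset.card_pos.mpr ⟨s, hs⟩
        omega
      rcases hc with hc | hc
      · obtain ⟨s', hs'⟩ := Finset.card_eq_one.mp hc
        have h1 : s = s' := by rw [hs', Finset.mem_singleton] at hs; exact hs
        subst h1
        refine ⟨t * n / 4, ?_, Or.inr ⟨t, htk', Or.inl rfl⟩⟩
        rw [hs']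
        exact cas_one φ (cas_vec ha hD hB hγ (by rw [hr]; exact hv s)).2
      · obtain ⟨p, q, hpq, hS2⟩ := Finset.card_eq_two.mp hc
        have hp : p ∈ S := by rw [hS2]; simp
        have hq : q ∈ S := by rw [hS2]; simp
        refine ⟨2 * t * n / 5, ?_, Or.inr ⟨t, htk', Or.inr rfl⟩⟩
        rw [hS2, cas_two hS ha hD hφ hB hγ hs0 hpq
          (by rw [hr, hSS s hs p hp]; exact hv p) (by rw [hr, hSS s hs q hq]; exact hv q)]
        ring
    · refine ⟨0, ?_, Or.inl ⟨rfl, h0⟩⟩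
      rw [Finset.not_nonempty_iff_eq_empty.mp h0, cas_empty, zero_mul]
  have hm : ∃ c : ℂ, ∑ i, DS T (x' i) (DS T (x i) φ) v = c * φ v ∧ ((c = 0 ∧ ¬ T.Nonempty) ∨
      ∃ t : ℂ, k = t * (2 * n - 2) ∧ c = t * n / 2) := by
    by_cases h0 : T.Nonempty
    · obtain ⟨s, hs⟩ := h0
      obtain ⟨X, hX, w, hw, hne⟩ := ((hT' s).1 hs).1
      obtain ⟨B, hB, hr⟩ := hT2 s hs
      obtain ⟨t, ht, hγ, htk⟩ := blk2 hS ha hD hk hB (hYf s) hr
      have hw' := hw
      rw [← hr] at hw'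
      have htk' := htk X hX (rho_ne hB (ha.id.le hX) hw' hne)
      have hc : T.card = 1 := by
        have := Finset.card_pos.mpr ⟨s, hs⟩
        omega
      obtain ⟨s', hs'⟩ := Finset.card_eq_one.mp hc
      have h1 : s = s' := by rw [hs', Finset.mem_singleton] at hs; exact hs
      subst h1
      refine ⟨t * n / 2, ?_, Or.inr ⟨t, htk', rfl⟩⟩
      rw [hs']
      exact cas_one (x := x') (x' := x) φ (cas_vec ha hD hB hγ (by rw [hr]; exact hv s)).1
    · refine ⟨0, ?_, Or.inl ⟨rfl, h0⟩⟩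
      rw [Finset.not_nonempty_iff_eq_empty.mp h0, zero_mul]
      exact cas_empty (x := x') (x' := x) φ v
  obtain ⟨c, hc, hc'⟩ := hl
  obtain ⟨d, hd', hd''⟩ := hm
  rw [hc, hd'] at hcr
  have hcd : c ≠ d := by
    rcases hc' with ⟨hc0, hSe⟩ | ⟨t, ht, hct⟩ <;> rcases hd'' with ⟨hd0, hTe⟩ | ⟨t', ht', hdt⟩
    · exact absurd hne (by rw [not_or]; exact ⟨hSe, hTe⟩)
    · rw [hc0, hdt]
      intro h
      have h1 : t' * n = 0 := by linear_combination (-2 : ℂ) * h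
      rcases mul_eq_zero.mp h1 with h2 | h2
      · rw [h2, zero_mul] at ht'; exact hk0 ht'
      · exact hn0 h2
    · rw [hd0]
      have ht0 : t * n ≠ 0 := by
        refine mul_ne_zero ?_ hn0
        rintro rfl
        rw [zero_mul] at ht
        exact hk0 ht
      rcases hct with h | h <;> rw [h] <;> intro h1 <;> apply ht0
      · linear_combination 4 * h1
      · linear_combination (5 / 2 : ℂ) * h1
    · obtain ⟨e1, e2⟩ := eig_ne hn hk0 ht ht'
      rw [hdt]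
      rcases hct with h | h <;> rw [h]
      · exact e1
      · exact e2
  have h1 : (c - d) * φ v = 0 := by linear_combination hcr
  exact (mul_eq_zero.mp h1).resolve_left (sub_ne_zero.mpr hcd)

/-- **Vanishing theorem.** -/
theorem vanish (hS : Sys Ω H) (hd : ∀ Y, Block H Y → finrank ℂ Y ≤ 4) [Nonempty κ]
    {φ : (ι → ℂ) [⋀^κ]→ₗ[ℂ] ℂ} (hφ : Prim Ω H φ) : φ = 0 := by
  have hsp : ⊤ ≤ Submodule.span ℂ (blockSet H) := (span_blocks hS).ge
  refine Basis.ext_alternating (Basis.ofSpan hsp) fun v _ => ?_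
  have h1 : ∀ i, Basis.ofSpan hsp (v i) ∈ blockSet H := fun i =>
    Basis.ofSpan_subset hsp ⟨v i, rfl⟩
  choose Yf hYf hv using h1
  rw [AlternatingMap.zero_apply]
  exact vanish_block hS hd hφ hYf hv

end Pool.Agent.V5helper88.HR
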