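import Pool.Agent.V5helper88.HR.G18
import Pool.Agent.N492.LCAP1
import Pool.Agent.Y102.V8

/-!
The system attached to an abelian variety all of whose endomorphisms are symmetric.
-/

set_option autoImplicit false

namespace Pool.Agent.V5helper88.HR

open Matrix Module Pool.Agent.Y102 Pool.Agent.W516.DR Pool.Agent.H204R3.GP Pool.Agent.W516.KC
  Pool.Agent.H204R3.SP Pool.Agent.N208.BT

noncomputable section

section mats

variable {ι : Type} [Fintype ι] [DecidableEq ι]

/-- The complex matrix of a rational matrix. -/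
def cc (X : Matrix ι ι ℚ) : Matrix ι ι ℂ := X.map (algebraMap ℚ ℂ)

theorem cc_apply (X : Matrix ι ι ℚ) (i j : ι) : cc X i j = ((X i j : ℚ) : ℂ) := rfl

theorem cc_mul (X Y : Matrix ι ι ℚ) : cc (X * Y) = cc X * cc Y := by
  unfold cc; rw [Matrix.map_mul]

theorem cc_add (X Y : Matrix ι ι ℚ) : cc (X + Y) = cc X + cc Y := by
  unfold cc; rw [Matrix.map_add]; intro a b; rw [map_add]

theorem cc_neg (X : Matrix ι ι ℚ) : cc (-X) = - cc X := by
  ext i j; simp [cc]

theorem cc_sub (X Y : Matrix ι ι ℚ) : cc (X - Y) = cc X - cc Y := by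
  rw [sub_eq_add_neg, cc_add, cc_neg, ← sub_eq_add_neg]

theorem cc_one : cc (1 : Matrix ι ι ℚ) = 1 := by
  unfold cc; rw [Matrix.map_one] <;> simp

theorem cc_zero : cc (0 : Matrix ι ι ℚ) = 0 := by
  ext i j; simp [cc]

theorem cc_tr (X : Matrix ι ι ℚ) : cc Xᵀ = (cc X)ᵀ := by
  ext i j; simp [cc]

/-- The image of a complex matrix under a rational functional. -/
def lm (l : ℂ →ₗ[ℚ] ℚ) (P : Matrix ι ι ℂ) : Matrix ι ι ℚ := P.map l

theorem lm_mul_cc (l : ℂ →ₗ[ℚ] ℚ) (P : Matrix ι ι ℂ) (X : Matrix ι ι ℚ) :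
    lm l (P * cc X) = lm l P * X := by
  ext i j
  simp only [lm, Matrix.map_apply, mul_apply, cc, map_sum]
  refine Finset.sum_congr rfl fun k _ => ?_
  have : P i k * (algebraMap ℚ ℂ) (X k j) = X k j • P i k := by
    rw [Algebra.smul_def, mul_comm]
  rw [this, map_smul, smul_eq_mul, mul_comm]

theorem lm_cc_mul (l : ℂ →ₗ[ℚ] ℚ) (P : Matrix ι ι ℂ) (X : Matrix ι ι ℚ) :
    lm l (cc X * P) = X * lm l P := by
  ext i j
  simp only [lm, Matrix.map_apply, mul_apply, cc, map_sum]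
  refine Finset.sum_congr rfl fun k _ => ?_
  have : (algebraMap ℚ ℂ) (X i k) * P k j = X i k • P k j := by
    rw [Algebra.smul_def]
  rw [this, map_smul, smul_eq_mul]

theorem lm_ext {P Q : Matrix ι ι ℂ} (h : ∀ l : ℂ →ₗ[ℚ] ℚ, lm l P = lm l Q) : P = Q := by
  ext i j
  rw [← sub_eq_zero]
  refine (Module.forall_dual_apply_eq_zero_iff ℚ _).mp fun l => ?_
  have h1 := congrFun (congrFun (h l) i) j
  simp only [lm, Matrix.map_apply] at h1
  rw [map_sub, h1, sub_self]

theorem lm_tr (l : ℂ →ₗ[ℚ] ℚ) (P : Matrix ι ι ℂ) : lm l Pᵀ = (lm l P)ᵀ := by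
  ext i j; simp [lm]

theorem lm_zero (l : ℂ →ₗ[ℚ] ℚ) : lm l (0 : Matrix ι ι ℂ) = 0 := by
  ext i j; simp [lm]

theorem lm_smul (l : ℂ →ₗ[ℚ] ℚ) (z : ℂ) (P : Matrix ι ι ℂ) :
    lm l (z • P) = lm (l ∘ₗ LinearMap.mulLeft ℚ z) P := by
  ext i j
  simp [lm]

theorem lm_cc (l : ℂ →ₗ[ℚ] ℚ) (X : Matrix ι ι ℚ) : lm l (cc X) = l 1 • X := by
  ext i j
  simp only [lm, cc, Matrix.map_apply, Matrix.smul_apply, smul_eq_mul]
  rw [Algebra.algebraMap_eq_smul_one, map_smul, smul_eq_mul, mul_comm]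

theorem lm_add (l : ℂ →ₗ[ℚ] ℚ) (P Q : Matrix ι ι ℂ) : lm l (P + Q) = lm l P + lm l Q := by
  ext i j; simp [lm]

theorem trace_lm (l : ℂ →ₗ[ℚ] ℚ) (P : Matrix ι ι ℂ) : trace (lm l P) = l (trace P) := by
  simp only [trace, diag_apply, lm, Matrix.map_apply, map_sum]

/-- A complex matrix all of whose rational components are in a rational space is in the complex
span of this space. -/
theorem mem_span_of_lm (S : Submodule ℚ (Matrix ι ι ℚ)) (P : Matrix ι ι ℂ)
    (h : ∀ l : ℂ →ₗ[ℚ] ℚ, lm l P ∈ S) :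
    P ∈ Submodule.span ℂ {Z | ∃ X ∈ S, Z = cc X} := by
  classical
  let B := Basis.ofVectorSpace ℚ ℂ
  let F : Finset _ := Finset.univ.biUnion fun p : ι × ι => (B.repr (P p.1 p.2)).support
  have h1 : P = ∑ k ∈ F, B k • cc (lm (B.coord k) P) := by
    ext i j
    rw [Matrix.sum_apply]
    simp only [Matrix.smul_apply, cc, lm, Matrix.map_apply, smul_eq_mul]
    conv_lhs => rw [← B.linearCombination_repr (P i j)]
    rw [Finsupp.linearCombination_apply, Finsupp.sum]
    have hsub : (B.repr (P i j)).support ⊆ F := fun k hk =>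
      Finset.mem_biUnion.mpr ⟨(i, j), Finset.mem_univ _, hk⟩
    rw [Finset.sum_subset hsub]
    · refine Finset.sum_congr rfl fun k _ => ?_
      rw [Algebra.smul_def, mul_comm, Basis.coord_apply]
    · intro k _ hk
      rw [Finsupp.notMem_support_iff] at hk
      rw [hk, zero_smul]
  rw [h1]
  refine Submodule.sum_mem _ fun k _ => Submodule.smul_mem _ _ (Submodule.subset_span ⟨_, h _, rfl⟩)

end mats

variable {g : ℕ} {A : AbVar g}

/-- The matrix of an endomorphism. -/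
def mt (b : Basis (Fin (2 * g)) ℚ A.H1) :
    Module.End ℚ A.H1 ≃ₐ[ℚ] Matrix (Fin (2 * g)) (Fin (2 * g)) ℚ := LinearMap.toMatrixAlgEquiv b

/-- The matrix of the Riemann form. -/
def Om (b : Basis (Fin (2 * g)) ℚ A.H1) : Matrix (Fin (2 * g)) (Fin (2 * g)) ℚ :=
  Matrix.of fun i j => A.om (b i) (b j)

/-- The matrices of the elements of the Lie algebra. -/
def HH (b : Basis (Fin (2 * g)) ℚ A.H1) : Submodule ℂ (Matrix (Fin (2 * g)) (Fin (2 * g)) ℂ) :=
  Submodule.span ℂ {Z | ∃ X ∈ A.LA, Z = cc (mt b X)}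

theorem mt_apply (b : Basis (Fin (2 * g)) ℚ A.H1) (X : Module.End ℚ A.H1) (j : Fin (2 * g)) :
    X (b j) = ∑ i, mt b X i j • b i := by
  conv_lhs => rw [← b.sum_repr (X (b j))]
  refine Finset.sum_congr rfl fun i _ => ?_
  rw [mt, LinearMap.toMatrixAlgEquiv_apply]

variable {b : Basis (Fin (2 * g)) ℚ A.H1}

theorem om_left (X : Module.End ℚ A.H1) (i j : Fin (2 * g)) :
    A.om (X (b i)) (b j) = ((mt b X)ᵀ * Om b) i j := by
  rw [mt_apply, map_sum, LinearMap.sum_apply, mul_apply]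
  refine Finset.sum_congr rfl fun k _ => ?_
  rw [map_smul, LinearMap.smul_apply, smul_eq_mul, transpose_apply]
  rfl

theorem om_right (X : Module.End ℚ A.H1) (i j : Fin (2 * g)) :
    A.om (b i) (X (b j)) = (Om b * mt b X) i j := by
  rw [mt_apply, map_sum, mul_apply]
  refine Finset.sum_congr rfl fun k _ => ?_
  rw [map_smul, smul_eq_mul, mul_comm]
  rfl

theorem mt_sym {X : Module.End ℚ A.H1} (h : ∀ u v, A.om (X u) v = A.om u (X v)) :
    (mt b X)ᵀ * Om b = Om b * mt b X := by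
  ext i j
  rw [← om_left, ← om_right, h]

theorem mt_skew {X : Module.End ℚ A.H1} (h : IsSkew A.om X) :
    (mt b X)ᵀ * Om b = -(Om b * mt b X) := by
  ext i j
  rw [Matrix.neg_apply, ← om_left, ← om_right]
  exact eq_neg_of_add_eq_zero_left (h _ _)

theorem Om_tr (b : Basis (Fin (2 * g)) ℚ A.H1) : (Om b)ᵀ = -Om b := by
  ext i j
  simp only [Om, transpose_apply, of_apply, Matrix.neg_apply]
  exact A.om_anti _ _

theorem Om_det (b : Basis (Fin (2 * g)) ℚ A.H1) : (Om b).det ≠ 0 := by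
  intro h0
  obtain ⟨v, hv0, hv⟩ := Matrix.exists_mulVec_eq_zero_iff.mpr h0
  apply hv0
  have hom : ∀ i, A.om (b i) (∑ j, v j • b j) = (Om b *ᵥ v) i := by
    intro i
    rw [map_sum]
    simp only [mulVec, dotProduct]
    refine Finset.sum_congr rfl fun j _ => ?_
    rw [map_smul, smul_eq_mul, mul_comm]
    rfl
  have h1 : ∑ j, v j • b j = 0 := by
    apply A.om_nondeg
    intro w
    rw [A.om_anti]
    have h2 : A.om w (∑ j, v j • b j) = 0 := by
      conv_lhs => rw [← b.sum_repr w]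
      rw [LinearMap.map_sum₂]
      refine Finset.sum_eq_zero fun i _ => ?_
      rw [LinearMap.map_smul₂, hom, hv, Pi.zero_apply, smul_zero]
    rw [h2, neg_zero]
  have h2 := b.linearIndependent
  rw [Fintype.linearIndependent_iff] at h2
  funext i
  exact h2 v h1 i

/-- The rational components of an element of the commutant are endomorphisms. -/
theorem comp_mem {P : Matrix (Fin (2 * g)) (Fin (2 * g)) ℂ} (hP : Cm (HH b) P)
    (l : ℂ →ₗ[ℚ] ℚ) : (mt b).symm (lm l P) ∈ A.EA := by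
  intro X hX
  apply (mt b).injective
  rw [map_mul, map_mul, AlgEquiv.apply_symm_apply, ← lm_cc_mul, ← lm_mul_cc,
    hP _ (Submodule.subset_span ⟨X, hX, rfl⟩)]

theorem cm_cc {P : Module.End ℚ A.H1} (hP : P ∈ A.EA) : Cm (HH b) (cc (mt b P)) := by
  intro Z hZ
  refine Submodule.span_induction (p := fun Z _ => cc (mt b P) * Z = Z * cc (mt b P))
    ?_ ?_ ?_ ?_ hZ
  · rintro _ ⟨X, hX, rfl⟩
    rw [← cc_mul, ← cc_mul, ← map_mul, ← map_mul, hP X hX]
  · rw [mul_zero, zero_mul]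
  · intro x y _ _ hx hy
    rw [mul_add, add_mul, hx, hy]
  · intro z x _ hx
    rw [mul_smul_comm, smul_mul_assoc, hx]

theorem cm_of_gens {P : Matrix (Fin (2 * g)) (Fin (2 * g)) ℂ}
    (h : ∀ X ∈ A.LA, P * cc (mt b X) = cc (mt b X) * P) : Cm (HH b) P := by
  intro Z hZ
  refine Submodule.span_induction (p := fun Z _ => P * Z = Z * P) ?_ ?_ ?_ ?_ hZ
  · rintro _ ⟨X, hX, rfl⟩
    exact h X hX
  · rw [mul_zero, zero_mul]
  · intro x y _ _ hx hy
    rw [mul_add, add_mul, hx, hy]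
  · intro z x _ hx
    rw [mul_smul_comm, smul_mul_assoc, hx]

/-- The complex span of the bicommutant. -/
def CS (b : Basis (Fin (2 * g)) ℚ A.H1) : Submodule ℂ (Matrix (Fin (2 * g)) (Fin (2 * g)) ℂ) :=
  Submodule.span ℂ {Z | ∃ X ∈ CB A, Z = cc (mt b X)}

theorem span_comp {L : Submodule ℚ (Module.End ℚ A.H1)}
    {P : Matrix (Fin (2 * g)) (Fin (2 * g)) ℂ}
    (hP : P ∈ Submodule.span ℂ {Z | ∃ X ∈ L, Z = cc (mt b X)}) :
    ∀ l : ℂ →ₗ[ℚ] ℚ, ∃ X ∈ L, lm l P = mt b X := by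
  refine Submodule.span_induction (p := fun P _ => ∀ l : ℂ →ₗ[ℚ] ℚ, ∃ X ∈ L, lm l P = mt b X)
    ?_ ?_ ?_ ?_ hP
  · rintro _ ⟨X, hX, rfl⟩ l
    exact ⟨l 1 • X, L.smul_mem _ hX, by rw [lm_cc, map_smul]⟩
  · intro l
    refine ⟨0, L.zero_mem, ?_⟩
    rw [map_zero]
    ext i j
    simp [lm]
  · intro x y _ _ hx hy l
    obtain ⟨X, hX, hX'⟩ := hx l
    obtain ⟨Y, hY, hY'⟩ := hy l
    exact ⟨X + Y, L.add_mem hX hY, by rw [lm_add, hX', hY', map_add]⟩
  · intro z x _ hx l
    obtain ⟨X, hX, hX'⟩ := hx (l ∘ₗ LinearMap.mulLeft ℚ z)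
    exact ⟨X, hX, by rw [lm_smul, hX']⟩

/-- The complexification of a nondegenerate trace form is nondegenerate. -/
theorem span_trace {L : Submodule ℚ (Module.End ℚ A.H1)}
    (hL : Pool.Agent.W516.KC2.TraceNondeg L) {P : Matrix (Fin (2 * g)) (Fin (2 * g)) ℂ}
    (hP : P ∈ Submodule.span ℂ {Z | ∃ X ∈ L, Z = cc (mt b X)})
    (h : ∀ Q ∈ Submodule.span ℂ {Z | ∃ X ∈ L, Z = cc (mt b X)}, trace (P * Q) = 0) : P = 0 := by
  refine lm_ext fun l => ?_
  obtain ⟨X, hX, hX'⟩ := span_comp hP l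
  have h1 : X = 0 := by
    refine hL X hX fun Y hY => ?_
    have h2 := h (cc (mt b Y)) (Submodule.subset_span ⟨Y, hY, rfl⟩)
    have h3 := trace_lm l (P * cc (mt b Y))
    rw [h2, map_zero, lm_mul_cc, hX', ← map_mul] at h3
    rw [← h3]
    exact (LinearMap.trace_eq_matrix_trace ℚ b (X * Y))
  rw [hX', h1, map_zero, lm_zero]

theorem CS_mul {P Q : Matrix (Fin (2 * g)) (Fin (2 * g)) ℂ} (hP : P ∈ CS b) (hQ : Q ∈ CS b) :
    P * Q ∈ CS b := by
  refine Submodule.span_induction (p := fun P _ => P * Q ∈ CS b) ?_ ?_ ?_ ?_ hP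
  · rintro _ ⟨X, hX, rfl⟩
    refine Submodule.span_induction (p := fun Q _ => cc (mt b X) * Q ∈ CS b) ?_ ?_ ?_ ?_ hQ
    · rintro _ ⟨Y, hY, rfl⟩
      rw [← cc_mul, ← map_mul]
      exact Submodule.subset_span ⟨X * Y, Pool.Agent.N492.LCAP1.CB_mul hX hY, rfl⟩
    · rw [mul_zero]; exact Submodule.zero_mem _
    · intro x y _ _ hx hy
      rw [mul_add]; exact Submodule.add_mem _ hx hy
    · intro z x _ hx
      rw [mul_smul_comm]; exact Submodule.smul_mem _ _ hx
  · rw [zero_mul]; exact Submodule.zero_mem _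
  · intro x y _ _ hx hy
    rw [add_mul]; exact Submodule.add_mem _ hx hy
  · intro z x _ hx
    rw [smul_mul_assoc]; exact Submodule.smul_mem _ _ hx

theorem CS_one : (1 : Matrix (Fin (2 * g)) (Fin (2 * g)) ℂ) ∈ CS b := by
  refine Submodule.subset_span ⟨1, Pool.Agent.N492.LCAP1.CB_one, ?_⟩
  rw [map_one, cc_one]

/-- The complex bicommutant as an algebra of operators. -/
def CR (b : Basis (Fin (2 * g)) ℚ A.H1) : Subalgebra ℂ (Module.End ℂ (Fin (2 * g) → ℂ)) where
  carrier := {x | LinearMap.toMatrixAlgEquiv' x ∈ CS b}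
  mul_mem' := fun {x y} hx hy => by
    change LinearMap.toMatrixAlgEquiv' (x * y) ∈ CS b
    rw [map_mul]; exact CS_mul hx hy
  add_mem' := fun {x y} hx hy => by
    change LinearMap.toMatrixAlgEquiv' (x + y) ∈ CS b
    rw [map_add]; exact Submodule.add_mem _ hx hy
  algebraMap_mem' := fun z => by
    change LinearMap.toMatrixAlgEquiv' (algebraMap ℂ _ z) ∈ CS b
    rw [AlgEquiv.commutes, Algebra.algebraMap_eq_smul_one]
    exact Submodule.smul_mem _ _ CS_one

/-- The elements of the bicommutant preserve all subspaces which are stable under the Lie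
algebra. -/
theorem stable_CB {Y : Submodule ℂ (Fin (2 * g) → ℂ)} (hY : ∀ X ∈ HH b, ∀ v ∈ Y, X *ᵥ v ∈ Y)
    {X : Module.End ℚ A.H1} (hX : X ∈ CB A) : ∀ v ∈ Y, cc (mt b X) *ᵥ v ∈ Y := by
  have h1 : X ∈ Algebra.adjoin ℚ (A.LA : Set (Module.End ℚ A.H1)) :=
    mem_adjoin_of_comm A.semi_LA fun P hP => hX P hP
  refine Algebra.adjoin_induction (p := fun X _ => ∀ v ∈ Y, cc (mt b X) *ᵥ v ∈ Y)
    ?_ ?_ ?_ ?_ h1
  · intro X hX v hv
    exact hY _ (Submodule.subset_span ⟨X, hX, rfl⟩) v hv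
  · intro r v hv
    rw [AlgEquiv.commutes, Algebra.algebraMap_eq_smul_one]
    have h2 : cc (r • (1 : Matrix (Fin (2 * g)) (Fin (2 * g)) ℚ))
        = (algebraMap ℚ ℂ r) • (1 : Matrix (Fin (2 * g)) (Fin (2 * g)) ℂ) := by
      rw [← cc_one]
      ext i j
      simp only [cc, Matrix.map_apply, Matrix.smul_apply, smul_eq_mul, map_mul]
    rw [h2, smul_mulVec, one_mulVec]
    exact Submodule.smul_mem _ _ hv
  · intro X Z _ _ hX hZ v hv
    rw [map_add, cc_add, add_mulVec]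
    exact Submodule.add_mem _ (hX v hv) (hZ v hv)
  · intro X Z _ _ hX hZ v hv
    rw [map_mul, cc_mul, ← mulVec_mulVec]
    exact hX _ (hZ v hv)

/-- Every stable subspace is the image of a projection which commutes with the Lie algebra. -/
theorem exists_proj {Y : Submodule ℂ (Fin (2 * g) → ℂ)}
    (hY : ∀ X ∈ HH b, ∀ v ∈ Y, X *ᵥ v ∈ Y) :
    ∃ P : Matrix (Fin (2 * g)) (Fin (2 * g)) ℂ, Cm (HH b) P ∧ (∀ v, P *ᵥ v ∈ Y) ∧
      ∀ v ∈ Y, P *ᵥ v = v := by
  have hYR : ∀ X ∈ CR b, ∀ v ∈ Y, X v ∈ Y := by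
    intro x hx v hv
    have h1 : LinearMap.toMatrixAlgEquiv' x ∈ CS b := hx
    have h2 : ∀ Z ∈ CS b, Z *ᵥ v ∈ Y := by
      intro Z hZ
      refine Submodule.span_induction (p := fun Z _ => Z *ᵥ v ∈ Y) ?_ ?_ ?_ ?_ hZ
      · rintro _ ⟨X, hX, rfl⟩
        exact stable_CB hY hX v hv
      · rw [zero_mulVec]; exact Submodule.zero_mem _
      · intro x y _ _ hx hy
        rw [add_mulVec]; exact Submodule.add_mem _ hx hy
      · intro z x _ hx
        rw [smul_mulVec]; exact Submodule.smul_mem _ _ hx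
    have h3 := h2 _ h1
    have h4 : LinearMap.toMatrixAlgEquiv' x *ᵥ v = x v := by
      change LinearMap.toMatrix' x *ᵥ v = x v
      rw [← Matrix.toLin'_apply, Matrix.toLin'_toMatrix']
    rwa [h4] at h3
  obtain ⟨Y', hY', hc⟩ := Pool.Agent.N492.LCAP1.compl_of_trace (CR b) (fun x hx h => by
    have h1 : LinearMap.toMatrixAlgEquiv' x = 0 := by
      refine span_trace (b := b) (L := CB A) Pool.Agent.N492.LCAP1.trace_CB hx fun Q hQ => ?_
      have h2 : (Matrix.toLin' Q : Module.End ℂ (Fin (2 * g) → ℂ)) ∈ CR b := by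
        change LinearMap.toMatrix' (Matrix.toLin' Q) ∈ CS b
        rw [LinearMap.toMatrix'_toLin']; exact hQ
      have h3 := h _ h2
      have h4 : trace (LinearMap.toMatrixAlgEquiv' x * Q)
          = LinearMap.trace ℂ _ (x * Matrix.toLin' Q) := by
        have h5 : x = Matrix.toLin' (LinearMap.toMatrix' x) := (Matrix.toLin'_toMatrix' x).symm
        conv_rhs => rw [h5]
        rw [Module.End.mul_eq_comp, ← Matrix.toLin'_mul, Matrix.trace_toLin'_eq]
        rfl
      rw [h4, h3]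
    exact (LinearMap.toMatrixAlgEquiv').injective (by rw [h1, map_zero])) Y hYR
  refine ⟨LinearMap.toMatrix' (Y.projection Y' hc), ?_, ?_, ?_⟩
  · refine cm_of_gens fun X hX => ?_
    apply (Matrix.toLin').injective
    refine LinearMap.ext fun v => ?_
    rw [toLin'_apply, toLin'_apply, ← mulVec_mulVec, ← mulVec_mulVec]
    have hp : ∀ w, LinearMap.toMatrix' (Y.projection Y' hc) *ᵥ w = Y.projection Y' hc w := by
      intro w
      rw [← Matrix.toLin'_apply, Matrix.toLin'_toMatrix']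
    rw [hp, hp]
    have hX' : ∀ w ∈ Y', cc (mt b X) *ᵥ w ∈ Y' := by
      intro w hw
      have h1 : (Matrix.toLin' (cc (mt b X)) : Module.End ℂ (Fin (2 * g) → ℂ)) ∈ CR b := by
        change LinearMap.toMatrix' (Matrix.toLin' (cc (mt b X))) ∈ CS b
        rw [LinearMap.toMatrix'_toLin']
        exact Submodule.subset_span ⟨X, Pool.Agent.N492.LCAP1.LA_le_CB hX, rfl⟩
      have h2 := hY' _ h1 w hw
      rwa [toLin'_apply] at h2
    have hv : v ∈ Y ⊔ Y' := by rw [hc.sup_eq_top]; trivial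
    obtain ⟨y, hy, y', hy', rfl⟩ := Submodule.mem_sup.mp hv
    rw [mulVec_add, map_add, map_add,
      Submodule.projection_apply_of_mem_left hc
        (hY _ (Submodule.subset_span ⟨X, hX, rfl⟩) y hy),
      Submodule.projection_apply_of_mem_left hc hy,
      Submodule.projection_apply_of_mem_right hc (hX' y' hy'),
      Submodule.projection_apply_of_mem_right hc hy', add_zero, add_zero]
  · intro v
    rw [← Matrix.toLin'_apply, Matrix.toLin'_toMatrix']
    exact Submodule.projection_apply_mem hc v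
  · intro v hv
    rw [← Matrix.toLin'_apply, Matrix.toLin'_toMatrix']
    exact Submodule.projection_apply_of_mem_left hc hv

theorem HH_br : ∀ X ∈ HH b, ∀ Y ∈ HH b, X * Y - Y * X ∈ HH b := by
  intro X hX Y hY
  refine Submodule.span_induction (p := fun X _ => X * Y - Y * X ∈ HH b) ?_ ?_ ?_ ?_ hX
  · rintro _ ⟨X, hX, rfl⟩
    refine Submodule.span_induction
      (p := fun Y _ => cc (mt b X) * Y - Y * cc (mt b X) ∈ HH b) ?_ ?_ ?_ ?_ hY
    · rintro _ ⟨Y, hY, rfl⟩
      rw [← cc_mul, ← cc_mul, ← cc_sub, ← map_mul, ← map_mul, ← map_sub]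
      exact Submodule.subset_span ⟨_, A.LA_bracket hX hY, rfl⟩
    · rw [mul_zero, zero_mul, sub_zero]; exact Submodule.zero_mem _
    · intro x y _ _ hx hy
      have h1 : cc (mt b X) * (x + y) - (x + y) * cc (mt b X)
        = (cc (mt b X) * x - x * cc (mt b X)) + (cc (mt b X) * y - y * cc (mt b X)) := by
        noncomm_ring
      rw [h1]; exact Submodule.add_mem _ hx hy
    · intro z x _ hx
      rw [mul_smul_comm, smul_mul_assoc, ← smul_sub]; exact Submodule.smul_mem _ _ hx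
  · rw [mul_zero, zero_mul, sub_zero]; exact Submodule.zero_mem _
  · intro x y _ _ hx hy
    have h1 : (x + y) * Y - Y * (x + y) = (x * Y - Y * x) + (y * Y - Y * y) := by noncomm_ring
    rw [h1]; exact Submodule.add_mem _ hx hy
  · intro z x _ hx
    rw [mul_smul_comm, smul_mul_assoc, ← smul_sub]; exact Submodule.smul_mem _ _ hx

/-- The system attached to an abelian variety with symmetric endomorphisms. -/
theorem sys_of_sym (b : Basis (Fin (2 * g)) ℚ A.H1)
    (hs : ∀ P ∈ A.EA, ∀ u v, A.om (P u) v = A.om u (P v)) : Sys (cc (Om b)) (HH b) := by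
  refine ⟨?_, ?_, HH_br, ?_, ?_, ?_, ?_⟩
  · rw [← cc_tr, Om_tr, cc_neg]
  · intro v hv
    by_contra h0
    have h1 : (cc (Om b)).det = 0 := Matrix.exists_mulVec_eq_zero_iff.mp ⟨v, h0, hv⟩
    have h2 : (cc (Om b)).det = algebraMap ℚ ℂ (Om b).det := by
      unfold cc
      exact (RingHom.map_det _ _).symm
    rw [h2] at h1
    exact Om_det b ((map_eq_zero _).mp h1)
  · intro X hX
    refine Submodule.span_induction (p := fun X _ => Xᵀ * cc (Om b) = -(cc (Om b) * X))
      ?_ ?_ ?_ ?_ hX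
    · rintro _ ⟨X, hX, rfl⟩
      rw [← cc_tr, ← cc_mul, ← cc_mul, mt_skew (A.LA_skew hX), cc_neg]
    · rw [transpose_zero, zero_mul, mul_zero, neg_zero]
    · intro x y _ _ hx hy
      rw [transpose_add, add_mul, mul_add, hx, hy, neg_add]
    · intro z x _ hx
      rw [transpose_smul, smul_mul_assoc, hx, mul_smul_comm, smul_neg]
  · intro X hX h
    exact span_trace (b := b) (L := A.LA) A.trace_LA hX h
  · intro P hP
    refine lm_ext fun l => ?_
    have h1 := mt_sym (b := b) (hs _ (comp_mem hP l))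
    rw [AlgEquiv.apply_symm_apply] at h1
    rw [lm_mul_cc, lm_cc_mul, lm_tr]
    exact h1
  · intro Y hY
    exact exists_proj hY

/-- The dimension of the blocks. -/
theorem block_le {P : Module.End ℚ A.H1} (hP : P ∈ A.EA) {m : ℕ}
    (hm : ∀ z : ℂ, (P.charpoly.map (algebraMap ℚ ℂ)).rootMultiplicity z ≤ m)
    (b : Basis (Fin (2 * g)) ℚ A.H1) (hS : Sys (cc (Om b)) (HH b))
    (Y : Submodule ℂ (Fin (2 * g) → ℂ)) (hY : Block (HH b) Y) : finrank ℂ Y ≤ m := by
  obtain ⟨z, hz⟩ := hY.scalar hS (cm_cc hP)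
  have h1 : Y ≤ Module.End.eigenspace (Matrix.toLin' (cc (mt b P))) z := by
    intro v hv
    rw [Module.End.mem_eigenspace_iff, toLin'_apply]
    exact hz v hv
  have h2 := LinearMap.finrank_eigenspace_le (Matrix.toLin' (cc (mt b P))) z
  have h3 : (Matrix.toLin' (cc (mt b P))).charpoly = P.charpoly.map (algebraMap ℚ ℂ) := by
    rw [Matrix.charpoly_toLin']
    unfold cc
    rw [Matrix.charpoly_map]
    congr 1
    exact LinearMap.charpoly_toMatrix P b
  rw [h3] at h2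
  exact (Submodule.finrank_mono h1).trans (h2.trans (hm z))

end

end Pool.Agent.V5helper88.HR
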