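import Pool.Agent.V5helper88.HR.G1

/-!
Frames of stable subspaces.
-/

set_option autoImplicit false

namespace Pool.Agent.V5helper88.HR

open Matrix Module

variable {ι : Type} [Fintype ι] [DecidableEq ι] {κ : Type} [Fintype κ] [DecidableEq κ]

/-- The coordinate functionals of a frame. -/
def cof (Ω : Matrix ι ι ℂ) (K : Matrix κ κ ℂ) (B : Matrix ι κ ℂ) : Matrix κ ι ℂ := -(K * Bᵀ * Ω)

/-- A symplectic basis of a stable subspace, given by the columns of `B`. -/
structure Frame (Ω : Matrix ι ι ℂ) (H : Submodule ℂ (Matrix ι ι ℂ)) (K : Matrix κ κ ℂ)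
    (B : Matrix ι κ ℂ) : Prop where
  ksq : K * K = -1
  ktr : Kᵀ = -K
  gram : Bᵀ * Ω * B = K
  stab : ∀ X ∈ H, ∃ R : Matrix κ κ ℂ, X * B = B * R

/-- The action in terms of the frame. -/
def rho (Ω : Matrix ι ι ℂ) (K : Matrix κ κ ℂ) (B : Matrix ι κ ℂ) :
    Matrix ι ι ℂ →ₗ[ℂ] Matrix κ κ ℂ where
  toFun X := cof Ω K B * X * B
  map_add' X Y := by rw [Matrix.mul_add, Matrix.add_mul]
  map_smul' z X := by rw [Matrix.mul_smul, Matrix.smul_mul, RingHom.id_apply]

theorem rho_apply (Ω : Matrix ι ι ℂ) (K : Matrix κ κ ℂ) (B : Matrix ι κ ℂ) (X : Matrix ι ι ℂ) :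
    rho Ω K B X = cof Ω K B * X * B := rfl

variable {Ω : Matrix ι ι ℂ} {H : Submodule ℂ (Matrix ι ι ℂ)} {K : Matrix κ κ ℂ}
  {B : Matrix ι κ ℂ}

namespace Frame

theorem cof_mul (hB : Frame Ω H K B) : cof Ω K B * B = 1 := by
  unfold cof
  rw [Matrix.neg_mul, Matrix.mul_assoc, Matrix.mul_assoc, ← Matrix.mul_assoc Bᵀ, hB.gram, hB.ksq, neg_neg]

theorem mul_B (hB : Frame Ω H K B) {X : Matrix ι ι ℂ} (hX : X ∈ H) :
    X * B = B * rho Ω K B X := by
  obtain ⟨R, hR⟩ := hB.stab X hX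
  rw [rho_apply, Matrix.mul_assoc, hR, ← Matrix.mul_assoc (cof Ω K B), hB.cof_mul, Matrix.one_mul]

theorem rho_sk (hS : Sys Ω H) (hB : Frame Ω H K B) {X : Matrix ι ι ℂ} (hX : X ∈ H) :
    (rho Ω K B X)ᵀ * K = -(K * rho Ω K B X) := by
  have h1 : (rho Ω K B X)ᵀ * (Bᵀ * Ω * B) = (B * rho Ω K B X)ᵀ * Ω * B := by
    rw [transpose_mul]; simp only [Matrix.mul_assoc]
  have h2 : Bᵀ * Ω * B * rho Ω K B X = Bᵀ * Ω * (B * rho Ω K B X) := by
    simp only [Matrix.mul_assoc]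
  rw [hB.gram, ← hB.mul_B hX, transpose_mul, Matrix.mul_assoc Bᵀ, hS.sk X hX] at h1
  rw [hB.gram, ← hB.mul_B hX] at h2
  rw [h1, h2]
  simp only [Matrix.neg_mul, Matrix.mul_neg, Matrix.mul_assoc]

/-- The transpose of a skew matrix. -/
theorem K_tr (hB : Frame Ω H K B) {R : Matrix κ κ ℂ} (h : Rᵀ * K = -(K * R)) :
    K * Rᵀ = -(R * K) := by
  have h1 : K * Rᵀ = -(K * (Rᵀ * K) * K) := by
    have : K * (Rᵀ * K) * K = K * Rᵀ * (K * K) := by simp only [Matrix.mul_assoc]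
    rw [this, hB.ksq, Matrix.mul_neg, Matrix.mul_one, neg_neg]
  rw [h1, h, Matrix.mul_neg, Matrix.neg_mul, neg_neg, ← Matrix.mul_assoc K, hB.ksq]
  simp

theorem cof_mul_X (hS : Sys Ω H) (hB : Frame Ω H K B) {X : Matrix ι ι ℂ} (hX : X ∈ H) :
    cof Ω K B * X = rho Ω K B X * cof Ω K B := by
  have h1 : Ω * X = -(Xᵀ * Ω) := by rw [hS.sk X hX, neg_neg]
  have h2 : Bᵀ * Xᵀ = (rho Ω K B X)ᵀ * Bᵀ := by
    rw [← transpose_mul, hB.mul_B hX, transpose_mul]
  unfold cof
  have h3 : K * Bᵀ * Ω * X = K * Bᵀ * (Ω * X) := Matrix.mul_assoc _ _ _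
  rw [Matrix.neg_mul, h3, h1, Matrix.mul_neg, neg_neg, ← Matrix.mul_assoc, Matrix.mul_assoc K, h2, ← Matrix.mul_assoc,
    hB.K_tr (hB.rho_sk hS hX)]
  simp only [Matrix.neg_mul, Matrix.mul_neg, Matrix.mul_assoc]

theorem rho_mul (hB : Frame Ω H K B) (X : Matrix ι ι ℂ) {Y : Matrix ι ι ℂ} (hY : Y ∈ H) :
    rho Ω K B (X * Y) = rho Ω K B X * rho Ω K B Y := by
  rw [rho_apply, ← Matrix.mul_assoc, Matrix.mul_assoc _ Y, hB.mul_B hY, ← Matrix.mul_assoc, ← rho_apply]

theorem rho_bracket (hB : Frame Ω H K B) {X Y : Matrix ι ι ℂ} (hX : X ∈ H) (hY : Y ∈ H) :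
    rho Ω K B (X * Y - Y * X)
      = rho Ω K B X * rho Ω K B Y - rho Ω K B Y * rho Ω K B X := by
  rw [map_sub, hB.rho_mul X hY, hB.rho_mul Y hX]

theorem B_inj (hB : Frame Ω H K B) {v w : κ → ℂ} (h : B *ᵥ v = B *ᵥ w) : v = w := by
  have h1 := congrArg (fun u => cof Ω K B *ᵥ u) h
  simp only [mulVec_mulVec, hB.cof_mul, one_mulVec] at h1
  exact h1

/-- Elements of the commutant of the action on the frame give elements of the commutant. -/
theorem cm_ext (hS : Sys Ω H) (hB : Frame Ω H K B) {P : Matrix κ κ ℂ}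
    (hP : ∀ X ∈ H, P * rho Ω K B X = rho Ω K B X * P) : Cm H (B * P * cof Ω K B) := by
  intro X hX
  rw [Matrix.mul_assoc, hB.cof_mul_X hS hX, ← Matrix.mul_assoc, Matrix.mul_assoc B, hP X hX, ← Matrix.mul_assoc,
    ← Matrix.mul_assoc X, ← Matrix.mul_assoc X, hB.mul_B hX]

theorem comm_sy (hS : Sys Ω H) (hB : Frame Ω H K B) {P : Matrix κ κ ℂ}
    (hP : ∀ X ∈ H, P * rho Ω K B X = rho Ω K B X * P) : Pᵀ * K = K * P := by
  have h1 := hS.sy _ (hB.cm_ext hS hP)
  have h2 : B * P * cof Ω K B * B = B * P := by rw [Matrix.mul_assoc, hB.cof_mul, Matrix.mul_one]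
  have h3 : Bᵀ * ((B * P * cof Ω K B)ᵀ * Ω) * B = Bᵀ * (Ω * (B * P * cof Ω K B)) * B := by rw [h1]
  have h4 : Bᵀ * ((B * P * cof Ω K B)ᵀ * Ω) * B = (B * P * cof Ω K B * B)ᵀ * Ω * B := by
    rw [transpose_mul (B * P * cof Ω K B)]; simp only [Matrix.mul_assoc]
  have h5 : Bᵀ * (Ω * (B * P * cof Ω K B)) * B = Bᵀ * Ω * (B * P * cof Ω K B * B) := by
    simp only [Matrix.mul_assoc]
  rw [h4, h5, h2, transpose_mul] at h3
  have h6 : Pᵀ * Bᵀ * Ω * B = Pᵀ * (Bᵀ * Ω * B) := by simp only [Matrix.mul_assoc]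
  rw [h6, hB.gram, ← Matrix.mul_assoc, hB.gram] at h3
  exact h3

theorem mem_range (B : Matrix ι κ ℂ) {v : ι → ℂ} :
    v ∈ LinearMap.range B.mulVecLin ↔ ∃ w, B *ᵥ w = v := by
  rw [LinearMap.mem_range]
  rfl

/-- The commutant of a block. -/
theorem comm_scalar (hS : Sys Ω H) (hB : Frame Ω H K B) {Y : Submodule ℂ (ι → ℂ)}
    (hY : Block H Y) (hr : LinearMap.range B.mulVecLin = Y) {P : Matrix κ κ ℂ}
    (hP : ∀ X ∈ H, P * rho Ω K B X = rho Ω K B X * P) : ∃ z : ℂ, P = z • (1 : Matrix κ κ ℂ) := by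
  obtain ⟨z, hz⟩ := hY.scalar hS (hB.cm_ext hS hP)
  refine ⟨z, ?_⟩
  ext i j
  have h1 : B *ᵥ Pi.single j 1 ∈ Y := by rw [← hr]; exact ⟨_, rfl⟩
  have h2 := hz _ h1
  rw [mulVec_mulVec, Matrix.mul_assoc (B * P), hB.cof_mul, Matrix.mul_one, ← mulVec_mulVec, ← mulVec_smul] at h2
  have h3 := congrFun (hB.B_inj h2) i
  rw [mulVec_single_one] at h3
  have h4 : P i j = z * (Pi.single j 1 : κ → ℂ) i := h3
  rw [h4, Matrix.smul_apply, smul_eq_mul, Matrix.one_apply, Pi.single_apply]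

/-- A block has no stable subspaces in terms of a frame. -/
theorem irred (hB : Frame Ω H K B) {Y : Submodule ℂ (ι → ℂ)}
    (hY : Block H Y) (hr : LinearMap.range B.mulVecLin = Y) (W : Submodule ℂ (κ → ℂ))
    (hW : ∀ X ∈ H, ∀ w ∈ W, rho Ω K B X *ᵥ w ∈ W) : W = ⊥ ∨ W = ⊤ := by
  by_cases h0 : W = ⊥
  · exact Or.inl h0
  refine Or.inr ?_
  have h1 : W.map B.mulVecLin = Y := by
    refine hY.min _ ?_ ?_ ?_
    · rintro X hX _ ⟨w, hw, rfl⟩
      refine ⟨rho Ω K B X *ᵥ w, hW X hX w hw, ?_⟩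
      rw [mulVecLin_apply, mulVecLin_apply, mulVec_mulVec, mulVec_mulVec, hB.mul_B hX]
    · rw [← hr]
      exact LinearMap.map_le_range
    · intro h2
      apply h0
      rw [Submodule.eq_bot_iff]
      intro w hw
      have h3 : B.mulVecLin w ∈ W.map B.mulVecLin := ⟨w, hw, rfl⟩
      rw [h2, Submodule.mem_bot, mulVecLin_apply] at h3
      exact hB.B_inj (by rw [h3, mulVec_zero])
  rw [eq_top_iff]
  intro v _
  have h2 : B.mulVecLin v ∈ Y := by rw [← hr]; exact ⟨_, rfl⟩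
  rw [← h1] at h2
  obtain ⟨w, hw, hw'⟩ := h2
  rw [mulVecLin_apply, mulVecLin_apply] at hw'
  rw [← hB.B_inj hw']
  exact hw

theorem gram_apply (hB : Frame Ω H K B) (v w : κ → ℂ) :
    bw Ω (B *ᵥ v) (B *ᵥ w) = bw K v w := by
  unfold bw
  have h1 : (B *ᵥ v) = v ᵥ* Bᵀ := (vecMul_transpose B v).symm
  rw [h1, mulVec_mulVec, ← dotProduct_mulVec, mulVec_mulVec, ← Matrix.mul_assoc, hB.gram]

end Frame

/-- The standard symplectic matrix of size two. -/
def J2 : Matrix (Fin 2) (Fin 2) ℂ := !![0, 1; -1, 0]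

/-- The standard symplectic matrix of size four. -/
def J4 : Matrix (Fin 4) (Fin 4) ℂ := !![0, 1, 0, 0; -1, 0, 0, 0; 0, 0, 0, 1; 0, 0, -1, 0]

theorem J2_sq : J2 * J2 = -1 := by
  ext i j
  fin_cases i <;> fin_cases j <;> simp [J2, Matrix.mul_apply, Fin.sum_univ_two]

theorem J2_tr : J2ᵀ = -J2 := by
  ext i j
  fin_cases i <;> fin_cases j <;> simp [J2]

theorem J4_sq : J4 * J4 = -1 := by
  ext i j
  fin_cases i <;> fin_cases j <;> simp [J4, Matrix.mul_apply, Fin.sum_univ_four]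

theorem J4_tr : J4ᵀ = -J4 := by
  ext i j
  fin_cases i <;> fin_cases j <;> simp [J4]

theorem gram_entry (Ω : Matrix ι ι ℂ) (B : Matrix ι κ ℂ) (i j : κ) :
    (Bᵀ * Ω * B) i j = bw Ω (fun k => B k i) (fun k => B k j) := by
  unfold bw
  rw [Matrix.mul_assoc, mul_apply]
  simp only [dotProduct, mulVec, transpose_apply, mul_apply]

theorem exists_frame (hS : Sys Ω H) {Y : Submodule ℂ (ι → ℂ)} (hY : Stable H Y) (h0 : Y ≠ ⊥)
    (h4 : finrank ℂ Y ≤ 4) :
    (∃ B : Matrix ι (Fin 2) ℂ, Frame Ω H J2 B ∧ LinearMap.range B.mulVecLin = Y) ∨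
    ∃ B : Matrix ι (Fin 4) ℂ, Frame Ω H J4 B ∧ LinearMap.range B.mulVecLin = Y := by
  obtain ⟨u, hu, hu0⟩ := Y.ne_bot_iff.mp h0
  have hex : ∀ {u : ι → ℂ} (_ : u ∈ Y) (_ : u ≠ 0), ∃ v ∈ Y, bw Ω u v = 1 := by
    intro u hu hu0
    by_contra hcon
    push Not at hcon
    apply hu0
    refine hY.nondeg hS hu fun w hw => ?_
    by_contra hne
    apply hcon ((bw Ω u w)⁻¹ • w) (Y.smul_mem _ hw)
    rw [bw_smul_right, inv_mul_cancel₀ hne]
  obtain ⟨v, hv, huv⟩ := hex hu hu0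
  have hvu : bw Ω v u = -1 := by rw [bw_swap hS.alt, huv]
  have hswap := fun a b => bw_swap hS.alt (Ω := Ω) a b
  have hself := fun a => bw_self hS.alt (Ω := Ω) a
  by_cases hspan : ∀ w ∈ Y, w = bw Ω w v • u + (-bw Ω w u) • v
  · left
    let B : Matrix ι (Fin 2) ℂ := of fun k j => ![u k, v k] j
    have hc0 : (fun k => B k 0) = u := by funext k; simp [B]
    have hc1 : (fun k => B k 1) = v := by funext k; simp [B]
    have hBv : ∀ w : Fin 2 → ℂ, B *ᵥ w = w 0 • u + w 1 • v := by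
      intro w
      funext k
      simp only [mulVec, dotProduct, Fin.sum_univ_two, B, of_apply, Pi.add_apply, Pi.smul_apply,
        smul_eq_mul, cons_val_zero, cons_val_one]
      ring
    have hr : LinearMap.range B.mulVecLin = Y := by
      apply le_antisymm
      · rintro _ ⟨w, rfl⟩
        rw [mulVecLin_apply, hBv]
        exact Y.add_mem (Y.smul_mem _ hu) (Y.smul_mem _ hv)
      · intro w hw
        refine ⟨![bw Ω w v, -bw Ω w u], ?_⟩
        rw [mulVecLin_apply, hBv]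
        exact (hspan w hw).symm
    refine ⟨B, ⟨J2_sq, J2_tr, ?_, ?_⟩, hr⟩
    · ext i j
      rw [gram_entry]
      fin_cases i <;> fin_cases j <;> simp only [Fin.zero_eta, Fin.mk_one, hc0, hc1] <;>
        simp [J2, hself, huv, hvu]
    · intro X hX
      have h1 : ∀ j, ∃ r : Fin 2 → ℂ, B *ᵥ r = X *ᵥ (fun k => B k j) := by
        intro j
        have h2 : (fun k => B k j) ∈ Y := by
          fin_cases j
          · change (fun k => B k 0) ∈ Y
            rw [hc0]; exact hu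
          · change (fun k => B k 1) ∈ Y
            rw [hc1]; exact hv
        have h3 := hY X hX _ h2
        rw [← hr] at h3
        exact (Frame.mem_range B).1 h3
      choose R hR using h1
      refine ⟨of fun i j => R j i, ?_⟩
      ext k j
      have h2 := congrFun (hR j) k
      rw [mul_apply, mul_apply]
      exact h2.symm
  · right
    push Not at hspan
    obtain ⟨w, hw, hw0⟩ := hspan
    set w' : ι → ℂ := w - (bw Ω w v • u + (-bw Ω w u) • v) with hw'
    have hw'Y : w' ∈ Y := Y.sub_mem hw (Y.add_mem (Y.smul_mem _ hu) (Y.smul_mem _ hv))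
    have hw'0 : w' ≠ 0 := by
      intro h; exact hw0 (sub_eq_zero.mp h)
    have e1 : bw Ω w' u = 0 := by
      rw [hw', bw_sub_left, bw_add_left, bw_smul_left, bw_smul_left, hself, hvu]; ring
    have e2 : bw Ω w' v = 0 := by
      rw [hw', bw_sub_left, bw_add_left, bw_smul_left, bw_smul_left, hself, huv]; ring
    obtain ⟨z, hz, hwz⟩ := hex hw'Y hw'0
    set z' : ι → ℂ := z - (bw Ω z v • u + (-bw Ω z u) • v) with hz'
    have hz'Y : z' ∈ Y := Y.sub_mem hz (Y.add_mem (Y.smul_mem _ hu) (Y.smul_mem _ hv))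
    have f1 : bw Ω z' u = 0 := by
      rw [hz', bw_sub_left, bw_add_left, bw_smul_left, bw_smul_left, hself, hvu]; ring
    have f2 : bw Ω z' v = 0 := by
      rw [hz', bw_sub_left, bw_add_left, bw_smul_left, bw_smul_left, hself, huv]; ring
    have f3 : bw Ω w' z' = 1 := by
      rw [hz', bw_sub_right, bw_add_right, bw_smul_right, bw_smul_right, hwz, e1, e2]; ring
    have e1' : bw Ω u w' = 0 := by rw [hswap, e1, neg_zero]
    have e2' : bw Ω v w' = 0 := by rw [hswap, e2, neg_zero]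
    have f1' : bw Ω u z' = 0 := by rw [hswap, f1, neg_zero]
    have f2' : bw Ω v z' = 0 := by rw [hswap, f2, neg_zero]
    have f3' : bw Ω z' w' = -1 := by rw [hswap, f3]
    let B : Matrix ι (Fin 4) ℂ := of fun k j => ![u k, v k, w' k, z' k] j
    have hc0 : (fun k => B k 0) = u := by funext k; simp [B]
    have hc1 : (fun k => B k 1) = v := by funext k; simp [B]
    have hc2 : (fun k => B k 2) = w' := by funext k; simp [B]
    have hc3 : (fun k => B k 3) = z' := by funext k; simp [B]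
    have hcY : ∀ j, (fun k => B k j) ∈ Y := by
      intro j
      fin_cases j
      · change (fun k => B k 0) ∈ Y
        rw [hc0]; exact hu
      · change (fun k => B k 1) ∈ Y
        rw [hc1]; exact hv
      · change (fun k => B k 2) ∈ Y
        rw [hc2]; exact hw'Y
      · change (fun k => B k 3) ∈ Y
        rw [hc3]; exact hz'Y
    have hgram : Bᵀ * Ω * B = J4 := by
      ext i j
      rw [gram_entry]
      fin_cases i <;> fin_cases j <;>
        simp only [Fin.zero_eta, Fin.mk_one, Fin.reduceFinMk, hc0, hc1, hc2, hc3] <;>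
        simp [J4, hself, huv, hvu, e1, e2, f1, f2, f3, e1', e2', f1', f2', f3']
    have hle : LinearMap.range B.mulVecLin ≤ Y := by
      rintro _ ⟨w, rfl⟩
      rw [mulVecLin_apply]
      have h1 : B *ᵥ w = ∑ j, w j • fun k => B k j := by
        funext k
        simp only [mulVec, dotProduct, Finset.sum_apply, Pi.smul_apply, smul_eq_mul]
        exact Finset.sum_congr rfl fun _ _ => mul_comm _ _
      rw [h1]
      exact Y.sum_mem fun j _ => Y.smul_mem _ (hcY j)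
    have hinj : Function.Injective B.mulVecLin := by
      rw [injective_iff_map_eq_zero]
      intro x hx
      rw [mulVecLin_apply] at hx
      have h1 : (Bᵀ * Ω * B) *ᵥ x = 0 := by rw [← mulVec_mulVec, hx, mulVec_zero]
      rw [hgram] at h1
      have h2 : (J4 * J4) *ᵥ x = 0 := by rw [← mulVec_mulVec, h1, mulVec_zero]
      rw [J4_sq, neg_mulVec, one_mulVec, neg_eq_zero] at h2
      exact h2
    have hr : LinearMap.range B.mulVecLin = Y := by
      refine Submodule.eq_of_le_of_finrank_le hle ?_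
      rw [LinearMap.finrank_range_of_inj hinj, Module.finrank_fin_fun]
      exact h4
    refine ⟨B, ⟨J4_sq, J4_tr, hgram, ?_⟩, hr⟩
    intro X hX
    have h1 : ∀ j, ∃ r : Fin 4 → ℂ, B *ᵥ r = X *ᵥ (fun k => B k j) := by
      intro j
      have h3 := hY X hX _ (hcY j)
      rw [← hr] at h3
      exact (Frame.mem_range B).1 h3
    choose R hR using h1
    refine ⟨of fun i j => R j i, ?_⟩
    ext k j
    have h2 := congrFun (hR j) k
    rw [mul_apply, mul_apply]
    exact h2.symm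

end Pool.Agent.V5helper88.HR
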