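import Pool.Agent.V5helper88.HR.G18

/-!
Forms all of whose complete contractions vanish.
-/

set_option autoImplicit false

namespace Pool.Agent.V5helper88.HR

open Matrix Module Function

section c2

variable {α : Type} {k : ℕ}

/-- Two values followed by a function. -/
def c2 (x y : α) (w : Fin k × Fin 2 → α) : Fin (k + 1) × Fin 2 → α := fun p =>
  Fin.cases (motive := fun _ => α) (if p.2 = 0 then x else y) (fun i => w (i, p.2)) p.1

theorem c2_zero (x y : α) (w : Fin k × Fin 2 → α) : c2 x y w (0, 0) = x := rfl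

theorem c2_one (x y : α) (w : Fin k × Fin 2 → α) : c2 x y w (0, 1) = y := rfl

theorem c2_succ (x y : α) (w : Fin k × Fin 2 → α) (i : Fin k) (j : Fin 2) :
    c2 x y w (i.succ, j) = w (i, j) := rfl

theorem c2_eta (v : Fin (k + 1) × Fin 2 → α) :
    c2 (v (0, 0)) (v (0, 1)) (fun p => v (p.1.succ, p.2)) = v := by
  funext ⟨i, j⟩
  refine Fin.cases ?_ (fun i => ?_) i
  · fin_cases j <;> rfl
  · rfl

theorem c2_update (x y : α) (w : Fin k × Fin 2 → α) (p : Fin k × Fin 2) (z : α) :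
    update (c2 x y w) (p.1.succ, p.2) z = c2 x y (update w p z) := by
  funext ⟨i, j⟩
  refine Fin.cases ?_ (fun i => ?_) i
  · rw [update_of_ne]
    · fin_cases j <;> rfl
    · intro h
      exact Fin.succ_ne_zero _ (Prod.mk.inj h).1.symm
  · rw [c2_succ, update_apply, update_apply]
    simp only [Prod.mk.injEq, Fin.succ_inj, c2_succ, Prod.ext_iff]

theorem c2_update0 (x y : α) (w : Fin k × Fin 2 → α) (z : α) :
    update (c2 x y w) (0, 0) z = c2 z y w := by
  funext ⟨i, j⟩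
  refine Fin.cases ?_ (fun i => ?_) i
  · fin_cases j
    · exact update_self _ _ _
    · rw [update_of_ne (by simp)]
      rfl
  · rw [update_of_ne (by simp [Fin.succ_ne_zero])]
    rfl

theorem c2_update1 (x y : α) (w : Fin k × Fin 2 → α) (z : α) :
    update (c2 x y w) (0, 1) z = c2 x z w := by
  funext ⟨i, j⟩
  refine Fin.cases ?_ (fun i => ?_) i
  · fin_cases j
    · rw [update_of_ne (by simp)]
      rfl
    · exact update_self _ _ _
  · rw [update_of_ne (by simp [Fin.succ_ne_zero])]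
    rfl

theorem c2_comp {β : Type} (f : α → β) (x y : α) (w : Fin k × Fin 2 → α) :
    (fun p => f (c2 x y w p)) = c2 (f x) (f y) (fun p => f (w p)) := by
  funext ⟨i, j⟩
  refine Fin.cases ?_ (fun i => ?_) i
  · fin_cases j <;> rfl
  · rfl

theorem sum_c2 {M : Type} [AddCommMonoid M] (f : Fin (k + 1) × Fin 2 → M) :
    ∑ p, f p = f (0, 0) + f (0, 1) + ∑ p : Fin k × Fin 2, f (p.1.succ, p.2) := by
  rw [Fintype.sum_prod_type, Fin.sum_univ_succ, Fintype.sum_prod_type, Fin.sum_univ_two]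

/-- Functions on `Fin (k + 1) × Fin 2`. -/
def ec2 (α : Type) (k : ℕ) : (α × α × (Fin k × Fin 2 → α)) ≃ (Fin (k + 1) × Fin 2 → α) where
  toFun t := c2 t.1 t.2.1 t.2.2
  invFun v := (v (0, 0), v (0, 1), fun p => v (p.1.succ, p.2))
  left_inv t := rfl
  right_inv v := c2_eta v

end c2

variable {ι : Type} [Fintype ι] [DecidableEq ι] {Ω : Matrix ι ι ℂ}
  {H : Submodule ℂ (Matrix ι ι ℂ)} {k : ℕ}

/-- The contraction of the first two variables with a bivector. -/
noncomputable def con1 (Q : Matrix ι ι ℂ) (φ : (ι → ℂ) [⋀^Fin (k + 1) × Fin 2]→ₗ[ℂ] ℂ) :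
    (ι → ℂ) [⋀^Fin k × Fin 2]→ₗ[ℂ] ℂ :=
  { MultilinearMap.mk' (fun w : Fin k × Fin 2 → ι → ℂ =>
      ∑ i, ∑ j, Q i j * φ (c2 (Pi.single i 1) (Pi.single j 1) w))
      (fun w p x y => by
        simp only [← c2_update]
        rw [← Finset.sum_add_distrib]
        refine Finset.sum_congr rfl fun i _ => ?_
        rw [← Finset.sum_add_distrib]
        refine Finset.sum_congr rfl fun j _ => ?_
        rw [φ.map_update_add, mul_add])
      (fun w p z x => by
        simp only [← c2_update]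
        rw [Finset.smul_sum]
        refine Finset.sum_congr rfl fun i _ => ?_
        rw [Finset.smul_sum]
        refine Finset.sum_congr rfl fun j _ => ?_
        rw [φ.map_update_smul, smul_eq_mul, smul_eq_mul]
        ring) with
    map_eq_zero_of_eq' := fun w p q h hpq => by
      change ∑ i, ∑ j, Q i j * φ (c2 (Pi.single i 1) (Pi.single j 1) w) = 0
      refine Finset.sum_eq_zero fun i _ => Finset.sum_eq_zero fun j _ => ?_
      rw [φ.map_eq_zero_of_eq _ (i := (p.1.succ, p.2)) (j := (q.1.succ, q.2)), mul_zero]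
      · rw [c2_succ, c2_succ]
        exact h
      · intro h0
        apply hpq
        have h1 := Prod.mk.inj h0
        exact Prod.ext (Fin.succ_inj.mp h1.1) h1.2 }

theorem con1_apply (Q : Matrix ι ι ℂ) (φ : (ι → ℂ) [⋀^Fin (k + 1) × Fin 2]→ₗ[ℂ] ℂ)
    (w : Fin k × Fin 2 → ι → ℂ) :
    con1 Q φ w = ∑ i, ∑ j, Q i j * φ (c2 (Pi.single i 1) (Pi.single j 1) w) := rfl

/-- The complete contraction. -/
noncomputable def full (Q : Fin k → Matrix ι ι ℂ) (φ : (ι → ℂ) [⋀^Fin k × Fin 2]→ₗ[ℂ] ℂ) : ℂ :=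
  ∑ v : Fin k × Fin 2 → ι, (∏ i, Q i (v (i, 0)) (v (i, 1))) * φ (fun p => Pi.single (v p) 1)

theorem full_succ (Q₀ : Matrix ι ι ℂ) (Q : Fin k → Matrix ι ι ℂ)
    (φ : (ι → ℂ) [⋀^Fin (k + 1) × Fin 2]→ₗ[ℂ] ℂ) :
    full (Fin.cons Q₀ Q : Fin (k + 1) → Matrix ι ι ℂ) φ = full Q (con1 Q₀ φ) := by
  unfold full
  rw [← (ec2 ι k).sum_comp, Fintype.sum_prod_type]
  simp only [Fintype.sum_prod_type]
  have h1 : ∀ (i j : ι) (w : Fin k × Fin 2 → ι),
      (∏ l, (Fin.cons Q₀ Q : Fin (k + 1) → Matrix ι ι ℂ) l ((ec2 ι k) (i, j, w) (l, 0))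
        ((ec2 ι k) (i, j, w) (l, 1)))
        * φ (fun p => Pi.single ((ec2 ι k) (i, j, w) p) 1)
      = (∏ l, Q l (w (l, 0)) (w (l, 1))) * (Q₀ i j *
        φ (c2 (Pi.single i 1) (Pi.single j 1) fun p => Pi.single (w p) 1)) := by
    intro i j w
    rw [Fin.prod_univ_succ]
    have h2 : (fun p => (Pi.single ((ec2 ι k) (i, j, w) p) 1 : ι → ℂ))
        = c2 (Pi.single i 1) (Pi.single j 1) fun p => Pi.single (w p) 1 :=
      c2_comp (fun t => (Pi.single t 1 : ι → ℂ)) i j w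
    rw [h2]
    change (Q₀ i j * ∏ l, Q l (w (l, 0)) (w (l, 1))) * _ = _
    ring
  simp only [h1]
  rw [Finset.sum_congr rfl fun i _ => Finset.sum_comm, Finset.sum_comm]
  refine Finset.sum_congr rfl fun w _ => ?_
  rw [con1_apply, Finset.mul_sum]
  refine Finset.sum_congr rfl fun i _ => ?_
  rw [Finset.mul_sum]

/-- Annihilated by the Lie algebra. -/
def Kil {κ : Type} [Fintype κ] [DecidableEq κ] (H : Submodule ℂ (Matrix ι ι ℂ))
    (φ : (ι → ℂ) [⋀^κ]→ₗ[ℂ] ℂ) : Prop :=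
  ∀ X ∈ H, ∀ v, ∑ s, φ (update v s (X *ᵥ v s)) = 0

theorem Sys.bivector (hS : Sys Ω H) {Q : Matrix ι ι ℂ} (hQ : Cm H (Q * Ω)) {X : Matrix ι ι ℂ}
    (hX : X ∈ H) : X * Q + Q * Xᵀ = 0 := by
  have h1 := hQ X hX
  have h2 : Ω * X = -(Xᵀ * Ω) := by rw [hS.sk X hX, neg_neg]
  have h3 : (X * Q + Q * Xᵀ) * Ω = 0 := by
    rw [add_mul, mul_assoc, ← h1, mul_assoc, mul_assoc, h2, mul_neg]
    abel
  have h4 : Ω * (X * Q + Q * Xᵀ)ᵀ = Ω * 0 := by
    have h5 := congrArg transpose h3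
    rw [transpose_mul, hS.alt, transpose_zero, neg_mul, neg_eq_zero] at h5
    rw [h5, mul_zero]
  have h5 := congrArg transpose (hS.mul_left_inj h4)
  rwa [transpose_transpose, transpose_zero] at h5

theorem bil2 (φ : (ι → ℂ) [⋀^Fin (k + 1) × Fin 2]→ₗ[ℂ] ℂ) (w : Fin k × Fin 2 → ι → ℂ) :
    ∃ m : (ι → ℂ) →ₗ[ℂ] (ι → ℂ) →ₗ[ℂ] ℂ, ∀ x y, m x y = φ (c2 x y w) := by
  have h : ((0, 0) : Fin (k + 1) × Fin 2) ≠ (0, 1) := by simp
  refine ⟨bil φ (c2 0 0 w) h, fun x y => ?_⟩
  rw [bil_apply, c2_update0, c2_update1]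

theorem con1_kil (hS : Sys Ω H) {Q : Matrix ι ι ℂ} (hQ : Cm H (Q * Ω))
    {φ : (ι → ℂ) [⋀^Fin (k + 1) × Fin 2]→ₗ[ℂ] ℂ} (hφ : Kil H φ) : Kil H (con1 Q φ) := by
  intro X hX w
  simp only [con1_apply]
  have h1 : ∀ i j, ∑ p : Fin k × Fin 2, Q i j *
      φ (c2 (Pi.single i 1) (Pi.single j 1) (update w p (X *ᵥ w p)))
      = -(Q i j * (φ (c2 (X *ᵥ Pi.single i 1) (Pi.single j 1) w)
        + φ (c2 (Pi.single i 1) (X *ᵥ Pi.single j 1) w))) := by
    intro i j
    have h2 := hφ X hX (c2 (Pi.single i 1) (Pi.single j 1) w)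
    rw [sum_c2, c2_zero, c2_one, c2_update0, c2_update1] at h2
    simp only [c2_update, c2_succ, Prod.mk.eta] at h2
    rw [← Finset.mul_sum]
    linear_combination Q i j * h2
  have h3 : ∀ p : Fin k × Fin 2, ∑ i, ∑ j, Q i j *
      φ (c2 (Pi.single i 1) (Pi.single j 1) (update w p (X *ᵥ w p)))
      = ∑ t : ι × ι, Q t.1 t.2 *
      φ (c2 (Pi.single t.1 1) (Pi.single t.2 1) (update w p (X *ᵥ w p))) := fun p => by
    rw [Fintype.sum_prod_type]
  simp only [h3]
  rw [Finset.sum_comm, Finset.sum_congr rfl fun t _ => h1 t.1 t.2, Fintype.sum_prod_type]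
  simp only [Finset.sum_neg_distrib]
  rw [neg_eq_zero]
  obtain ⟨m, hm⟩ := bil2 φ w
  simp only [← hm]
  have e1 : ∀ i j, m (X *ᵥ Pi.single i 1) (Pi.single j 1)
      = ∑ l, X l i * m (Pi.single l 1) (Pi.single j 1) := by
    intro i j
    rw [mulVec_basis, LinearMap.map_sum₂]
    refine Finset.sum_congr rfl fun l _ => ?_
    rw [LinearMap.map_smul₂, smul_eq_mul]
  have e2 : ∀ i j, m (Pi.single i 1) (X *ᵥ Pi.single j 1)
      = ∑ l, X l j * m (Pi.single i 1) (Pi.single l 1) := by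
    intro i j
    rw [mulVec_basis, map_sum]
    refine Finset.sum_congr rfl fun l _ => ?_
    rw [map_smul, smul_eq_mul]
  simp only [e1, e2, mul_add, Finset.sum_add_distrib]
  have h4 : ∑ i, ∑ j, Q i j * ∑ l, X l i * m (Pi.single l 1) (Pi.single j 1)
      = ∑ l, ∑ j, (X * Q) l j * m (Pi.single l 1) (Pi.single j 1) := by
    simp only [Finset.mul_sum, mul_apply, Finset.sum_mul]
    rw [Finset.sum_congr rfl fun i _ => Finset.sum_comm, Finset.sum_comm]
    refine Finset.sum_congr rfl fun l _ => ?_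
    rw [Finset.sum_comm]
    refine Finset.sum_congr rfl fun j _ => Finset.sum_congr rfl fun i _ => ?_
    ring
  have h5 : ∑ i, ∑ j, Q i j * ∑ l, X l j * m (Pi.single i 1) (Pi.single l 1)
      = ∑ i, ∑ l, (Q * Xᵀ) i l * m (Pi.single i 1) (Pi.single l 1) := by
    refine Finset.sum_congr rfl fun i _ => ?_
    simp only [Finset.mul_sum, mul_apply, Finset.sum_mul, transpose_apply]
    rw [Finset.sum_comm]
    refine Finset.sum_congr rfl fun j _ => Finset.sum_congr rfl fun l _ => ?_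
    ring
  rw [h4, h5, ← Finset.sum_add_distrib]
  refine Finset.sum_eq_zero fun i _ => ?_
  rw [← Finset.sum_add_distrib]
  refine Finset.sum_eq_zero fun j _ => ?_
  rw [← add_mul, ← Matrix.add_apply, hS.bivector hQ hX, Matrix.zero_apply, zero_mul]

/-- A permutation which moves two given elements to two given places. -/
theorem exists_move {κ : Type} [DecidableEq κ] {p q s s' : κ} (hpq : p ≠ q) (hs : s ≠ s') :
    ∃ σ : Equiv.Perm κ, σ p = s ∧ σ q = s' := by
  refine ⟨(Equiv.swap p s).trans (Equiv.swap (Equiv.swap p s q) s'), ?_, ?_⟩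
  · rw [Equiv.trans_apply, Equiv.swap_apply_left, Equiv.swap_apply_of_ne_of_ne _ hs]
    intro h
    apply hpq
    have h1 := congrArg (Equiv.swap p s) h
    rw [Equiv.swap_apply_self, Equiv.swap_apply_right] at h1
    exact h1
  · rw [Equiv.trans_apply, Equiv.swap_apply_left]

theorem prim_of_con1 {φ : (ι → ℂ) [⋀^Fin (k + 1) × Fin 2]→ₗ[ℂ] ℂ} (hφ : Kil H φ)
    (h : ∀ Q : Matrix ι ι ℂ, Cm H (Q * Ω) → con1 Q φ = 0) : Prim Ω H φ := by
  refine ⟨hφ, fun Q hQ s s' hs v => ?_⟩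
  obtain ⟨σ, h1, h2⟩ := exists_move (p := ((0, 0) : Fin (k + 1) × Fin 2)) (q := (0, 1))
    (by simp) hs
  have h3 := congrArg (fun ψ : (ι → ℂ) [⋀^Fin k × Fin 2]→ₗ[ℂ] ℂ =>
    ψ fun p => v (σ (p.1.succ, p.2))) (h Q hQ)
  simp only [con1_apply, AlternatingMap.zero_apply] at h3
  have h4 : ∀ i j, φ (update (update v s (Pi.single i 1)) s' (Pi.single j 1))
      = ((Equiv.Perm.sign σ : ℤ) : ℂ) *
        φ (c2 (Pi.single i 1) (Pi.single j 1) fun p => v (σ (p.1.succ, p.2))) := by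
    intro i j
    have h5 := φ.map_perm (update (update v s (Pi.single i 1)) s' (Pi.single j 1)) σ
    have h6 : (update (update v s (Pi.single i 1)) s' (Pi.single j 1)) ∘ σ
        = c2 (Pi.single i 1) (Pi.single j 1) fun p => v (σ (p.1.succ, p.2)) := by
      rw [← c2_eta ((update (update v s (Pi.single i 1)) s' (Pi.single j 1)) ∘ σ)]
      congr 1
      · rw [Function.comp_apply, h1, update_of_ne hs, update_self]
      · rw [Function.comp_apply, h2, update_self]
      · funext p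
        rw [Function.comp_apply, update_of_ne, update_of_ne]
        · rw [← h1]
          intro h0
          have := σ.injective h0
          exact Fin.succ_ne_zero _ (Prod.mk.inj this).1
        · rw [← h2]
          intro h0
          have := σ.injective h0
          exact Fin.succ_ne_zero _ (Prod.mk.inj this).1
    rw [h6, Units.smul_def, zsmul_eq_mul] at h5
    rw [h5, ← mul_assoc]
    have e5 : ((Equiv.Perm.sign σ : ℤ) : ℂ) * ((Equiv.Perm.sign σ : ℤ) : ℂ) = 1 := by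
      rcases Int.units_eq_one_or (Equiv.Perm.sign σ) with h | h <;> rw [h] <;> norm_num
    rw [e5, one_mul]
  have h5 : ∑ i, ∑ j, Q i j * φ (update (update v s (Pi.single i 1)) s' (Pi.single j 1))
      = ((Equiv.Perm.sign σ : ℤ) : ℂ) * ∑ i, ∑ j, Q i j *
        φ (c2 (Pi.single i 1) (Pi.single j 1) fun p => v (σ (p.1.succ, p.2))) := by
    rw [Finset.mul_sum]
    refine Finset.sum_congr rfl fun i _ => ?_
    rw [Finset.mul_sum]
    refine Finset.sum_congr rfl fun j _ => ?_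
    rw [h4]
    ring
  rw [h5, h3, mul_zero]

theorem con1_add (Q Q' : Matrix ι ι ℂ) (φ : (ι → ℂ) [⋀^Fin (k + 1) × Fin 2]→ₗ[ℂ] ℂ) :
    con1 (Q + Q') φ = con1 Q φ + con1 Q' φ := by
  ext w
  rw [AlternatingMap.add_apply, con1_apply, con1_apply, con1_apply, ← Finset.sum_add_distrib]
  refine Finset.sum_congr rfl fun i _ => ?_
  rw [← Finset.sum_add_distrib]
  refine Finset.sum_congr rfl fun j _ => ?_
  rw [Matrix.add_apply, add_mul]

theorem con1_smul (z : ℂ) (Q : Matrix ι ι ℂ) (φ : (ι → ℂ) [⋀^Fin (k + 1) × Fin 2]→ₗ[ℂ] ℂ) :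
    con1 (z • Q) φ = z • con1 Q φ := by
  ext w
  rw [AlternatingMap.smul_apply, con1_apply, con1_apply, Finset.smul_sum]
  refine Finset.sum_congr rfl fun i _ => ?_
  rw [Finset.smul_sum]
  refine Finset.sum_congr rfl fun j _ => ?_
  rw [Matrix.smul_apply, smul_eq_mul, smul_eq_mul, mul_assoc]

theorem con1_zero (φ : (ι → ℂ) [⋀^Fin (k + 1) × Fin 2]→ₗ[ℂ] ℂ) :
    con1 (0 : Matrix ι ι ℂ) φ = 0 := by
  ext w
  rw [con1_apply, AlternatingMap.zero_apply]
  refine Finset.sum_eq_zero fun i _ => Finset.sum_eq_zero fun j _ => ?_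
  rw [Matrix.zero_apply, zero_mul]

/-- Invariant forms all of whose complete contractions vanish. -/
theorem full_vanish (hS : Sys Ω H) (hd : ∀ Y, Block H Y → finrank ℂ Y ≤ 4)
    {S : Set (Matrix ι ι ℂ)} (hSc : ∀ Q ∈ S, Cm H (Q * Ω))
    (hSp : ∀ Q : Matrix ι ι ℂ, Cm H (Q * Ω) → Q ∈ Submodule.span ℂ S) :
    ∀ (k : ℕ) (φ : (ι → ℂ) [⋀^Fin k × Fin 2]→ₗ[ℂ] ℂ), Kil H φ →
      (∀ Q : Fin k → Matrix ι ι ℂ, (∀ i, Q i ∈ S) → full Q φ = 0) → φ = 0 := by
  intro k
  induction k with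
  | zero =>
    intro φ _ h
    have h1 := h (fun i => i.elim0) (fun i => i.elim0)
    unfold full at h1
    rw [Finset.sum_congr rfl fun v _ => by rw [Finset.prod_eq_one fun i _ => i.elim0, one_mul]]
      at h1
    have h2 : ∀ v : Fin 0 × Fin 2 → ι, φ (fun p => Pi.single (v p) 1) = φ 0 := by
      intro v
      congr 1
      funext p
      exact p.1.elim0
    rw [Finset.sum_congr rfl fun v _ => h2 v, Finset.sum_const, Finset.card_univ] at h1
    have h3 : Fintype.card (Fin 0 × Fin 2 → ι) = 1 := by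
      rw [Fintype.card_fun]
      simp
    rw [h3, one_smul] at h1
    ext w
    rw [AlternatingMap.zero_apply, ← h1]
    congr 1
    funext p
    exact p.1.elim0
  | succ k ih =>
    intro φ hφ h
    have h1 : ∀ Q ∈ S, con1 Q φ = 0 := by
      intro Q hQ
      refine ih _ (con1_kil hS (hSc Q hQ) hφ) fun Q' hQ' => ?_
      rw [← full_succ]
      refine h _ fun i => ?_
      refine Fin.cases ?_ (fun i => ?_) i
      · exact hQ
      · exact hQ' i
    haveI : Nonempty (Fin (k + 1) × Fin 2) := ⟨(0, 0)⟩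
    refine vanish hS hd (prim_of_con1 hφ fun Q hQ => ?_)
    refine Submodule.span_induction (p := fun Q _ => con1 Q φ = 0) ?_ ?_ ?_ ?_ (hSp Q hQ)
    · exact h1
    · exact con1_zero φ
    · intro x y _ _ hx hy
      rw [con1_add, hx, hy, add_zero]
    · intro z x _ hx
      rw [con1_smul, hx, smul_zero]

end Pool.Agent.V5helper88.HR
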