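import Pool.Agent.V5helper88.HR.G19
import Pool.Agent.V5helper88.HR.G20

/-!
Alternating forms on the rational homology and their complexification, products and pairings.
-/

set_option autoImplicit false

namespace Pool.Agent.V5helper88.HR

open Matrix Module Function Pool.Agent.Y102 Pool.Agent.W516.DR Pool.Agent.H204R3.GP
  Pool.Agent.W516.KC Pool.Agent.H204R3.SP Pool.Agent.N208.BT

noncomputable section

section cxf

variable {ι : Type} [Fintype ι] [DecidableEq ι] {V : Type} [AddCommGroup V] [Module ℚ V]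
  {κ : Type} [Fintype κ] [DecidableEq κ]

/-- The complexification of an alternating form, in coordinates. -/
def cxf (b : Basis ι ℚ V) (φ : V [⋀^κ]→ₗ[ℚ] ℚ) : (ι → ℂ) [⋀^κ]→ₗ[ℂ] ℂ :=
  { ∑ v : κ → ι, ((φ fun p => b (v p) : ℚ) : ℂ) •
      (MultilinearMap.mkPiAlgebra ℂ κ ℂ).compLinearMap
        (fun p => (LinearMap.proj (v p) : (ι → ℂ) →ₗ[ℂ] ℂ)) with
    map_eq_zero_of_eq' := fun w p q h hpq => by
      simp only [MultilinearMap.toFun_eq_coe, MultilinearMap.sum_apply, MultilinearMap.smul_apply,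
        MultilinearMap.compLinearMap_apply, MultilinearMap.mkPiAlgebra_apply, LinearMap.proj_apply,
        smul_eq_mul]
      have h1 : ∑ v : κ → ι, ((φ fun p => b (v p) : ℚ) : ℂ) * ∏ r, w r (v r)
          = ∑ v : κ → ι, -(((φ fun p => b (v p) : ℚ) : ℂ) * ∏ r, w r (v r)) := by
        conv_lhs => rw [← (Equiv.arrowCongr (Equiv.swap p q) (Equiv.refl ι)).sum_comp]
        refine Finset.sum_congr rfl fun v _ => ?_
        have e1 : ∀ r, (Equiv.arrowCongr (Equiv.swap p q) (Equiv.refl ι)) v r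
            = v (Equiv.swap p q r) := fun r => by
          simp [Equiv.arrowCongr]
        simp only [e1]
        have e2 : (φ fun r => b (v (Equiv.swap p q r))) = -φ fun r => b (v r) := by
          have := φ.map_swap (fun r => b (v r)) hpq
          exact this
        have e3 : ∏ r, w r (v (Equiv.swap p q r)) = ∏ r, w r (v r) := by
          rw [← Equiv.prod_comp (Equiv.swap p q)]
          refine Finset.prod_congr rfl fun r _ => ?_
          rw [Equiv.swap_apply_self]
          have e4 : w (Equiv.swap p q r) = w r := by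
            by_cases h3 : r = p
            · rw [h3, Equiv.swap_apply_left, h]
            · by_cases h4 : r = q
              · rw [h4, Equiv.swap_apply_right, h]
              · rw [Equiv.swap_apply_of_ne_of_ne h3 h4]
          rw [e4]
        rw [e2, e3]
        push_cast
        ring
      rw [Finset.sum_neg_distrib] at h1
      linear_combination (1 / 2 : ℂ) * h1 }

theorem cxf_apply (b : Basis ι ℚ V) (φ : V [⋀^κ]→ₗ[ℚ] ℚ) (w : κ → ι → ℂ) :
    cxf b φ w = ∑ v : κ → ι, ((φ fun p => b (v p) : ℚ) : ℂ) * ∏ r, w r (v r) := by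
  change (∑ v : κ → ι, ((φ fun p => b (v p) : ℚ) : ℂ) •
      (MultilinearMap.mkPiAlgebra ℂ κ ℂ).compLinearMap
        (fun p => (LinearMap.proj (v p) : (ι → ℂ) →ₗ[ℂ] ℂ))) w = _
  simp only [MultilinearMap.sum_apply, MultilinearMap.smul_apply,
    MultilinearMap.compLinearMap_apply, MultilinearMap.mkPiAlgebra_apply, LinearMap.proj_apply,
    smul_eq_mul]

theorem cxf_basis (b : Basis ι ℚ V) (φ : V [⋀^κ]→ₗ[ℚ] ℚ) (v : κ → ι) :
    cxf b φ (fun p => Pi.single (v p) 1) = ((φ fun p => b (v p) : ℚ) : ℂ) := by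
  rw [cxf_apply, Finset.sum_eq_single v]
  · rw [Finset.prod_eq_one, mul_one]
    intro p _
    rw [Pi.single_eq_same]
  · intro v' _ hv
    obtain ⟨p, hp⟩ := Function.ne_iff.mp hv
    rw [Finset.prod_eq_zero (Finset.mem_univ p), mul_zero]
    rw [Pi.single_apply, if_neg hp]
  · intro h; exact absurd (Finset.mem_univ _) h

theorem update_single (v : κ → ι) (s : κ) (t : ι) :
    update (fun p => (Pi.single (v p) 1 : ι → ℂ)) s (Pi.single t 1)
      = fun p => Pi.single (update v s t p) 1 := by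
  funext p
  by_cases h : p = s
  · subst h; rw [update_self, update_self]
  · rw [update_of_ne h, update_of_ne h]

/-- The derivation of a form with respect to a matrix. -/
def der (X : Matrix ι ι ℂ) (φ : (ι → ℂ) [⋀^κ]→ₗ[ℂ] ℂ) :
    MultilinearMap ℂ (fun _ : κ => ι → ℂ) ℂ :=
  ∑ s, φ.toMultilinearMap.compLinearMap
    (fun p => if p = s then Matrix.toLin' X else LinearMap.id)

theorem der_apply (X : Matrix ι ι ℂ) (φ : (ι → ℂ) [⋀^κ]→ₗ[ℂ] ℂ) (w : κ → ι → ℂ) :
    der X φ w = ∑ s, φ (update w s (X *ᵥ w s)) := by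
  unfold der
  rw [MultilinearMap.sum_apply]
  refine Finset.sum_congr rfl fun s _ => ?_
  rw [MultilinearMap.compLinearMap_apply]
  change φ _ = φ _
  congr 1
  funext p
  by_cases h : p = s
  · subst h; rw [update_self, if_pos rfl, toLin'_apply]
  · rw [update_of_ne h, if_neg h, LinearMap.id_apply]

theorem der_zero_of_basis {X : Matrix ι ι ℂ} {φ : (ι → ℂ) [⋀^κ]→ₗ[ℂ] ℂ}
    (h : ∀ v : κ → ι, ∑ s, ∑ t, X t (v s) * φ (fun p => Pi.single (update v s t p) 1) = 0)
    (w : κ → ι → ℂ) : ∑ s, φ (update w s (X *ᵥ w s)) = 0 := by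
  have h1 : der X φ = 0 := by
    refine Basis.ext_multilinear (fun _ => Pi.basisFun ℂ ι) fun v => ?_
    rw [der_apply, MultilinearMap.zero_apply, ← h v]
    refine Finset.sum_congr rfl fun s _ => ?_
    simp only [Pi.basisFun_apply]
    rw [mulVec_basis]
    have h2 := map_sum (φ.toMultilinearMap.toLinearMap
      (fun p => (Pi.single (v p) 1 : ι → ℂ)) s)
      (fun t => X t (v s) • (Pi.single t 1 : ι → ℂ)) Finset.univ
    change φ (update _ s _) = _ at h2
    rw [h2]
    refine Finset.sum_congr rfl fun t _ => ?_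
    change φ (update _ s _) = _
    rw [φ.map_update_smul, update_single, smul_eq_mul]
  rw [← der_apply, h1, MultilinearMap.zero_apply]

end cxf

variable {g : ℕ} {A : AbVar g} {b : Basis (Fin (2 * g)) ℚ A.H1} {k : ℕ}

theorem cxf_kil {κ : Type} [Fintype κ] [DecidableEq κ] {φ : A.H1 [⋀^κ]→ₗ[ℚ] ℚ}
    (h : ∀ X ∈ A.LA, ∀ v : κ → A.H1, ∑ s, φ (update v s (X (v s))) = 0) :
    Kil (HH b) (cxf b φ) := by
  intro Z hZ
  refine Submodule.span_induction
    (p := fun Z _ => ∀ w, ∑ s, cxf b φ (update w s (Z *ᵥ w s)) = 0) ?_ ?_ ?_ ?_ hZ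
  · rintro _ ⟨X, hX, rfl⟩
    refine der_zero_of_basis fun v => ?_
    have h1 := h X hX fun p => b (v p)
    have h2 : ∀ s, φ (update (fun p => b (v p)) s (X (b (v s))))
        = ∑ t, mt b X t (v s) * φ fun p => b (update v s t p) := by
      intro s
      rw [mt_apply]
      have h3 := map_sum (φ.toMultilinearMap.toLinearMap (fun p => b (v p)) s)
        (fun t => mt b X t (v s) • b t) Finset.univ
      change φ (update _ s _) = _ at h3
      rw [h3]
      refine Finset.sum_congr rfl fun t _ => ?_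
      change φ (update _ s _) = _
      rw [φ.map_update_smul, smul_eq_mul]
      congr 2
      funext p
      by_cases h : p = s
      · subst h; rw [update_self, update_self]
      · rw [update_of_ne h, update_of_ne h]
    rw [Finset.sum_congr rfl fun s _ => h2 s] at h1
    have h3 := congrArg (algebraMap ℚ ℂ) h1
    rw [map_zero, map_sum] at h3
    rw [← h3]
    refine Finset.sum_congr rfl fun s _ => ?_
    rw [map_sum]
    refine Finset.sum_congr rfl fun t _ => ?_
    rw [cxf_basis, map_mul]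
    rfl
  · intro w
    refine Finset.sum_eq_zero fun s _ => ?_
    rw [zero_mulVec]
    exact (cxf b φ).map_update_zero _ _
  · intro x y _ _ hx hy w
    simp only [add_mulVec]
    rw [Finset.sum_congr rfl fun s _ => (cxf b φ).map_update_add _ _ _ _,
      Finset.sum_add_distrib, hx, hy, add_zero]
  · intro z x _ hx w
    simp only [smul_mulVec]
    rw [Finset.sum_congr rfl fun s _ => (cxf b φ).map_update_smul _ _ _ _, ← Finset.smul_sum,
      hx, smul_zero]

/-- Alternating forms of degree `2 k`. -/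
abbrev AF (A : AbVar g) (k : ℕ) : Type := A.H1 [⋀^Fin k × Fin 2]→ₗ[ℚ] ℚ

/-- The tensor product of bilinear forms. -/
def tens (B : Fin k → A.H1 →ₗ[ℚ] A.H1 →ₗ[ℚ] ℚ) :
    MultilinearMap ℚ (fun _ : Fin k × Fin 2 => A.H1) ℚ :=
  MultilinearMap.mk' (fun v => ∏ i, B i (v (i, 0)) (v (i, 1)))
    (by
      rintro v ⟨i, j⟩ x y
      have h1 : ∀ z : A.H1, ∏ l ∈ Finset.univ.erase i, B l (update v (i, j) z (l, 0))
          (update v (i, j) z (l, 1)) = ∏ l ∈ Finset.univ.erase i, B l (v (l, 0)) (v (l, 1)) := by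
        intro z
        refine Finset.prod_congr rfl fun l hl => ?_
        have hl' : l ≠ i := Finset.ne_of_mem_erase hl
        rw [update_of_ne (by simp [hl']), update_of_ne (by simp [hl'])]
      rw [← Finset.mul_prod_erase _ _ (Finset.mem_univ i),
        ← Finset.mul_prod_erase _ _ (Finset.mem_univ i),
        ← Finset.mul_prod_erase _ _ (Finset.mem_univ i), h1, h1, h1, ← add_mul]
      congr 1
      fin_cases j <;> simp [Function.update_apply])
    (by
      rintro v ⟨i, j⟩ c x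
      have h1 : ∀ z : A.H1, ∏ l ∈ Finset.univ.erase i, B l (update v (i, j) z (l, 0))
          (update v (i, j) z (l, 1)) = ∏ l ∈ Finset.univ.erase i, B l (v (l, 0)) (v (l, 1)) := by
        intro z
        refine Finset.prod_congr rfl fun l hl => ?_
        have hl' : l ≠ i := Finset.ne_of_mem_erase hl
        rw [update_of_ne (by simp [hl']), update_of_ne (by simp [hl'])]
      rw [← Finset.mul_prod_erase _ _ (Finset.mem_univ i),
        ← Finset.mul_prod_erase _ _ (Finset.mem_univ i), h1, h1, smul_eq_mul, ← mul_assoc]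
      congr 1
      fin_cases j <;> simp [Function.update_apply])

theorem tens_apply (B : Fin k → A.H1 →ₗ[ℚ] A.H1 →ₗ[ℚ] ℚ) (v : Fin k × Fin 2 → A.H1) :
    tens B v = ∏ i, B i (v (i, 0)) (v (i, 1)) := rfl

theorem tens_kills {B : Fin k → A.H1 →ₗ[ℚ] A.H1 →ₗ[ℚ] ℚ} {X : Module.End ℚ A.H1}
    (hB : ∀ i u v, B i (X u) v + B i u (X v) = 0) (v : Fin k × Fin 2 → A.H1) :
    ∑ s, tens B (update v s (X (v s))) = 0 := by
  rw [Fintype.sum_prod_type]
  refine Finset.sum_eq_zero fun i _ => ?_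
  rw [Fin.sum_univ_two]
  have h1 : ∀ (j : Fin 2) (z : A.H1), ∏ l ∈ Finset.univ.erase i, B l (update v (i, j) z (l, 0))
      (update v (i, j) z (l, 1)) = ∏ l ∈ Finset.univ.erase i, B l (v (l, 0)) (v (l, 1)) := by
    intro j z
    refine Finset.prod_congr rfl fun l hl => ?_
    have hl' : l ≠ i := Finset.ne_of_mem_erase hl
    rw [update_of_ne (by simp [hl']), update_of_ne (by simp [hl'])]
  rw [tens_apply, tens_apply, ← Finset.mul_prod_erase _ _ (Finset.mem_univ i),
    ← Finset.mul_prod_erase _ _ (Finset.mem_univ i), h1, h1, ← add_mul]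
  have h2 : B i (update v (i, 0) (X (v (i, 0))) (i, 0)) (update v (i, 0) (X (v (i, 0))) (i, 1))
      + B i (update v (i, 1) (X (v (i, 1))) (i, 0)) (update v (i, 1) (X (v (i, 1))) (i, 1))
      = 0 := by
    rw [update_self, update_of_ne (by simp), update_of_ne (by simp), update_self]
    exact hB i _ _
  rw [h2, zero_mul]

/-- The product of forms of degree two. -/
def prd (B : Fin k → A.H1 →ₗ[ℚ] A.H1 →ₗ[ℚ] ℚ) : AF A k :=
  MultilinearMap.alternatization (tens B)

theorem prd_apply (B : Fin k → A.H1 →ₗ[ℚ] A.H1 →ₗ[ℚ] ℚ) (v : Fin k × Fin 2 → A.H1) :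
    prd B v = ∑ σ : Equiv.Perm (Fin k × Fin 2),
      ((Equiv.Perm.sign σ : ℤ) : ℚ) * tens B (v ∘ σ) := by
  unfold prd
  rw [MultilinearMap.alternatization_apply]
  refine Finset.sum_congr rfl fun σ _ => ?_
  rw [MultilinearMap.domDomCongr_apply, Units.smul_def, zsmul_eq_mul]
  rfl

theorem prd_kills {B : Fin k → A.H1 →ₗ[ℚ] A.H1 →ₗ[ℚ] ℚ} {X : Module.End ℚ A.H1}
    (hB : ∀ i u v, B i (X u) v + B i u (X v) = 0) (v : Fin k × Fin 2 → A.H1) :
    ∑ s, prd B (update v s (X (v s))) = 0 := by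
  simp only [prd_apply]
  rw [Finset.sum_comm]
  refine Finset.sum_eq_zero fun σ _ => ?_
  rw [← Finset.mul_sum]
  have h1 := tens_kills hB (v ∘ σ)
  rw [← Equiv.sum_comp σ]
  have h2 : ∀ k, Function.update v (σ k) (X (v (σ k))) ∘ σ
      = Function.update (v ∘ σ) k (X ((v ∘ σ) k)) := by
    intro k
    funext l
    simp only [Function.comp_apply, Function.update_apply, EmbeddingLike.apply_eq_iff_eq]
  simp only [h2]
  rw [h1, mul_zero]

/-- The inverse of the matrix of the Riemann form. -/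
def RR (b : Basis (Fin (2 * g)) ℚ A.H1) : Matrix (Fin (2 * g)) (Fin (2 * g)) ℚ := (Om b)⁻¹

theorem RR_mul (b : Basis (Fin (2 * g)) ℚ A.H1) : RR b * Om b = 1 :=
  Matrix.nonsing_inv_mul _ (isUnit_iff_ne_zero.mpr (Om_det b))

theorem mul_RR (b : Basis (Fin (2 * g)) ℚ A.H1) : Om b * RR b = 1 :=
  Matrix.mul_nonsing_inv _ (isUnit_iff_ne_zero.mpr (Om_det b))

theorem RR_tr (b : Basis (Fin (2 * g)) ℚ A.H1) : (RR b)ᵀ = -RR b := by
  have h1 : (RR b)ᵀ * Om b = -1 := by
    have h2 := congrArg transpose (mul_RR b)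
    rw [transpose_mul, Om_tr, transpose_one, mul_neg] at h2
    rw [← h2, neg_neg]
  calc (RR b)ᵀ = (RR b)ᵀ * (Om b * RR b) := by rw [mul_RR, mul_one]
    _ = ((RR b)ᵀ * Om b) * RR b := by rw [mul_assoc]
    _ = -RR b := by rw [h1, neg_one_mul]

/-- The pairing of forms induced by the Riemann form. -/
def pr (b : Basis (Fin (2 * g)) ℚ A.H1) (φ ψ : AF A k) : ℚ :=
  ∑ v : Fin k × Fin 2 → Fin (2 * g), ∑ w : Fin k × Fin 2 → Fin (2 * g),
    (∏ p, RR b (v p) (w p)) * φ (fun p => b (v p)) * ψ (fun p => b (w p))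

theorem pr_prd (φ : AF A k) (B : Fin k → A.H1 →ₗ[ℚ] A.H1 →ₗ[ℚ] ℚ) :
    pr b φ (prd B) = (Fintype.card (Fin k × Fin 2)).factorial *
      ∑ v : Fin k × Fin 2 → Fin (2 * g), ∑ w : Fin k × Fin 2 → Fin (2 * g),
      (∏ p, RR b (v p) (w p)) * φ (fun p => b (v p)) * tens B (fun p => b (w p)) := by
  unfold pr
  simp only [prd_apply, Finset.mul_sum]
  have h1 : ∀ σ : Equiv.Perm (Fin k × Fin 2),
      ∑ v : Fin k × Fin 2 → Fin (2 * g), ∑ w : Fin k × Fin 2 → Fin (2 * g),
        (∏ p, RR b (v p) (w p)) * φ (fun p => b (v p)) *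
          (((Equiv.Perm.sign σ : ℤ) : ℚ) * tens B ((fun p => b (w p)) ∘ σ))
      = ∑ v : Fin k × Fin 2 → Fin (2 * g), ∑ w : Fin k × Fin 2 → Fin (2 * g),
      (∏ p, RR b (v p) (w p)) * φ (fun p => b (v p)) * tens B (fun p => b (w p)) := by
    intro σ
    rw [← (Equiv.arrowCongr σ (Equiv.refl (Fin (2 * g)))).sum_comp]
    refine Finset.sum_congr rfl fun v _ => ?_
    rw [← (Equiv.arrowCongr σ (Equiv.refl (Fin (2 * g)))).sum_comp]
    refine Finset.sum_congr rfl fun w _ => ?_
    have e1 : ∀ u : Fin k × Fin 2 → Fin (2 * g), ∀ k,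
        (Equiv.arrowCongr σ (Equiv.refl (Fin (2 * g)))) u k = u (σ.symm k) := fun u k => rfl
    simp only [e1]
    have e2 : ∏ p, RR b (v (σ.symm p)) (w (σ.symm p)) = ∏ p, RR b (v p) (w p) :=
      σ.symm.prod_comp fun p => RR b (v p) (w p)
    have e3 : (fun p => b (w (σ.symm p))) ∘ σ = fun p => b (w p) := by
      funext k
      simp
    have e4 : φ (fun p => b (v (σ.symm p)))
        = ((Equiv.Perm.sign σ : ℤ) : ℚ) * φ (fun p => b (v p)) := by
      have h2 := φ.map_perm (fun p => b (v p)) σ.symm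
      rw [show (fun p => b (v p)) ∘ σ.symm = fun p => b (v (σ.symm p)) from rfl] at h2
      rw [h2, Units.smul_def, zsmul_eq_mul, Equiv.Perm.sign_symm]
    rw [e2, e3, e4]
    have e5 : ((Equiv.Perm.sign σ : ℤ) : ℚ) * ((Equiv.Perm.sign σ : ℤ) : ℚ) = 1 := by
      rcases Int.units_eq_one_or (Equiv.Perm.sign σ) with h | h <;> rw [h] <;> norm_num
    linear_combination ((∏ p, RR b (v p) (w p)) * φ (fun p => b (v p)) *
      tens B (fun p => b (w p))) * e5
  have h2 : ∀ v : Fin k × Fin 2 → Fin (2 * g), ∑ w : Fin k × Fin 2 → Fin (2 * g),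
      ∑ σ : Equiv.Perm (Fin k × Fin 2), (∏ p, RR b (v p) (w p)) * φ (fun p => b (v p)) *
          (((Equiv.Perm.sign σ : ℤ) : ℚ) * tens B ((fun p => b (w p)) ∘ σ))
      = ∑ σ : Equiv.Perm (Fin k × Fin 2), ∑ w : Fin k × Fin 2 → Fin (2 * g),
        (∏ p, RR b (v p) (w p)) * φ (fun p => b (v p)) *
          (((Equiv.Perm.sign σ : ℤ) : ℚ) * tens B ((fun p => b (w p)) ∘ σ)) :=
    fun v => Finset.sum_comm
  simp only [h2]
  rw [Finset.sum_comm]
  simp only [h1]
  rw [Finset.sum_const, Finset.card_univ, Fintype.card_perm, nsmul_eq_mul]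
  simp only [Finset.mul_sum]

/-- The bilinear form attached to an endomorphism. -/
def omP (P : Module.End ℚ A.H1) : A.H1 →ₗ[ℚ] A.H1 →ₗ[ℚ] ℚ := A.om.compl₂ P

theorem omP_apply (P : Module.End ℚ A.H1) (u v : A.H1) : omP P u v = A.om u (P v) := rfl

/-- The bivector attached to an endomorphism. -/
def Qm (b : Basis (Fin (2 * g)) ℚ A.H1) (P : Module.End ℚ A.H1) :
    Matrix (Fin (2 * g)) (Fin (2 * g)) ℚ := mt b P * (RR b)ᵀ

theorem sum_tens (P : Fin k → Module.End ℚ A.H1) (v : Fin k × Fin 2 → Fin (2 * g)) :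
    ∑ w : Fin k × Fin 2 → Fin (2 * g), (∏ p, RR b (v p) (w p)) *
      tens (fun i => omP (P i)) (fun p => b (w p))
      = ∏ i, Qm b (P i) (v (i, 0)) (v (i, 1)) := by
  have h1 : ∀ (P : Module.End ℚ A.H1) p q, Qm b P p q = ∑ u : Fin 2 → Fin (2 * g),
      RR b p (u 0) * RR b q (u 1) * omP P (b (u 0)) (b (u 1)) := by
    intro P p q
    have h2 : Qm b P = RR b * (Om b * mt b P) * (RR b)ᵀ := by
      rw [← mul_assoc (RR b), RR_mul, one_mul]
      rfl
    rw [h2, mul_apply, ← (finTwoArrowEquiv (Fin (2 * g))).symm.sum_comp, Fintype.sum_prod_type,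
      Finset.sum_comm]
    refine Finset.sum_congr rfl fun q' _ => ?_
    rw [mul_apply, Finset.sum_mul]
    refine Finset.sum_congr rfl fun p' _ => ?_
    have e1 : (finTwoArrowEquiv (Fin (2 * g))).symm (p', q') 0 = p' := rfl
    have e2 : (finTwoArrowEquiv (Fin (2 * g))).symm (p', q') 1 = q' := rfl
    rw [e1, e2, omP_apply, om_right, transpose_apply]
    ring
  simp only [h1]
  rw [Finset.prod_univ_sum, Fintype.piFinset_univ,
    ← (Equiv.curry (Fin k) (Fin 2) (Fin (2 * g))).sum_comp]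
  refine Finset.sum_congr rfl fun w _ => ?_
  rw [tens_apply, Fintype.prod_prod_type, ← Finset.prod_mul_distrib]
  refine Finset.prod_congr rfl fun i _ => ?_
  rw [Fin.prod_univ_two]
  rfl

theorem pr_prd_om (φ : AF A k) (P : Fin k → Module.End ℚ A.H1) :
    pr b φ (prd fun i => omP (P i)) = (Fintype.card (Fin k × Fin 2)).factorial *
      ∑ v : Fin k × Fin 2 → Fin (2 * g), (∏ i, Qm b (P i) (v (i, 0)) (v (i, 1))) *
        φ (fun p => b (v p)) := by
  rw [pr_prd]
  congr 1
  refine Finset.sum_congr rfl fun v _ => ?_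
  rw [← sum_tens, Finset.sum_mul]
  refine Finset.sum_congr rfl fun w _ => ?_
  ring

end

end Pool.Agent.V5helper88.HR
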