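import Pool.Agent.V5helper88.HR.G21

/-!
All de Rham-Betti classes on abelian varieties with symmetric endomorphisms whose blocks are of
dimension at most four.
-/

set_option autoImplicit false

namespace Pool.Agent.V5helper88.HR

open Matrix Module Function Pool.Agent.Y102 Pool.Agent.W516.DR Pool.Agent.H204R3.GP
  Pool.Agent.W516.KC Pool.Agent.H204R3.SP Pool.Agent.N208.BT

noncomputable section

variable {g : ℕ} {A : AbVar g} {b : Basis (Fin (2 * g)) ℚ A.H1} {k : ℕ}

/-- The forms which are killed by the Lie algebra. -/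
def WA (A : AbVar g) (k : ℕ) : Submodule ℚ (AF A k) where
  carrier := {φ | ∀ X ∈ A.LA, ∀ v : Fin k × Fin 2 → A.H1, ∑ s, φ (update v s (X (v s))) = 0}
  zero_mem' := fun X _ v => Finset.sum_eq_zero fun k _ => rfl
  add_mem' := fun {φ ψ} hφ hψ X hX v => by
    have h1 := hφ X hX v
    have h2 := hψ X hX v
    change ∑ k, (φ _ + ψ _) = 0
    rw [Finset.sum_add_distrib, h1, h2, add_zero]
  smul_mem' := fun c φ hφ X hX v => by
    have h1 := hφ X hX v
    change ∑ k, (c • φ _) = 0
    rw [← Finset.smul_sum, h1, smul_zero]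

/-- The combinations of products. -/
def QA (A : AbVar g) (k : ℕ) : Submodule ℚ (AF A k) :=
  Submodule.span ℚ {ψ | ∃ P : Fin k → Module.End ℚ A.H1, (∀ i, P i ∈ A.EA) ∧
    ψ = prd fun i => omP (P i)}

theorem omP_kills {P X : Module.End ℚ A.H1} (hP : P ∈ A.EA) (hX : X ∈ A.LA) (u v : A.H1) :
    omP P (X u) v + omP P u (X v) = 0 := by
  rw [omP_apply, omP_apply]
  have h1 := A.LA_skew hX u (P v)
  have h2 : P (X v) = X (P v) := (LinearMap.congr_fun (hP X hX) v).symm
  rw [h2]; exact h1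

theorem QA_le : QA A k ≤ WA A k := by
  unfold QA
  rw [Submodule.span_le]
  rintro _ ⟨P, hP, rfl⟩ X hX v
  exact prd_kills (fun i => omP_kills (hP i) hX) v

/-- The coordinates as a linear map. -/
def ev (b : Basis (Fin (2 * g)) ℚ A.H1) (k : ℕ) :
    AF A k →ₗ[ℚ] ((Fin k × Fin 2 → Fin (2 * g)) → ℚ) where
  toFun φ v := φ fun p => b (v p)
  map_add' φ ψ := rfl
  map_smul' c φ := rfl

theorem ev_inj (b : Basis (Fin (2 * g)) ℚ A.H1) : Function.Injective (ev b k) := by
  rw [injective_iff_map_eq_zero]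
  intro φ hφ
  apply AlternatingMap.coe_multilinearMap_injective
  refine Basis.ext_multilinear (fun _ => b) fun v => ?_
  have h1 := congrFun hφ v
  exact h1

theorem fin_AF (b : Basis (Fin (2 * g)) ℚ A.H1) : FiniteDimensional ℚ (AF A k) :=
  FiniteDimensional.of_injective (ev b k) (ev_inj b)

/-- The pairing as a bilinear map. -/
def prB (b : Basis (Fin (2 * g)) ℚ A.H1) (k : ℕ) : AF A k →ₗ[ℚ] AF A k →ₗ[ℚ] ℚ :=
  LinearMap.mk₂ ℚ (pr b)
    (fun φ φ' ψ => by
      simp only [pr, ← Finset.sum_add_distrib]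
      refine Finset.sum_congr rfl fun v _ => Finset.sum_congr rfl fun w _ => ?_
      rw [AlternatingMap.add_apply]; ring)
    (fun c φ ψ => by
      simp only [pr, smul_eq_mul, Finset.mul_sum]
      refine Finset.sum_congr rfl fun v _ => Finset.sum_congr rfl fun w _ => ?_
      rw [AlternatingMap.smul_apply, smul_eq_mul]; ring)
    (fun φ ψ ψ' => by
      simp only [pr, ← Finset.sum_add_distrib]
      refine Finset.sum_congr rfl fun v _ => Finset.sum_congr rfl fun w _ => ?_
      rw [AlternatingMap.add_apply]; ring)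
    (fun c φ ψ => by
      simp only [pr, smul_eq_mul, Finset.mul_sum]
      refine Finset.sum_congr rfl fun v _ => Finset.sum_congr rfl fun w _ => ?_
      rw [AlternatingMap.smul_apply, smul_eq_mul]; ring)

theorem span_of_core (b : Basis (Fin (2 * g)) ℚ A.H1)
    (hcore : ∀ φ ∈ WA A k, (∀ P : Fin k → Module.End ℚ A.H1, (∀ i, P i ∈ A.EA) →
      ∑ v : Fin k × Fin 2 → Fin (2 * g), (∏ i, Qm b (P i) (v (i, 0)) (v (i, 1))) *
        φ (fun p => b (v p)) = 0) → φ = 0) : WA A k ≤ QA A k := by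
  haveI := fin_AF (k := k) b
  let Φ : WA A k →ₗ[ℚ] Module.Dual ℚ (QA A k) :=
    { toFun := fun φ => (prB b k (φ : AF A k)).comp (QA A k).subtype
      map_add' := fun φ ψ => by
        rw [Submodule.coe_add, map_add, LinearMap.add_comp]
      map_smul' := fun c φ => by
        rw [Submodule.coe_smul, map_smul, LinearMap.smul_comp, RingHom.id_apply] }
  have hinj : Function.Injective Φ := by
    rw [injective_iff_map_eq_zero]
    intro φ hφ
    apply Subtype.ext
    refine hcore _ φ.2 fun P hP => ?_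
    have h1 := LinearMap.congr_fun hφ ⟨prd fun i => omP (P i),
      Submodule.subset_span ⟨P, hP, rfl⟩⟩
    change pr b (φ : AF A k) (prd fun i => omP (P i)) = 0 at h1
    rw [pr_prd_om] at h1
    have h2 : ((Fintype.card (Fin k × Fin 2)).factorial : ℚ) ≠ 0 :=
      Nat.cast_ne_zero.mpr (Nat.factorial_ne_zero _)
    exact (mul_eq_zero.mp h1).resolve_left h2
  have h1 := LinearMap.finrank_le_finrank_of_injective hinj
  rw [Subspace.dual_finrank_eq] at h1
  exact (Submodule.eq_of_le_of_finrank_le QA_le h1).ge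

theorem Qm_Om (b : Basis (Fin (2 * g)) ℚ A.H1) (P : Module.End ℚ A.H1) :
    Qm b P * Om b = -mt b P := by
  unfold Qm
  rw [RR_tr, mul_neg, neg_mul, mul_assoc, RR_mul, mul_one]

/-- **All classes are combinations of products**, if the endomorphisms are symmetric and the blocks
are of dimension at most four. -/
theorem main (A : AbVar g) (hs : ∀ P ∈ A.EA, ∀ u v, A.om (P u) v = A.om u (P v))
    {P : Module.End ℚ A.H1} (hP : P ∈ A.EA)
    (hm : ∀ z : ℂ, (P.charpoly.map (algebraMap ℚ ℂ)).rootMultiplicity z ≤ 4) (k : ℕ) :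
    WA A k ≤ QA A k := by
  let b : Basis (Fin (2 * g)) ℚ A.H1 := Pi.basisFun ℚ (Fin (2 * g))
  have hS := sys_of_sym b hs
  have hd := block_le hP hm b hS
  refine span_of_core b fun φ hφ ho => ?_
  let S : Set (Matrix (Fin (2 * g)) (Fin (2 * g)) ℂ) :=
    {Z | ∃ P ∈ A.EA, Z = cc (Qm b P)}
  have hSc : ∀ Q ∈ S, Cm (HH b) (Q * cc (Om b)) := by
    rintro _ ⟨P, hP, rfl⟩
    rw [← cc_mul, Qm_Om, cc_neg]
    have h1 := (cm_cc (b := b) hP).smul (-1)
    rwa [neg_one_smul] at h1
  have hSp : ∀ Q : Matrix (Fin (2 * g)) (Fin (2 * g)) ℂ, Cm (HH b) (Q * cc (Om b)) →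
      Q ∈ Submodule.span ℂ S := by
    intro Q hQ
    have h1 : Q * cc (Om b) ∈ Submodule.span ℂ
        {Z | ∃ X ∈ (A.EA).map (mt b).toLinearMap, Z = cc X} := by
      refine mem_span_of_lm _ _ fun l => ?_
      exact ⟨(mt b).symm (lm l (Q * cc (Om b))), comp_mem hQ l, AlgEquiv.apply_symm_apply _ _⟩
    have h2 : Q = (Q * cc (Om b)) * cc (RR b) := by
      rw [mul_assoc, ← cc_mul, mul_RR, cc_one, mul_one]
    rw [h2]
    refine Submodule.span_induction (p := fun Z _ => Z * cc (RR b) ∈ Submodule.span ℂ S)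
      ?_ ?_ ?_ ?_ h1
    · rintro _ ⟨_, ⟨P, hP, rfl⟩, rfl⟩
      have h3 : cc ((mt b).toLinearMap P) * cc (RR b) = (-1 : ℂ) • cc (Qm b P) := by
        unfold Qm
        rw [RR_tr, mul_neg, cc_neg, smul_neg, neg_smul, one_smul, neg_neg, cc_mul]
        rfl
      rw [h3]
      exact Submodule.smul_mem _ _ (Submodule.subset_span ⟨P, hP, rfl⟩)
    · rw [zero_mul]; exact Submodule.zero_mem _
    · intro x y _ _ hx hy
      rw [add_mul]; exact Submodule.add_mem _ hx hy
    · intro z x _ hx
      rw [smul_mul_assoc]; exact Submodule.smul_mem _ _ hx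
  have h0 : cxf b φ = 0 := by
    refine full_vanish hS hd hSc hSp k (cxf b φ) (cxf_kil hφ) fun Q hQ => ?_
    choose P hP hQP using hQ
    have h1 := ho P hP
    have h2 := congrArg (algebraMap ℚ ℂ) h1
    rw [map_sum, map_zero] at h2
    rw [← h2]
    unfold full
    refine Finset.sum_congr rfl fun v _ => ?_
    rw [map_mul, map_prod, cxf_basis]
    congr 1
    refine Finset.prod_congr rfl fun i _ => ?_
    rw [hQP i]
    rfl
  apply ev_inj b
  rw [map_zero]
  funext v
  have h1 := cxf_basis b φ v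
  rw [h0, AlternatingMap.zero_apply] at h1
  have h2 : (φ fun p => b (v p)) = 0 := by exact_mod_cast h1.symm
  exact h2

end

end Pool.Agent.V5helper88.HR
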