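import Mathlib

/-!
The multiplicities of the roots of the characteristic polynomial, if the minimal polynomial is
irreducible.
-/

set_option autoImplicit false

namespace Pool.Agent.V5helper88.HR

open Module Polynomial

variable {V : Type} [AddCommGroup V] [Module ℚ V] [FiniteDimensional ℚ V]

/-- A complex root of the characteristic polynomial is a root of the minimal polynomial. -/
theorem root_min (P : Module.End ℚ V) {z : ℂ} (hz : aeval z P.charpoly = 0) :
    aeval z (minpoly ℚ P) = 0 := by
  classical
  let b := Module.finBasis ℚ V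
  let M : Matrix (Fin (finrank ℚ V)) (Fin (finrank ℚ V)) ℚ := LinearMap.toMatrixAlgEquiv b P
  let Mc : Matrix (Fin (finrank ℚ V)) (Fin (finrank ℚ V)) ℂ := M.map (algebraMap ℚ ℂ)
  have h1 : Mc.charpoly = P.charpoly.map (algebraMap ℚ ℂ) := by
    rw [Matrix.charpoly_map]
    congr 1
    exact LinearMap.charpoly_toMatrix P b
  have h2 : Mc.charpoly.IsRoot z := by
    rw [h1, IsRoot, eval_map_algebraMap, hz]
  have h3 : Module.End.HasEigenvalue (Matrix.toLin' Mc) z := by
    rw [Module.End.hasEigenvalue_iff_isRoot_charpoly, Matrix.charpoly_toLin']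
    exact h2
  have h4 := Module.End.isRoot_of_hasEigenvalue h3
  have h5 : aeval Mc ((minpoly ℚ P).map (algebraMap ℚ ℂ)) = 0 := by
    have h6 : aeval M (minpoly ℚ P) = 0 := by
      have h7 : aeval M (minpoly ℚ P)
          = LinearMap.toMatrixAlgEquiv b (aeval P (minpoly ℚ P)) := by
        rw [← aeval_algHom_apply]
      rw [h7, minpoly.aeval, map_zero]
    rw [aeval_map_algebraMap]
    have h8 : Mc = (Algebra.ofId ℚ ℂ).mapMatrix M := rfl
    rw [h8, aeval_algHom_apply, h6, map_zero]
  have h6 : minpoly ℂ (Matrix.toLin' Mc) ∣ (minpoly ℚ P).map (algebraMap ℚ ℂ) := by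
    refine minpoly.dvd ℂ _ ?_
    have h7 : (Matrix.toLin' Mc : Module.End ℂ (Fin (finrank ℚ V) → ℂ))
        = Matrix.toLinAlgEquiv' Mc := rfl
    rw [h7, aeval_algHom_apply, h5, map_zero]
  have h7 := h4.dvd h6
  rwa [IsRoot, eval_map_algebraMap] at h7

/-- The multiplicities are at most four, if the minimal polynomial is irreducible of large
degree. -/
theorem mult_le {g : ℕ} (hV : finrank ℚ V = 2 * g) (P : Module.End ℚ V)
    (hi : Irreducible (minpoly ℚ P)) (hg : g ≤ 2 * (minpoly ℚ P).natDegree) (z : ℂ) :
    (P.charpoly.map (algebraMap ℚ ℂ)).rootMultiplicity z ≤ 4 := by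
  classical
  have hmf : (minpoly ℚ P).Monic := minpoly.monic (Algebra.IsIntegral.isIntegral P)
  have hχ : P.charpoly.Monic := P.charpoly_monic
  have hall : ∀ q ∈ UniqueFactorizationMonoid.normalizedFactors P.charpoly,
      q = minpoly ℚ P := by
    intro q hq
    have hqi := UniqueFactorizationMonoid.irreducible_of_normalized_factor q hq
    have hqd := UniqueFactorizationMonoid.dvd_of_mem_normalizedFactors hq
    have hqm : q.Monic := by
      have h1 := UniqueFactorizationMonoid.normalize_normalized_factor q hq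
      have h2 := Polynomial.monic_normalize hqi.ne_zero
      rwa [h1] at h2
    obtain ⟨w, hw⟩ := IsAlgClosed.exists_aeval_eq_zero ℂ q
      (ne_of_gt (Polynomial.degree_pos_of_irreducible hqi))
    have h3 : aeval w P.charpoly = 0 := by
      obtain ⟨r, hr⟩ := hqd
      rw [hr, map_mul, hw, zero_mul]
    have h4 := root_min P h3
    rw [minpoly.eq_of_irreducible_of_monic hqi hw hqm,
      minpoly.eq_of_irreducible_of_monic hi h4 hmf]
  have h1 : UniqueFactorizationMonoid.normalizedFactors P.charpoly
      = Multiset.replicate (UniqueFactorizationMonoid.normalizedFactors P.charpoly).card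
        (minpoly ℚ P) := Multiset.eq_replicate.mpr ⟨rfl, hall⟩
  set m := (UniqueFactorizationMonoid.normalizedFactors P.charpoly).card with hm
  have h2 : P.charpoly = (minpoly ℚ P) ^ m := by
    have h3 := UniqueFactorizationMonoid.prod_normalizedFactors hχ.ne_zero
    rw [h1, Multiset.prod_replicate] at h3
    exact (eq_of_monic_of_associated (hmf.pow m) hχ h3).symm
  have h3 : 2 * g = m * (minpoly ℚ P).natDegree := by
    rw [← hV, ← LinearMap.charpoly_natDegree P, h2, hmf.natDegree_pow]
  have hd : 0 < (minpoly ℚ P).natDegree := hi.natDegree_pos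
  have h4 : m ≤ 4 := by
    by_contra hcon
    push Not at hcon
    have h5 : 5 * (minpoly ℚ P).natDegree ≤ m * (minpoly ℚ P).natDegree :=
      Nat.mul_le_mul_right _ hcon
    omega
  rw [h2, Polynomial.map_pow, ← count_roots, roots_pow, Multiset.count_nsmul]
  have h5 : ((minpoly ℚ P).map (algebraMap ℚ ℂ)).roots.Nodup :=
    nodup_roots ((hi.separable).map)
  have h6 := Multiset.nodup_iff_count_le_one.mp h5 z
  calc m * Multiset.count z ((minpoly ℚ P).map (algebraMap ℚ ℂ)).roots ≤ m * 1 :=
        Nat.mul_le_mul_left _ h6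
    _ ≤ 4 := by omega

end Pool.Agent.V5helper88.HR
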