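import Pool.Agent.V5helper88.HR.G2

/-!
Symplectic matrices of size four: the traceless self-adjoint matrices form an irreducible
representation.
-/

set_option autoImplicit false

namespace Pool.Agent.V5helper88.HR

open Matrix Module

section general

variable {κ : Type} [Fintype κ] [DecidableEq κ]

/-- An irreducible set of skew-adjoint matrices with commutant the scalars. -/
structure Irr (K : Matrix κ κ ℂ) (R : Set (Matrix κ κ ℂ)) : Prop where
  sk : ∀ X ∈ R, Xᵀ * K = -(K * X)
  comm : ∀ P, (∀ X ∈ R, P * X = X * P) → ∃ z : ℂ, P = z • (1 : Matrix κ κ ℂ)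
  irr : ∀ W : Submodule ℂ (κ → ℂ), (∀ X ∈ R, ∀ w ∈ W, X *ᵥ w ∈ W) → W = ⊥ ∨ W = ⊤

/-- The traceless self-adjoint matrices. -/
def S0 (K : Matrix κ κ ℂ) : Submodule ℂ (Matrix κ κ ℂ) where
  carrier := {a | aᵀ * K = K * a ∧ trace a = 0}
  zero_mem' := ⟨by simp, by simp⟩
  add_mem' := fun {a b} ha hb => ⟨by rw [transpose_add, add_mul, mul_add, ha.1, hb.1],
    by rw [trace_add, ha.2, hb.2, add_zero]⟩
  smul_mem' := fun z a ha => ⟨by rw [transpose_smul, smul_mul_assoc, mul_smul_comm, ha.1],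
    by rw [trace_smul, ha.2, smul_zero]⟩

theorem mem_S0 {K a : Matrix κ κ ℂ} : a ∈ S0 K ↔ aᵀ * K = K * a ∧ trace a = 0 := Iff.rfl

theorem S0_ad {K a X : Matrix κ κ ℂ} (ha : a ∈ S0 K) (hX : Xᵀ * K = -(K * X)) :
    X * a - a * X ∈ S0 K := by
  refine ⟨?_, ?_⟩
  · rw [transpose_sub, transpose_mul, transpose_mul, sub_mul, mul_assoc, hX, mul_assoc, ha.1,
      mul_neg, ← mul_assoc, ha.1, ← mul_assoc, hX]
    noncomm_ring
  · rw [trace_sub, trace_mul_comm, sub_self]

theorem tr_ad (X a b : Matrix κ κ ℂ) :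
    trace ((X * a - a * X) * b) = - trace (a * (X * b - b * X)) := by
  rw [sub_mul, mul_sub, trace_sub, trace_sub]
  have h1 : trace (X * a * b) = trace (a * (b * X)) := by
    rw [mul_assoc, trace_mul_comm, mul_assoc]
  rw [h1, mul_assoc a X b]
  ring

theorem tr_sy_sk {K a b : Matrix κ κ ℂ} (hK : K * K = -1) (hKt : Kᵀ = -K)
    (ha : aᵀ * K = K * a) (hb : bᵀ * K = -(K * b)) : trace (a * b) = 0 := by
  have h1 : trace (a * b) = trace (bᵀ * aᵀ) := by rw [← transpose_mul, trace_transpose]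
  have h2 : aᵀ = -(K * a * K) := by
    rw [← ha, mul_assoc, hK]; simp
  have h3 : bᵀ = K * b * K := by
    have : bᵀ = -(bᵀ * K * K) := by rw [mul_assoc, hK]; simp
    rw [this, hb]; simp
  have h4 : bᵀ * aᵀ = -(K * (b * (K * K) * a) * K) := by rw [h2, h3]; noncomm_ring
  rw [hK] at h4
  have h5 : bᵀ * aᵀ = K * (b * a) * K := by rw [h4]; noncomm_ring
  have h6 : trace (K * (b * a) * K) = trace ((K * K) * (b * a)) := by
    rw [trace_mul_comm, ← mul_assoc]
  rw [h5, h6, hK, neg_one_mul, trace_neg, trace_mul_comm b a] at h1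
  linear_combination (1 / 2 : ℂ) * h1

end general

theorem S0_entries {a : Matrix (Fin 4) (Fin 4) ℂ} (ha : a ∈ S0 J4) :
    a 1 1 = a 0 0 ∧ a 2 2 = -a 0 0 ∧ a 3 3 = -a 0 0 ∧ a 0 1 = 0 ∧ a 1 0 = 0 ∧ a 2 3 = 0 ∧
      a 3 2 = 0 ∧ a 3 1 = a 0 2 ∧ a 2 1 = -a 0 3 ∧ a 3 0 = -a 1 2 ∧ a 2 0 = a 1 3 := by
  obtain ⟨h, ht⟩ := ha
  have e : ∀ i j, (aᵀ * J4) i j = (J4 * a) i j := fun i j => by rw [h]
  have e00 := e 0 0
  have e01 := e 0 1
  have e02 := e 0 2
  have e03 := e 0 3
  have e11 := e 1 1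
  have e12 := e 1 2
  have e13 := e 1 3
  have e22 := e 2 2
  have e23 := e 2 3
  have e33 := e 3 3
  simp [Matrix.mul_apply, Fin.sum_univ_four, J4] at e00 e01 e02 e03 e11 e12 e13 e22 e23 e33
  simp only [trace, diag_apply, Fin.sum_univ_four] at ht
  have f1 : a 1 0 = 0 := by linear_combination (-1 / 2 : ℂ) * e00
  have f2 : a 0 1 = 0 := by linear_combination (1 / 2 : ℂ) * e11
  have f3 : a 3 2 = 0 := by linear_combination (-1 / 2 : ℂ) * e22
  have f4 : a 2 3 = 0 := by linear_combination (1 / 2 : ℂ) * e33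
  have g1 : a 2 2 = -a 0 0 := by
    linear_combination (1 / 2 : ℂ) * ht + (1 / 2 : ℂ) * e01 + (1 / 2 : ℂ) * e23
  refine ⟨e01.symm, g1, ?_, f2, f1, f4, f3, ?_, ?_, ?_, ?_⟩
  · rw [← e23, g1]
  · linear_combination e12
  · linear_combination e13
  · linear_combination -e02
  · linear_combination e03

theorem S0_sq {a : Matrix (Fin 4) (Fin 4) ℂ} (ha : a ∈ S0 J4) :
    a * a = (trace (a * a) / 4) • (1 : Matrix (Fin 4) (Fin 4) ℂ) := by
  obtain ⟨h1, h2, h3, h4, h5, h6, h7, h8, h9, h10, h11⟩ := S0_entries ha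
  ext i j
  fin_cases i <;> fin_cases j <;>
    simp [Matrix.mul_apply, Fin.sum_univ_four, trace, h1, h2, h3, h4, h5, h6, h7, h8, h9,
      h10, h11] <;> ring

theorem S0_polar {a b : Matrix (Fin 4) (Fin 4) ℂ} (ha : a ∈ S0 J4) (hb : b ∈ S0 J4) :
    a * b + b * a = (trace (a * b) / 2) • (1 : Matrix (Fin 4) (Fin 4) ℂ) := by
  have h1 := S0_sq ((S0 J4).add_mem ha hb)
  have h2 := S0_sq ha
  have h3 := S0_sq hb
  have h4 : a * b + b * a = (a + b) * (a + b) - a * a - b * b := by noncomm_ring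
  rw [h4, h1, h2, h3, ← sub_smul, ← sub_smul]
  congr 1
  rw [add_mul, mul_add, mul_add, trace_add, trace_add, trace_add, trace_mul_comm b a]
  ring

theorem S0_scalar {a : Matrix (Fin 4) (Fin 4) ℂ} (ha : a ∈ S0 J4) {z : ℂ}
    (h : a = z • (1 : Matrix (Fin 4) (Fin 4) ℂ)) : a = 0 := by
  have h1 := ha.2
  rw [h, trace_smul, trace_one, Fintype.card_fin, smul_eq_mul] at h1
  have h2 : z = 0 := by
    rcases mul_eq_zero.mp h1 with h | h
    · exact h
    · norm_num at h
  rw [h, h2, zero_smul]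

variable {R : Set (Matrix (Fin 4) (Fin 4) ℂ)}

/-- The kernel of a family of matrices. -/
theorem ker_case (hR : Irr J4 R) {s t v : Matrix (Fin 4) (Fin 4) ℂ} (hs : s ≠ 0)
    (h : ∀ X ∈ R, ∃ a b c d : ℂ, X * s - s * X = a • s + b • t ∧ X * t - t * X = c • s + d • t)
    (hsv : s * v = 0) (htv : t * v = 0) (hv : v ≠ 0) : False := by
  let W : Submodule ℂ (Fin 4 → ℂ) := LinearMap.ker (toLin' s) ⊓ LinearMap.ker (toLin' t)
  have hmem : ∀ w, w ∈ W ↔ s *ᵥ w = 0 ∧ t *ᵥ w = 0 := fun w => by
    simp only [W, Submodule.mem_inf, LinearMap.mem_ker, toLin'_apply]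
  rcases hR.irr W (by
    intro X hX w hw
    rw [hmem] at hw ⊢
    obtain ⟨a, b, c, d, h1, h2⟩ := h X hX
    have k1 : s * X = X * s - (a • s + b • t) := by rw [← h1]; noncomm_ring
    have k2 : t * X = X * t - (c • s + d • t) := by rw [← h2]; noncomm_ring
    rw [mulVec_mulVec, mulVec_mulVec, k1, k2]
    simp only [sub_mulVec, add_mulVec, smul_mulVec, ← mulVec_mulVec, hw.1, hw.2, mulVec_zero,
      smul_zero, add_zero, sub_self, and_self]) with h0 | h0
  · apply hv
    ext i j
    have h1 : v *ᵥ Pi.single j 1 ∈ W := by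
      rw [hmem, mulVec_mulVec, mulVec_mulVec, hsv, htv, zero_mulVec]
      exact ⟨rfl, rfl⟩
    rw [h0, Submodule.mem_bot] at h1
    have h2 := congrFun h1 i
    rwa [mulVec_single_one] at h2
  · apply hs
    ext i j
    have h1 : (Pi.single j 1 : Fin 4 → ℂ) ∈ W := by rw [h0]; trivial
    rw [hmem] at h1
    have h2 := congrFun h1.1 i
    rwa [mulVec_single_one] at h2

theorem line_case (hR : Irr J4 R) {s : Matrix (Fin 4) (Fin 4) ℂ} (hs : s ∈ S0 J4) (hs0 : s ≠ 0)
    (h : ∀ X ∈ R, ∃ a : ℂ, X * s - s * X = a • s) : False := by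
  by_cases hq : trace (s * s) = 0
  · have h1 := S0_sq hs
    rw [hq, zero_div, zero_smul] at h1
    refine ker_case hR (t := 0) (v := s) hs0 (fun X hX => ?_) h1 (zero_mul _) hs0
    obtain ⟨a, ha⟩ := h X hX
    exact ⟨a, 0, 0, 0, by rw [ha]; simp, by simp⟩
  · have h1 : ∀ X ∈ R, s * X = X * s := by
      intro X hX
      obtain ⟨a, ha⟩ := h X hX
      have h2 := tr_ad X s s
      rw [ha, smul_mul_assoc, mul_smul_comm, trace_smul, smul_eq_mul] at h2
      have h3 : a = 0 := by
        have h4 : a * trace (s * s) = 0 := by linear_combination (1 / 2 : ℂ) * h2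
        exact (mul_eq_zero.mp h4).resolve_right hq
      rw [h3, zero_smul, sub_eq_zero] at ha
      exact ha.symm
    obtain ⟨z, hz⟩ := hR.comm s h1
    exact hs0 (S0_scalar hs hz)

theorem plane_case (hR : Irr J4 R) {s t : Matrix (Fin 4) (Fin 4) ℂ} (hs : s ∈ S0 J4)
    (ht : t ∈ S0 J4) (hli : ∀ a b : ℂ, a • s + b • t = 0 → a = 0 ∧ b = 0)
    (h : ∀ X ∈ R, ∃ a b c d : ℂ, X * s - s * X = a • s + b • t ∧
      X * t - t * X = c • s + d • t) : False := by
  have hs0 : s ≠ 0 := by
    intro h0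
    have := (hli 1 0 (by rw [h0]; simp)).1
    exact one_ne_zero this
  have ht0 : t ≠ 0 := by
    intro h0
    have := (hli 0 1 (by rw [h0]; simp)).2
    exact one_ne_zero this
  set p := trace (s * s) with hp
  set q := trace (s * t) with hq
  set r := trace (t * t) with hr
  have hq' : trace (t * s) = q := by rw [hq, trace_mul_comm]
  have hss := S0_sq hs
  have htt := S0_sq ht
  have hst := S0_polar hs ht
  rw [← hp] at hss
  rw [← hr] at htt
  rw [← hq] at hst
  -- the relations between the coefficients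
  have hrel : ∀ X ∈ R, ∀ a b c d : ℂ, X * s - s * X = a • s + b • t →
      X * t - t * X = c • s + d • t →
      a * p + b * q = 0 ∧ c * q + d * r = 0 ∧ a * q + b * r + (c * p + d * q) = 0 := by
    intro X _ a b c d h1 h2
    have k1 := tr_ad X s s
    have k2 := tr_ad X t t
    have k3 := tr_ad X s t
    rw [h1] at k1
    rw [h2] at k2
    rw [h1, h2] at k3
    simp only [add_mul, mul_add, smul_mul_assoc, mul_smul_comm, trace_add, trace_smul,
      smul_eq_mul, hq', ← hp, ← hq, ← hr] at k1 k2 k3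
    refine ⟨by linear_combination (1 / 2 : ℂ) * k1, by linear_combination (1 / 2 : ℂ) * k2,
      by linear_combination k3⟩
  by_cases hD : p * r - q * q = 0
  · by_cases hp0 : p = 0
    · have hq0 : q = 0 := by
        have : q * q = 0 := by rw [hp0] at hD; linear_combination -hD
        exact mul_self_eq_zero.mp this
      by_cases hr0 : r = 0
      · rw [hp0, zero_div, zero_smul] at hss
        rw [hr0, zero_div, zero_smul] at htt
        rw [hq0, zero_div, zero_smul] at hst
        by_cases hst0 : s * t = 0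
        · have hts0 : t * s = 0 := by rw [hst0, zero_add] at hst; exact hst
          exact ker_case hR hs0 h hss hts0 hs0
        · refine ker_case hR hs0 h (v := s * t) ?_ ?_ hst0
          · rw [← mul_assoc, hss, zero_mul]
          · have h3 : t * s = -(s * t) := by rw [eq_neg_iff_add_eq_zero, add_comm]; exact hst
            rw [← mul_assoc, h3, neg_mul, mul_assoc, htt, mul_zero, neg_zero]
      · refine line_case hR hs hs0 fun X hX => ?_
        obtain ⟨a, b, c, d, h1, h2⟩ := h X hX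
        obtain ⟨k1, k2, k3⟩ := hrel X hX a b c d h1 h2
        refine ⟨a, ?_⟩
        have hb : b = 0 := by
          have : b * r = 0 := by rw [hp0, hq0] at k3; linear_combination k3
          exact (mul_eq_zero.mp this).resolve_right hr0
        rw [h1, hb, zero_smul, add_zero]
    · refine line_case hR (s := p • t - q • s) ((S0 J4).sub_mem ((S0 J4).smul_mem _ ht)
        ((S0 J4).smul_mem _ hs)) ?_ fun X hX => ?_
      · intro h0
        have := (hli (-q) p (by rw [← h0, neg_smul]; abel)).2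
        exact hp0 this
      · obtain ⟨a, b, c, d, h1, h2⟩ := h X hX
        obtain ⟨k1, k2, k3⟩ := hrel X hX a b c d h1 h2
        have h3 : X * (p • t - q • s) - (p • t - q • s) * X
            = p • (X * t - t * X) - q • (X * s - s * X) := by
          simp only [mul_sub, sub_mul, mul_smul_comm, smul_mul_assoc, smul_sub]
          abel
        refine ⟨(p * d - q * b) / p, ?_⟩
        rw [h3, h1, h2]
        have h4 : p * c - q * a = -((p * d - q * b) / p) * q := by
          field_simp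
          linear_combination p * k3 - 2 * q * k1 - b * hD
        have h5 : p • (c • s + d • t) - q • (a • s + b • t)
            = (p * c - q * a) • s + (p * d - q * b) • t := by
          simp only [smul_add, smul_smul, sub_smul]
          abel
        rw [h5, h4]
        have h6 : p * d - q * b = ((p * d - q * b) / p) * p := by field_simp
        conv_lhs => rw [h6]
        rw [smul_sub, smul_smul, smul_smul]
        have h7 : ((p * d - q * b) / p * p / p) = (p * d - q * b) / p := by field_simp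
        rw [h7, neg_mul, neg_smul]
        abel
  · have hcomm : ∀ X ∈ R, (s * t - t * s) * X = X * (s * t - t * s) := by
      intro X hX
      obtain ⟨a, b, c, d, h1, h2⟩ := h X hX
      obtain ⟨k1, k2, k3⟩ := hrel X hX a b c d h1 h2
      have had : a + d = 0 := by
        have : (a + d) * (p * r - q * q) = 0 := by
          linear_combination r * k1 + p * k2 - q * k3
        exact (mul_eq_zero.mp this).resolve_right hD
      have h3 : X * (s * t - t * s) - (s * t - t * s) * X
          = (X * s - s * X) * t - t * (X * s - s * X) + (s * (X * t - t * X)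
            - (X * t - t * X) * s) := by noncomm_ring
      rw [h1, h2] at h3
      have h4 : (a • s + b • t) * t - t * (a • s + b • t) + (s * (c • s + d • t)
            - (c • s + d • t) * s) = (a + d) • (s * t - t * s) := by
        simp only [add_mul, mul_add, smul_mul_assoc, mul_smul_comm, smul_sub, add_smul]
        abel
      rw [h4, had, zero_smul, sub_eq_zero] at h3
      exact h3.symm
    obtain ⟨z, hz⟩ := hR.comm _ hcomm
    have hz0 : z = 0 := by
      have h1 : trace (s * t - t * s) = 0 := by rw [trace_sub, trace_mul_comm, sub_self]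
      rw [hz, trace_smul, trace_one, Fintype.card_fin, smul_eq_mul] at h1
      rcases mul_eq_zero.mp h1 with h | h
      · exact h
      · norm_num at h
    rw [hz0, zero_smul, sub_eq_zero] at hz
    have h2 : s * t = (q / 4) • (1 : Matrix (Fin 4) (Fin 4) ℂ) := by
      have h3 : (2 : ℂ) • (s * t) = (2 : ℂ) • ((q / 4) • (1 : Matrix (Fin 4) (Fin 4) ℂ)) := by
        rw [smul_smul, two_smul]
        nth_rewrite 2 [hz]
        rw [hst]
        congr 1
        ring
      exact smul_right_injective _ (two_ne_zero) h3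
    have h3 : r • s + (-q) • t = 0 := by
      have e1 : s * (t * t) = (r / 4) • s := by rw [htt, mul_smul_comm, mul_one]
      have e2 : s * (t * t) = (q / 4) • t := by rw [← mul_assoc, h2, smul_mul_assoc, one_mul]
      have e3 : (4 : ℂ) • ((r / 4) • s) = (4 : ℂ) • ((q / 4) • t) := by rw [← e1, e2]
      rw [smul_smul, smul_smul, mul_div_cancel₀ _ (by norm_num), mul_div_cancel₀ _ (by norm_num)]
        at e3
      rw [e3, neg_smul, add_neg_cancel]
    obtain ⟨h4, h5⟩ := hli _ _ h3
    apply hD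
    rw [h4, neg_eq_zero.mp h5]
    ring

/-- The trace form on the traceless self-adjoint matrices. -/
def qf : LinearMap.BilinForm ℂ (S0 J4) :=
  LinearMap.mk₂ ℂ (fun a b => trace (a.1 * b.1))
    (fun a a' b => by rw [Submodule.coe_add, add_mul, trace_add])
    (fun z a b => by rw [Submodule.coe_smul, smul_mul_assoc, trace_smul])
    (fun a b b' => by rw [Submodule.coe_add, mul_add, trace_add])
    (fun z a b => by rw [Submodule.coe_smul, mul_smul_comm, trace_smul])

theorem qf_apply (a b : S0 J4) : qf a b = trace (a.1 * b.1) := rfl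

/-- Coordinates on the traceless self-adjoint matrices. -/
def S0coord : S0 J4 ≃ₗ[ℂ] (Fin 5 → ℂ) where
  toFun a := ![a.1 0 0, a.1 0 2, a.1 0 3, a.1 1 2, a.1 1 3]
  map_add' a b := by
    ext i
    fin_cases i <;> simp
  map_smul' z a := by
    ext i
    fin_cases i <;> simp
  invFun x := ⟨!![x 0, 0, x 1, x 2; 0, x 0, x 3, x 4; x 4, -x 2, -x 0, 0; -x 3, x 1, 0, -x 0], by
    refine ⟨?_, ?_⟩
    · ext i j
      fin_cases i <;> fin_cases j <;> simp [Matrix.mul_apply, Fin.sum_univ_four, J4]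
    · simp [trace, Fin.sum_univ_four]⟩
  left_inv a := by
    obtain ⟨h1, h2, h3, h4, h5, h6, h7, h8, h9, h10, h11⟩ := S0_entries a.2
    apply Subtype.ext
    ext i j
    fin_cases i <;> fin_cases j <;> simp [h1, h2, h3, h4, h5, h6, h7, h8, h9, h10, h11]
  right_inv x := by
    ext i
    fin_cases i <;> simp

theorem finrank_S0 : finrank ℂ (S0 J4) = 5 := by
  rw [S0coord.finrank_eq, Module.finrank_fin_fun]

theorem qf_symm (a b : S0 J4) : qf a b = qf b a := by
  rw [qf_apply, qf_apply, trace_mul_comm]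

theorem qf_zero {a : S0 J4} (h : ∀ b, qf a b = 0) : a = 0 := by
  have hx : ∀ x : Fin 5 → ℂ, qf a (S0coord.symm x) = 0 := fun x => h _
  obtain ⟨h1, h2, h3, h4, h5, h6, h7, h8, h9, h10, h11⟩ := S0_entries a.2
  have h0 := hx ![1, 0, 0, 0, 0]
  have k1 := hx ![0, 1, 0, 0, 0]
  have k2 := hx ![0, 0, 1, 0, 0]
  have k3 := hx ![0, 0, 0, 1, 0]
  have k4 := hx ![0, 0, 0, 0, 1]
  rw [qf_apply] at h0 k1 k2 k3 k4
  simp [S0coord, trace, Matrix.mul_apply, Fin.sum_univ_four, h1, h2, h3, h4, h5, h6, h7, h8, h9,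
    h10, h11] at h0 k1 k2 k3 k4
  apply S0coord.injective
  rw [map_zero]
  ext i
  fin_cases i
  · change a.1 0 0 = 0
    linear_combination (1 / 4 : ℂ) * h0
  · exact k4
  · exact k3
  · exact k2
  · exact k1

theorem qf_nondeg : qf.Nondegenerate := by
  refine ⟨fun a h => qf_zero h, fun a h => qf_zero fun b => ?_⟩
  rw [qf_symm]; exact h b

theorem qf_refl : qf.IsRefl := fun a b h => by rw [qf_symm]; exact h

theorem small_case (hR : Irr J4 R) (U : Submodule ℂ (Matrix (Fin 4) (Fin 4) ℂ))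
    (hle : U ≤ S0 J4) (hU : ∀ X ∈ R, ∀ a ∈ U, X * a - a * X ∈ U) :
    finrank ℂ U ≠ 1 ∧ finrank ℂ U ≠ 2 := by
  constructor
  · intro h1
    obtain ⟨s, hs0, hs⟩ := finrank_eq_one_iff'.mp h1
    refine line_case hR (s := s.1) (hle s.2) ?_ fun X hX => ?_
    · intro h
      apply hs0
      exact Subtype.ext h
    · obtain ⟨c, hc⟩ := hs ⟨_, hU X hX s s.2⟩
      refine ⟨c, ?_⟩
      exact (congrArg Subtype.val hc).symm
  · intro h2
    have b : Basis (Fin 2) ℂ U := finBasisOfFinrankEq ℂ U h2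
    refine plane_case hR (s := (b 0).1) (t := (b 1).1) (hle (b 0).2)
      (hle (b 1).2) ?_ fun X hX => ?_
    · intro x y hxy
      have h3 : x • b 0 + y • b 1 = 0 := Subtype.ext hxy
      have h4 := b.linearIndependent
      rw [Fintype.linearIndependent_iff] at h4
      have h5 := h4 ![x, y] (by rw [Fin.sum_univ_two]; exact h3)
      exact ⟨h5 0, h5 1⟩
    · have h3 : ∀ w : U, w = b.repr w 0 • b 0 + b.repr w 1 • b 1 := by
        intro w
        conv_lhs => rw [← b.sum_repr w, Fin.sum_univ_two]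
      exact ⟨_, _, _, _, congrArg Subtype.val (h3 ⟨_, hU X hX _ (b 0).2⟩),
        congrArg Subtype.val (h3 ⟨_, hU X hX _ (b 1).2⟩)⟩

/-- The traceless self-adjoint matrices form an irreducible representation. -/
theorem S0_irr (hR : Irr J4 R) (U : Submodule ℂ (S0 J4))
    (hU : ∀ (X : Matrix (Fin 4) (Fin 4) ℂ) (hX : X ∈ R), ∀ a ∈ U,
      (⟨X * a.1 - a.1 * X, S0_ad a.2 (hR.sk X hX)⟩ : S0 J4) ∈ U) :
    U = ⊥ ∨ U = ⊤ := by
  have small : ∀ U : Submodule ℂ (S0 J4), (∀ (X : Matrix (Fin 4) (Fin 4) ℂ) (hX : X ∈ R),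
      ∀ a ∈ U, (⟨X * a.1 - a.1 * X, S0_ad a.2 (hR.sk X hX)⟩ : S0 J4) ∈ U)
      → finrank ℂ U ≠ 1 ∧ finrank ℂ U ≠ 2 := by
    intro U hU
    have h1 := small_case hR (U.map (S0 J4).subtype) (Submodule.map_subtype_le _ _) (by
      rintro X hX _ ⟨a, ha, rfl⟩
      exact ⟨_, hU X hX a ha, rfl⟩)
    rwa [Submodule.finrank_map_subtype_eq] at h1
  have hU' : ∀ (X : Matrix (Fin 4) (Fin 4) ℂ) (hX : X ∈ R), ∀ a ∈ qf.orthogonal U,
      (⟨X * a.1 - a.1 * X, S0_ad a.2 (hR.sk X hX)⟩ : S0 J4) ∈ qf.orthogonal U := by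
    intro X hX a ha
    rw [LinearMap.BilinForm.mem_orthogonal_iff] at ha ⊢
    intro n hn
    have h1 := ha _ (hU X hX n hn)
    rw [qf_apply] at h1 ⊢
    have h2 := tr_ad X n.1 a.1
    rw [h1] at h2
    exact neg_eq_zero.mp h2.symm
  have h1 := small U hU
  have h2 := small _ hU'
  rw [LinearMap.BilinForm.finrank_orthogonal qf_nondeg, finrank_S0] at h2
  have h3 := Submodule.finrank_le U
  rw [finrank_S0] at h3
  have h4 : finrank ℂ U = 0 ∨ finrank ℂ U = 5 := by omega
  rcases h4 with h4 | h4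
  · left
    exact Submodule.finrank_eq_zero.mp h4
  · right
    apply Submodule.eq_top_of_finrank_eq
    rw [h4, finrank_S0]

/-- Equivariant maps of the traceless self-adjoint matrices are scalars. -/
theorem S0_scal (hR : Irr J4 R) (M : S0 J4 →ₗ[ℂ] S0 J4)
    (hM : ∀ (X : Matrix (Fin 4) (Fin 4) ℂ) (hX : X ∈ R) (a : S0 J4),
      (M ⟨X * a.1 - a.1 * X, S0_ad a.2 (hR.sk X hX)⟩).1 = X * (M a).1 - (M a).1 * X) :
    ∃ z : ℂ, ∀ a, M a = z • a := by
  haveI : Nontrivial (S0 J4) := by
    apply Module.nontrivial_of_finrank_pos (R := ℂ)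
    rw [finrank_S0]; norm_num
  obtain ⟨z, hz⟩ := Module.End.exists_eigenvalue M
  refine ⟨z, ?_⟩
  rcases S0_irr hR (Module.End.eigenspace M z) (by
    intro X hX a ha
    rw [Module.End.mem_eigenspace_iff] at ha ⊢
    apply Subtype.ext
    rw [hM X hX, ha]
    change X * (z • a.1) - (z • a.1) * X = z • (X * a.1 - a.1 * X)
    rw [mul_smul_comm, smul_mul_assoc, smul_sub]) with h | h
  · exact absurd h hz
  · intro a
    have h1 : a ∈ Module.End.eigenspace M z := by rw [h]; trivial
    exact Module.End.mem_eigenspace_iff.mp h1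

end Pool.Agent.V5helper88.HR
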