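import Pool.Agent.V5helper88.HR.G3

/-!
Casimir operators in symplectic representations whose traceless self-adjoint part is irreducible.
-/

set_option autoImplicit false

namespace Pool.Agent.V5helper88.HR

open Matrix Module

variable {κ : Type} [Fintype κ] [DecidableEq κ] {α : Type} [Fintype α]

/-- Rank one matrices. -/
def ew (K : Matrix κ κ ℂ) (v w : κ → ℂ) : Matrix κ κ ℂ := vecMulVec v (w ᵥ* K)

/-- The adjoint. -/
def sta (K a : Matrix κ κ ℂ) : Matrix κ κ ℂ := -(K * aᵀ * K)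

theorem ew_mulVec (K : Matrix κ κ ℂ) (v w u : κ → ℂ) : ew K v w *ᵥ u = bw K w u • v := by
  unfold ew bw
  rw [vecMulVec_mulVec, op_smul_eq_smul, dotProduct_mulVec]

theorem trace_ew (K : Matrix κ κ ℂ) (v w : κ → ℂ) : trace (ew K v w) = bw K w v := by
  unfold ew bw
  rw [trace_vecMulVec, dotProduct_comm, dotProduct_mulVec]

theorem mul_ew (K A : Matrix κ κ ℂ) (v w : κ → ℂ) : A * ew K v w = ew K (A *ᵥ v) w := by
  unfold ew
  rw [mul_vecMulVec]

theorem ew_mul {K A : Matrix κ κ ℂ} (hA : Aᵀ * K = -(K * A)) (v w : κ → ℂ) :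
    ew K v w * A = -ew K v (A *ᵥ w) := by
  unfold ew
  have h1 : K * A = -(Aᵀ * K) := by rw [hA, neg_neg]
  rw [vecMulVec_mul, vecMul_vecMul, h1, vecMul_neg, ← vecMul_vecMul, vecMul_transpose,
    vecMulVec_neg]

theorem ew_tr {K : Matrix κ κ ℂ} (hK : K * K = -1) (hKt : Kᵀ = -K) (v w : κ → ℂ) :
    (ew K v w)ᵀ * K = -(K * ew K w v) := by
  unfold ew
  have h1 : w ᵥ* K = -(K *ᵥ w) := by
    rw [← neg_mulVec, ← hKt, mulVec_transpose]
  rw [transpose_vecMulVec, vecMulVec_mul, mul_vecMulVec, h1, neg_vecMulVec]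

theorem sta_ew {K : Matrix κ κ ℂ} (hK : K * K = -1) (hKt : Kᵀ = -K) (v w : κ → ℂ) :
    sta K (ew K v w) = -ew K w v := by
  unfold sta
  rw [mul_assoc, ew_tr hK hKt, mul_neg, neg_neg, ← mul_assoc, hK]
  simp

/-- The symmetric rank two matrices without trace. -/
theorem ew_S0 {K : Matrix κ κ ℂ} (hK : K * K = -1) (hKt : Kᵀ = -K)
    (hN : (Fintype.card κ : ℂ) ≠ 0) (v w : κ → ℂ) :
    ew K v w - ew K w v - (2 * bw K w v / Fintype.card κ) • (1 : Matrix κ κ ℂ) ∈ S0 K := by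
  refine ⟨?_, ?_⟩
  · rw [transpose_sub, transpose_sub, sub_mul, sub_mul, ew_tr hK hKt, ew_tr hK hKt, mul_sub,
      mul_sub, transpose_smul, transpose_one, smul_mul_assoc, mul_smul_comm, one_mul, mul_one]
    abel
  · rw [trace_sub, trace_sub, trace_ew, trace_ew, trace_smul, trace_one, smul_eq_mul,
      bw_swap hKt w v]
    field_simp
    ring

/-- A Casimir tensor. -/
structure Cas (K : Matrix κ κ ℂ) (A A' : α → Matrix κ κ ℂ) : Prop where
  ksq : K * K = -1
  ktr : Kᵀ = -K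
  sk : ∀ i, (A i)ᵀ * K = -(K * A i)
  sk' : ∀ i, (A' i)ᵀ * K = -(K * A' i)
  symm : ∀ F : Matrix κ κ ℂ →ₗ[ℂ] Matrix κ κ ℂ →ₗ[ℂ] ℂ,
    ∑ i, F (A i) (A' i) = ∑ i, F (A' i) (A i)

/-- The operator `X ↦ ∑ A i * X * A' i`. -/
def Phi (A A' : α → Matrix κ κ ℂ) : Matrix κ κ ℂ →ₗ[ℂ] Matrix κ κ ℂ where
  toFun X := ∑ i, A i * X * A' i
  map_add' X Y := by simp only [mul_add, add_mul, Finset.sum_add_distrib]
  map_smul' z X := by simp only [mul_smul_comm, smul_mul_assoc, ← Finset.smul_sum,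
    RingHom.id_apply]

/-- The operator `X ↦ ∑ trace (A i * X) • A' i`. -/
def Pii (A A' : α → Matrix κ κ ℂ) : Matrix κ κ ℂ →ₗ[ℂ] Matrix κ κ ℂ where
  toFun X := ∑ i, trace (A i * X) • A' i
  map_add' X Y := by simp only [mul_add, trace_add, add_smul, Finset.sum_add_distrib]
  map_smul' z X := by simp only [mul_smul_comm, trace_smul, smul_assoc, ← Finset.smul_sum,
    RingHom.id_apply]

theorem Phi_apply (A A' : α → Matrix κ κ ℂ) (X : Matrix κ κ ℂ) :
    Phi A A' X = ∑ i, A i * X * A' i := rfl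

theorem Pii_apply (A A' : α → Matrix κ κ ℂ) (X : Matrix κ κ ℂ) :
    Pii A A' X = ∑ i, trace (A i * X) • A' i := rfl

theorem sk_bw {K A : Matrix κ κ ℂ} (hA : Aᵀ * K = -(K * A)) (u v : κ → ℂ) :
    bw K (A *ᵥ u) v = -bw K u (A *ᵥ v) := by
  rw [bw_mulVec_left, bw_mulVec_right, hA, neg_mulVec, dotProduct_neg]

theorem sk_bw' {K A : Matrix κ κ ℂ} (hKt : Kᵀ = -K) (hA : Aᵀ * K = -(K * A)) (u v : κ → ℂ) :
    bw K (A *ᵥ u) v = bw K (A *ᵥ v) u := by
  rw [sk_bw hA, bw_swap hKt]; ring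

variable {K : Matrix κ κ ℂ} {A A' : α → Matrix κ κ ℂ}

/-- The trilinear map of a Casimir tensor. -/
def tau3 (K : Matrix κ κ ℂ) (A A' : α → Matrix κ κ ℂ) (v w u : κ → ℂ) : κ → ℂ :=
  ∑ i, bw K (A' i *ᵥ w) u • (A i *ᵥ v)

theorem tau3_swap (hc : Cas K A A') (v w u : κ → ℂ) : tau3 K A A' v w u = tau3 K A A' v u w := by
  unfold tau3
  refine Finset.sum_congr rfl fun i _ => ?_
  rw [sk_bw' hc.ktr (hc.sk' i)]

/-- The bilinear map used for the symmetry. -/
def Fb (K : Matrix κ κ ℂ) (w v u : κ → ℂ) (k : κ) :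
    Matrix κ κ ℂ →ₗ[ℂ] Matrix κ κ ℂ →ₗ[ℂ] ℂ :=
  LinearMap.mk₂ ℂ (fun X Y => bw K (X *ᵥ w) v * (Y *ᵥ u) k)
    (fun X X' Y => by rw [add_mulVec, bw_add_left, add_mul])
    (fun z X Y => by rw [smul_mulVec, bw_smul_left, smul_eq_mul, mul_assoc])
    (fun X Y Y' => by rw [add_mulVec, Pi.add_apply, mul_add])
    (fun z X Y => by rw [smul_mulVec, Pi.smul_apply, smul_eq_mul, smul_eq_mul]; ring)

theorem Fb_apply (w v u : κ → ℂ) (k : κ) (X Y : Matrix κ κ ℂ) :
    Fb K w v u k X Y = bw K (X *ᵥ w) v * (Y *ᵥ u) k := rfl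

theorem Phi_ew (hc : Cas K A A') (v w u : κ → ℂ) :
    Phi A A' (ew K v w) *ᵥ u = -tau3 K A A' v w u := by
  rw [Phi_apply, sum_mulVec]
  unfold tau3
  rw [← Finset.sum_neg_distrib]
  refine Finset.sum_congr rfl fun i _ => ?_
  rw [mul_ew, ew_mul (hc.sk' i), neg_mulVec, ew_mulVec]

theorem Pii_ew (hc : Cas K A A') (v w u : κ → ℂ) :
    Pii A A' (ew K v w) *ᵥ u = -tau3 K A A' u w v := by
  rw [Pii_apply, sum_mulVec]
  unfold tau3
  funext k
  rw [Pi.neg_apply, Finset.sum_apply, Finset.sum_apply]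
  have h1 := hc.symm (Fb K w v u k)
  simp only [Fb_apply] at h1
  simp only [Pi.smul_apply, smul_eq_mul]
  rw [← h1, ← Finset.sum_neg_distrib]
  refine Finset.sum_congr rfl fun i _ => ?_
  rw [mul_ew, trace_ew, smul_mulVec, Pi.smul_apply, smul_eq_mul, sk_bw (hc.sk i) w v]
  ring

/-- **The crossing identity.** -/
theorem crossing (hc : Cas K A A') (hN : (Fintype.card κ : ℂ) ≠ 0) {φ0 γ : ℂ}
    (h0 : ∀ s ∈ S0 K, Phi A A' s = φ0 • s) (h1 : Phi A A' 1 = γ • (1 : Matrix κ κ ℂ))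
    (X : Matrix κ κ ℂ) :
    Phi A A' X = Pii A A' X - φ0 • X + (φ0 * trace X) • (1 : Matrix κ κ ℂ)
      + (2 * (γ - φ0) / Fintype.card κ) • sta K X := by
  -- the identity for symmetric tensors
  have hs : ∀ v w u : κ → ℂ, -tau3 K A A' v w u + tau3 K A A' w v u
      = φ0 • (bw K w u • v - bw K v u • w)
        + ((γ - φ0) * (2 * bw K w v / Fintype.card κ)) • u := by
    intro v w u
    have h2 := h0 _ (ew_S0 hc.ksq hc.ktr hN v w)
    rw [map_sub, map_sub, map_smul, h1] at h2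
    have h3 := congrArg (fun Z => Z *ᵥ u) h2
    simp only [sub_mulVec, smul_mulVec, one_mulVec, Phi_ew hc, ew_mulVec] at h3
    rw [sub_eq_iff_eq_add] at h3
    rw [← sub_neg_eq_add, h3, smul_sub, smul_smul, smul_smul]
    module
  -- the case of matrices of rank one
  have hr : ∀ v w : κ → ℂ, Phi A A' (ew K v w) = Pii A A' (ew K v w) - φ0 • ew K v w
      + (φ0 * trace (ew K v w)) • (1 : Matrix κ κ ℂ)
      + (2 * (γ - φ0) / Fintype.card κ) • sta K (ew K v w) := by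
    intro v w
    apply (Matrix.toLin').injective
    refine LinearMap.ext fun u => ?_
    rw [toLin'_apply, toLin'_apply]
    simp only [add_mulVec, sub_mulVec, smul_mulVec, one_mulVec, Phi_ew hc, Pii_ew hc, ew_mulVec,
      trace_ew, sta_ew hc.ksq hc.ktr, neg_mulVec]
    have h2 := hs v u w
    rw [tau3_swap hc v u w] at h2
    rw [tau3_swap hc u w v]
    have h3 : -tau3 K A A' v w u = -tau3 K A A' u v w + (φ0 • (bw K u w • v - bw K v w • u)
        + ((γ - φ0) * (2 * bw K u v / Fintype.card κ)) • w) := by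
      rw [← h2]; abel
    rw [h3, bw_swap hc.ktr w u, bw_swap hc.ktr w v, bw_swap hc.ktr v u]
    module
  -- extension by linearity
  let L : Matrix κ κ ℂ →ₗ[ℂ] Matrix κ κ ℂ :=
    { toFun := fun X => Pii A A' X - φ0 • X + (φ0 * trace X) • (1 : Matrix κ κ ℂ)
        + (2 * (γ - φ0) / Fintype.card κ) • sta K X
      map_add' := fun X Y => by
        have e : sta K (X + Y) = sta K X + sta K Y := by
          unfold sta; rw [transpose_add]; noncomm_ring
        rw [map_add, e, trace_add]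
        module
      map_smul' := fun z X => by
        have e : sta K (z • X) = z • sta K X := by
          unfold sta; rw [transpose_smul, mul_smul_comm, smul_mul_assoc, smul_neg]
        rw [map_smul, e, trace_smul, RingHom.id_apply]
        simp only [smul_eq_mul]
        module }
  have hL : Phi A A' = L := by
    refine Matrix.ext_linearMap ℂ fun i j => ?_
    refine LinearMap.ext_ring ?_
    rw [LinearMap.comp_apply, LinearMap.comp_apply]
    have h2 : singleLinearMap ℂ i j (1 : ℂ) = ew K (Pi.single i 1) (-(Pi.single j 1 ᵥ* K)) := by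
      unfold ew
      rw [neg_vecMul, vecMul_vecMul, hc.ksq, vecMul_neg, vecMul_one, neg_neg]
      exact single_eq_single_vecMulVec_single i j
    rw [h2]
    exact hr _ _
  rw [hL]
  rfl

theorem trace_sk_zero {K A : Matrix κ κ ℂ} (hK : K * K = -1) (hKt : Kᵀ = -K)
    (hA : Aᵀ * K = -(K * A)) : trace A = 0 := by
  have h1 := tr_sy_sk (a := 1) hK hKt (by rw [transpose_one, one_mul, mul_one]) hA
  rwa [one_mul] at h1

theorem Pii_one (hc : Cas K A A') : Pii A A' 1 = 0 := by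
  rw [Pii_apply]
  refine Finset.sum_eq_zero fun i _ => ?_
  rw [mul_one, trace_sk_zero hc.ksq hc.ktr (hc.sk i), zero_smul]

theorem sta_one (hc : Cas K A A') : sta K 1 = 1 := by
  unfold sta
  rw [transpose_one, mul_one, hc.ksq, neg_neg]

theorem sta_sk (hc : Cas K A A') {y : Matrix κ κ ℂ} (hy : yᵀ * K = -(K * y)) :
    sta K y = -y := by
  unfold sta
  rw [mul_assoc, hy, mul_neg, neg_neg, ← mul_assoc, hc.ksq]
  simp

theorem phi4 {A A' : α → Matrix (Fin 4) (Fin 4) ℂ} (hc : Cas J4 A A') {φ0 γ : ℂ}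
    (h0 : ∀ s ∈ S0 J4, Phi A A' s = φ0 • s)
    (h1 : Phi A A' 1 = γ • (1 : Matrix (Fin 4) (Fin 4) ℂ)) :
    φ0 = γ / 5 ∧ ∀ y, yᵀ * J4 = -(J4 * y) → Phi A A' y = Pii A A' y - (3 * γ / 5) • y := by
  have hN : (Fintype.card (Fin 4) : ℂ) = 4 := by rw [Fintype.card_fin]; norm_num
  have hcr := crossing hc (by rw [hN]; norm_num) h0 h1
  have h2 := hcr 1
  rw [h1, Pii_one hc, sta_one hc, trace_one, hN] at h2
  have h3 := congrFun (congrFun h2 0) 0
  simp only [Matrix.smul_apply, Matrix.add_apply, Matrix.sub_apply, Matrix.zero_apply,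
    Matrix.one_apply_eq, smul_eq_mul, mul_one] at h3
  have hφ : φ0 = γ / 5 := by linear_combination (-2 / 5 : ℂ) * h3
  refine ⟨hφ, fun y hy => ?_⟩
  rw [hcr y, trace_sk_zero hc.ksq hc.ktr hy, sta_sk hc hy, hN, hφ]
  module

theorem S0_two {a : Matrix (Fin 2) (Fin 2) ℂ} (ha : a ∈ S0 J2) : a = 0 := by
  obtain ⟨h, ht⟩ := ha
  have e : ∀ i j, (aᵀ * J2) i j = (J2 * a) i j := fun i j => by rw [h]
  have e00 := e 0 0
  have e01 := e 0 1
  have e11 := e 1 1
  simp [Matrix.mul_apply, Fin.sum_univ_two, J2] at e00 e01 e11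
  simp only [trace, diag_apply, Fin.sum_univ_two] at ht
  ext i j
  fin_cases i <;> fin_cases j
  · change a 0 0 = 0
    linear_combination (1 / 2 : ℂ) * ht + (1 / 2 : ℂ) * e01
  · change a 0 1 = 0
    linear_combination (1 / 2 : ℂ) * e11
  · change a 1 0 = 0
    linear_combination (-1 / 2 : ℂ) * e00
  · change a 1 1 = 0
    linear_combination (1 / 2 : ℂ) * ht - (1 / 2 : ℂ) * e01

theorem phi2 {A A' : α → Matrix (Fin 2) (Fin 2) ℂ} (hc : Cas J2 A A') {γ : ℂ}
    (h1 : Phi A A' 1 = γ • (1 : Matrix (Fin 2) (Fin 2) ℂ)) (y : Matrix (Fin 2) (Fin 2) ℂ)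
    (hy : yᵀ * J2 = -(J2 * y)) : Phi A A' y = Pii A A' y - γ • y := by
  have hN : (Fintype.card (Fin 2) : ℂ) = 2 := by rw [Fintype.card_fin]; norm_num
  have hcr := crossing hc (by rw [hN]; norm_num) (φ0 := 0) (γ := γ) (fun s hs => by
    rw [S0_two hs, map_zero, smul_zero]) h1 y
  rw [hcr, trace_sk_zero hc.ksq hc.ktr hy, sta_sk hc hy, hN]
  module

end Pool.Agent.V5helper88.HR
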