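import Pool.Agent.V5helper88.HR.G1
import Pool.Agent.Y800.Lin

/-!
Minimal ideals.
-/

set_option autoImplicit false

namespace Pool.Agent.V5helper88.HR

open Matrix Module

variable {ι : Type} [Fintype ι] [DecidableEq ι] {Ω : Matrix ι ι ℂ}
  {H : Submodule ℂ (Matrix ι ι ℂ)}

/-- Ideals of the Lie algebra. -/
structure Ideal (H a : Submodule ℂ (Matrix ι ι ℂ)) : Prop where
  le : a ≤ H
  br : ∀ X ∈ H, ∀ Y ∈ a, X * Y - Y * X ∈ a

/-- Minimal nonzero ideals. -/
structure MinId (H a : Submodule ℂ (Matrix ι ι ℂ)) : Prop where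
  id : Ideal H a
  ne : a ≠ ⊥
  min : ∀ b, Ideal H b → b ≤ a → b ≠ ⊥ → b = a

theorem exists_minId {b : Submodule ℂ (Matrix ι ι ℂ)} (hb : Ideal H b) (h0 : b ≠ ⊥) :
    ∃ a, a ≤ b ∧ MinId H a := by
  induction hn : finrank ℂ b using Nat.strong_induction_on generalizing b with
  | _ n ih =>
    by_cases hm : ∀ c, Ideal H c → c ≤ b → c ≠ ⊥ → c = b
    · exact ⟨b, le_rfl, hb, h0, hm⟩
    · push Not at hm
      obtain ⟨c, hc, hcb, hc0, hne⟩ := hm
      have hlt : c < b := lt_of_le_of_ne hcb hne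
      obtain ⟨a, hac, ha⟩ := ih _ (hn ▸ Submodule.finrank_lt_finrank_of_lt hlt) hc hc0 rfl
      exact ⟨a, hac.trans hcb, ha⟩

theorem comm_aeval {V Y : Matrix ι ι ℂ} (h : V * Y = Y * V) (f : Polynomial ℂ) :
    V * Polynomial.aeval Y f = Polynomial.aeval Y f * V := by
  have hp : ∀ n : ℕ, V * Y ^ n = Y ^ n * V := by
    intro n
    induction n with
    | zero => rw [pow_zero, one_mul, mul_one]
    | succ n ih => rw [pow_succ, ← mul_assoc, ih, mul_assoc, h, mul_assoc]
  induction f using Polynomial.induction_on' with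
  | add p q hp hq => rw [map_add, add_mul, mul_add, hp, hq]
  | monomial n a =>
    rw [Polynomial.aeval_monomial, Algebra.algebraMap_eq_smul_one, smul_mul_assoc, one_mul,
      smul_mul_assoc, mul_smul_comm, hp]

theorem nilpotent_of_trace' {Y : Matrix ι ι ℂ}
    (h : ∀ f : Polynomial ℂ, trace (Y * Polynomial.aeval Y f) = 0) : IsNilpotent Y := by
  let e := Fintype.equivFin ι
  let φ := Matrix.reindexAlgEquiv ℂ ℂ e
  have htr : ∀ Z : Matrix ι ι ℂ, trace (φ Z) = trace Z := by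
    intro Z
    change trace (Matrix.reindex e e Z) = trace Z
    simp only [trace, diag_apply, reindex_apply, submatrix_apply]
    exact e.symm.sum_comp fun i => Z i i
  have h1 : IsNilpotent (φ Y) := by
    refine Pool.Agent.Y800.nilpotent_of_trace ?_ ?_
    · intro m hm _
      exact Nat.cast_ne_zero.mpr (by omega)
    · intro f
      rw [Polynomial.aeval_algHom_apply φ Y f, ← map_mul, htr, trace_mul_comm]
      exact h f
  obtain ⟨m, hm⟩ := h1
  refine ⟨m, ?_⟩
  rw [← map_pow] at hm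
  exact (map_eq_zero_iff φ φ.injective).mp hm

/-- Commuting nilpotent matrices have a common kernel in a nonzero subspace. -/
theorem common_kernel (a : Submodule ℂ (Matrix ι ι ℂ))
    (hcomm : ∀ X ∈ a, ∀ Y ∈ a, X * Y = Y * X) (hnil : ∀ X ∈ a, IsNilpotent X)
    {W : Submodule ℂ (ι → ℂ)} (hW : ∀ X ∈ a, ∀ v ∈ W, X *ᵥ v ∈ W) (h0 : W ≠ ⊥) :
    ∃ v ∈ W, v ≠ 0 ∧ ∀ X ∈ a, X *ᵥ v = 0 := by
  induction hn : finrank ℂ W using Nat.strong_induction_on generalizing W with
  | _ n ih =>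
    by_cases hall : ∀ X ∈ a, ∀ v ∈ W, X *ᵥ v = 0
    · obtain ⟨v, hv, hv0⟩ := W.ne_bot_iff.mp h0
      exact ⟨v, hv, hv0, fun X hX => hall X hX v hv⟩
    · push Not at hall
      obtain ⟨X, hX, v, hv, hXv⟩ := hall
      let W' : Submodule ℂ (ι → ℂ) := W ⊓ LinearMap.ker (Matrix.toLin' X)
      have hmem : ∀ w, w ∈ W' ↔ w ∈ W ∧ X *ᵥ w = 0 := fun w => by
        simp only [W', Submodule.mem_inf, LinearMap.mem_ker, toLin'_apply]
      have hlt : W' < W := by
        refine lt_of_le_of_ne inf_le_left fun h => hXv ?_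
        have h1 : v ∈ W' := by rw [h]; exact hv
        exact ((hmem v).1 h1).2
      have hW'0 : W' ≠ ⊥ := by
        intro hbot
        -- all powers of `X` are injective on `W`
        have hinj : ∀ w ∈ W, X *ᵥ w = 0 → w = 0 := by
          intro w hw hXw
          have h1 : w ∈ W' := (hmem w).2 ⟨hw, hXw⟩
          rw [hbot, Submodule.mem_bot] at h1
          exact h1
        obtain ⟨m, hm⟩ := hnil X hX
        have hpow : ∀ k : ℕ, ∀ w ∈ W, X ^ k *ᵥ w = 0 → w = 0 := by
          intro k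
          induction k with
          | zero => intro w _ h; rwa [pow_zero, one_mulVec] at h
          | succ k ihk =>
            intro w hw h
            rw [pow_succ, ← mulVec_mulVec] at h
            exact hinj w hw (ihk _ (hW X hX w hw) h)
        apply hXv
        rw [hpow m v hv (by rw [hm, zero_mulVec]), mulVec_zero]
      obtain ⟨w, hw, hw0, hwa⟩ := ih _ (hn ▸ Submodule.finrank_lt_finrank_of_lt hlt)
        (W := W') (by
          intro Y hY w hw
          rw [hmem] at hw ⊢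
          refine ⟨hW Y hY w hw.1, ?_⟩
          rw [mulVec_mulVec, hcomm X hX Y hY, ← mulVec_mulVec, hw.2, mulVec_zero]) hW'0 rfl
      exact ⟨w, hlt.le hw, hw0, hwa⟩

/-- Minimal ideals are not abelian. -/
theorem MinId.nonab (hS : Sys Ω H) {a : Submodule ℂ (Matrix ι ι ℂ)} (ha : MinId H a) :
    ∃ X ∈ a, ∃ Y ∈ a, X * Y - Y * X ≠ 0 := by
  by_contra hcon
  push Not at hcon
  have hcomm : ∀ X ∈ a, ∀ Y ∈ a, X * Y = Y * X := fun X hX Y hY =>
    sub_eq_zero.mp (hcon X hX Y hY)
  -- the ideal generated by brackets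
  let c : Submodule ℂ (Matrix ι ι ℂ) :=
    Submodule.span ℂ {Z | ∃ X ∈ H, ∃ Y ∈ a, Z = X * Y - Y * X}
  have hca : c ≤ a := by
    refine Submodule.span_le.mpr ?_
    rintro _ ⟨X, hX, Y, hY, rfl⟩
    exact ha.id.br X hX Y hY
  have hc : Ideal H c := by
    refine ⟨hca.trans ha.id.le, fun X hX Y hY => ?_⟩
    exact Submodule.subset_span ⟨X, hX, Y, hca hY, rfl⟩
  by_cases hc0 : c = ⊥
  · apply ha.ne
    rw [Submodule.eq_bot_iff]
    intro Y hY
    have h1 : Cm H Y := by
      intro X hX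
      have h2 : X * Y - Y * X ∈ c := Submodule.subset_span ⟨X, hX, Y, hY, rfl⟩
      rw [hc0, Submodule.mem_bot, sub_eq_zero] at h2
      exact h2.symm
    have h2 := hS.sy Y h1
    have h3 := hS.sk Y (ha.id.le hY)
    rw [h2] at h3
    apply hS.mul_left_inj
    rw [mul_zero]
    have h4 : (2 : ℂ) • (Ω * Y) = 0 := by
      rw [two_smul]
      nth_rewrite 1 [h3]
      exact neg_add_cancel _
    exact (smul_eq_zero.mp h4).resolve_left two_ne_zero
  have hceq := ha.min c hc hca hc0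
  have hnil : ∀ Y ∈ a, IsNilpotent Y := by
    intro Y hY
    have hkey : ∀ f : Polynomial ℂ, ∀ Z ∈ a, trace (Z * Polynomial.aeval Y f) = 0 := by
      intro f Z hZ
      rw [← hceq] at hZ
      refine Submodule.span_induction (p := fun Z _ => trace (Z * Polynomial.aeval Y f) = 0)
        ?_ ?_ ?_ ?_ hZ
      · rintro _ ⟨U, hU, V, hV, rfl⟩
        have h1 : V * Polynomial.aeval Y f = Polynomial.aeval Y f * V :=
          comm_aeval (hcomm V hV Y hY) f
        rw [sub_mul, trace_sub, mul_assoc, h1, ← mul_assoc, trace_mul_comm, ← mul_assoc, sub_self]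
      · rw [zero_mul, trace_zero]
      · intro x y _ _ hx hy
        rw [add_mul, trace_add, hx, hy, add_zero]
      · intro z x _ hx
        rw [smul_mul_assoc, trace_smul, hx, smul_zero]
    exact nilpotent_of_trace' fun f => hkey f Y hY
  let W : Submodule ℂ (ι → ℂ) :=
    { carrier := {v | ∀ X ∈ a, X *ᵥ v = 0}
      zero_mem' := fun X _ => mulVec_zero _
      add_mem' := fun {v w} hv hw X hX => by rw [mulVec_add, hv X hX, hw X hX, add_zero]
      smul_mem' := fun z v hv X hX => by rw [mulVec_smul, hv X hX, smul_zero] }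
  have hW : Stable H W := by
    intro X hX v hv Y hY
    have h1 : Y * X = X * Y - (X * Y - Y * X) := by abel
    rw [mulVec_mulVec, h1, sub_mulVec, ← mulVec_mulVec, hv Y hY, mulVec_zero,
      hv _ (ha.id.br X hX Y hY), sub_zero]
  obtain ⟨P, hP, hP1, hP2⟩ := hS.proj W hW
  by_cases hK : LinearMap.ker (Matrix.toLin' P) = ⊥
  · apply ha.ne
    rw [Submodule.eq_bot_iff]
    intro X hX
    ext i j
    have h1 : (Pi.single j 1 : ι → ℂ) ∈ W := by
      have h2 : (Pi.single j 1 : ι → ℂ) - P *ᵥ Pi.single j 1 ∈ LinearMap.ker (Matrix.toLin' P) := by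
        rw [LinearMap.mem_ker, toLin'_apply, mulVec_sub, hP2 _ (hP1 _), sub_self]
      rw [hK, Submodule.mem_bot, sub_eq_zero] at h2
      rw [h2]
      exact hP1 _
    have h2 := congrFun (h1 X hX) i
    rwa [mulVec_single_one] at h2
  · obtain ⟨v, hv, hv0, hva⟩ := common_kernel a hcomm hnil (W := LinearMap.ker (Matrix.toLin' P))
      (by
        intro X hX v hv
        rw [LinearMap.mem_ker, toLin'_apply] at hv ⊢
        rw [mulVec_mulVec, hP X (ha.id.le hX), ← mulVec_mulVec, hv, mulVec_zero]) hK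
    apply hv0
    rw [LinearMap.mem_ker, toLin'_apply, hP2 v hva] at hv
    exact hv

/-- The trace form is nondegenerate on minimal ideals. -/
theorem MinId.nd (hS : Sys Ω H) {a : Submodule ℂ (Matrix ι ι ℂ)} (ha : MinId H a)
    {X : Matrix ι ι ℂ} (hX : X ∈ a) (h : ∀ Y ∈ a, trace (X * Y) = 0) : X = 0 := by
  let r : Submodule ℂ (Matrix ι ι ℂ) :=
    { carrier := {X | X ∈ a ∧ ∀ Y ∈ a, trace (X * Y) = 0}
      zero_mem' := ⟨a.zero_mem, fun Y _ => by rw [zero_mul, trace_zero]⟩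
      add_mem' := fun {X Z} hX hZ => ⟨a.add_mem hX.1 hZ.1, fun Y hY => by
        rw [add_mul, trace_add, hX.2 Y hY, hZ.2 Y hY, add_zero]⟩
      smul_mem' := fun z X hX => ⟨a.smul_mem z hX.1, fun Y hY => by
        rw [smul_mul_assoc, trace_smul, hX.2 Y hY, smul_zero]⟩ }
  have hinv : ∀ X Y Z : Matrix ι ι ℂ,
      trace ((X * Y - Y * X) * Z) = trace (X * (Y * Z - Z * Y)) := by
    intro X Y Z
    rw [sub_mul, mul_sub, trace_sub, trace_sub, mul_assoc, ← mul_assoc X Z Y,
      trace_mul_comm (X * Z) Y, ← mul_assoc Y X Z, mul_assoc Y X Z]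
  have hr : Ideal H r := by
    refine ⟨fun X hX => ha.id.le hX.1, fun X hX Y hY => ⟨ha.id.br X hX Y hY.1, fun Z hZ => ?_⟩⟩
    have h1 : X * Y - Y * X = -(Y * X - X * Y) := by abel
    rw [h1, neg_mul, trace_neg, hinv, hY.2 _ (ha.id.br X hX Z hZ), neg_zero]
  by_contra hX0
  have hr0 : r ≠ ⊥ := by
    rw [Submodule.ne_bot_iff]
    exact ⟨X, ⟨hX, h⟩, hX0⟩
  have hra := ha.min r hr (fun X hX => hX.1) hr0
  obtain ⟨Y, hY, Z, hZ, hne⟩ := ha.nonab hS
  apply hne
  refine hS.trnd _ (hS.br Y (ha.id.le hY) Z (ha.id.le hZ)) fun U hU => ?_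
  rw [hinv]
  have h2 : Y ∈ r := by rw [hra]; exact hY
  refine h2.2 _ ?_
  have h3 := ha.id.br U hU Z hZ
  have h4 : Z * U - U * Z = -(U * Z - Z * U) := by abel
  rw [h4]
  exact a.neg_mem h3

/-- Equivariant maps of a minimal ideal are scalars. -/
theorem MinId.scal {a : Submodule ℂ (Matrix ι ι ℂ)} (ha : MinId H a) (f : a →ₗ[ℂ] a)
    (hf : ∀ (X : Matrix ι ι ℂ) (hX : X ∈ H) (Y : a),
      (f ⟨X * Y.1 - Y.1 * X, ha.id.br X hX Y.1 Y.2⟩).1 = X * (f Y).1 - (f Y).1 * X) :
    ∃ z : ℂ, ∀ Y, f Y = z • Y := by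
  haveI : Nontrivial a := by
    rw [Submodule.nontrivial_iff_ne_bot]; exact ha.ne
  obtain ⟨z, hz⟩ := Module.End.exists_eigenvalue f
  refine ⟨z, ?_⟩
  let b : Submodule ℂ (Matrix ι ι ℂ) := (Module.End.eigenspace f z).map a.subtype
  have hb : Ideal H b := by
    refine ⟨(Submodule.map_subtype_le _ _).trans ha.id.le, ?_⟩
    rintro X hX _ ⟨Y, hY, rfl⟩
    refine ⟨⟨X * Y.1 - Y.1 * X, ha.id.br X hX Y.1 Y.2⟩, ?_, rfl⟩
    change _ ∈ Module.End.eigenspace f z
    have hY' : f Y = z • Y := Module.End.mem_eigenspace_iff.mp hY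
    rw [Module.End.mem_eigenspace_iff]
    apply Subtype.ext
    rw [hf X hX, hY']
    change X * (z • Y.1) - (z • Y.1) * X = z • (X * Y.1 - Y.1 * X)
    rw [mul_smul_comm, smul_mul_assoc, smul_sub]
  have hb0 : b ≠ ⊥ := by
    obtain ⟨v, hv⟩ := hz.exists_hasEigenvector
    rw [Submodule.ne_bot_iff]
    refine ⟨v.1, ⟨v, hv.1, rfl⟩, ?_⟩
    intro h
    exact hv.2 (Subtype.ext h)
  have hba := ha.min b hb (Submodule.map_subtype_le _ _) hb0
  intro Y
  have h1 : Y.1 ∈ b := by rw [hba]; exact Y.2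
  obtain ⟨Z, hZ, hZY⟩ := h1
  have h2 : Z = Y := Subtype.ext hZY
  rw [← h2]
  exact Module.End.mem_eigenspace_iff.mp hZ

/-- Every block has a minimal ideal which acts nontrivially. -/
theorem exists_minId_block (hS : Sys Ω H) {Y : Submodule ℂ (ι → ℂ)} (hY : Block H Y) :
    ∃ a, MinId H a ∧ ∃ X ∈ a, ∃ v ∈ Y, X *ᵥ v ≠ 0 := by
  let k : Submodule ℂ (Matrix ι ι ℂ) :=
    { carrier := {X | X ∈ H ∧ ∀ v ∈ Y, X *ᵥ v = 0}
      zero_mem' := ⟨H.zero_mem, fun v _ => zero_mulVec v⟩
      add_mem' := fun {X Z} hX hZ => ⟨H.add_mem hX.1 hZ.1, fun v hv => by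
        rw [add_mulVec, hX.2 v hv, hZ.2 v hv, add_zero]⟩
      smul_mem' := fun z X hX => ⟨H.smul_mem z hX.1, fun v hv => by
        rw [smul_mulVec, hX.2 v hv, smul_zero]⟩ }
  let b : Submodule ℂ (Matrix ι ι ℂ) :=
    { carrier := {X | X ∈ H ∧ ∀ Z ∈ k, trace (X * Z) = 0}
      zero_mem' := ⟨H.zero_mem, fun Z _ => by rw [zero_mul, trace_zero]⟩
      add_mem' := fun {X Z} hX hZ => ⟨H.add_mem hX.1 hZ.1, fun W hW => by
        rw [add_mul, trace_add, hX.2 W hW, hZ.2 W hW, add_zero]⟩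
      smul_mem' := fun z X hX => ⟨H.smul_mem z hX.1, fun W hW => by
        rw [smul_mul_assoc, trace_smul, hX.2 W hW, smul_zero]⟩ }
  have hinv : ∀ X Y Z : Matrix ι ι ℂ,
      trace ((X * Y - Y * X) * Z) = trace (X * (Y * Z - Z * Y)) := by
    intro X Y Z
    rw [sub_mul, mul_sub, trace_sub, trace_sub, mul_assoc, ← mul_assoc X Z Y,
      trace_mul_comm (X * Z) Y, ← mul_assoc Y X Z, mul_assoc Y X Z]
  have hk : ∀ X ∈ H, ∀ Z ∈ k, X * Z - Z * X ∈ k := by
    intro X hX Z hZ
    refine ⟨hS.br X hX Z hZ.1, fun v hv => ?_⟩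
    rw [sub_mulVec, ← mulVec_mulVec, ← mulVec_mulVec, hZ.2 v hv, mulVec_zero,
      hZ.2 _ (hY.st X hX v hv), sub_zero]
  have hb : Ideal H b := by
    refine ⟨fun X hX => hX.1, fun X hX Z hZ => ⟨hS.br X hX Z hZ.1, fun W hW => ?_⟩⟩
    have h1 : X * Z - Z * X = -(Z * X - X * Z) := by abel
    rw [h1, neg_mul, trace_neg, hinv, hZ.2 _ (hk X hX W hW), neg_zero]
  -- the kernel is not everything
  have hkH : ∃ X ∈ H, X ∉ k := by
    by_contra hcon
    push Not at hcon
    have hz : ∀ X ∈ H, ∀ v ∈ Y, X *ᵥ v = 0 := fun X hX v hv => (hcon X hX).2 v hv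
    obtain ⟨u, hu, hu0⟩ := Y.ne_bot_iff.mp hY.ne
    have h1 : Submodule.span ℂ {u} = Y := by
      refine hY.min _ ?_ ?_ ?_
      · intro X hX v hv
        obtain ⟨c, rfl⟩ := Submodule.mem_span_singleton.mp hv
        rw [mulVec_smul, hz X hX u hu, smul_zero]
        exact Submodule.zero_mem _
      · rw [Submodule.span_singleton_le_iff_mem]; exact hu
      · rw [Ne, Submodule.span_singleton_eq_bot]; exact hu0
    apply hu0
    refine hY.st.nondeg hS hu fun w hw => ?_
    rw [← h1] at hw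
    obtain ⟨c, rfl⟩ := Submodule.mem_span_singleton.mp hw
    rw [bw_smul_right, bw_self hS.alt, mul_zero]
  have hb0 : b ≠ ⊥ := by
    intro hbot
    -- the map to the dual of the kernel is injective
    let T : H →ₗ[ℂ] Module.Dual ℂ k :=
      { toFun := fun X =>
          { toFun := fun Z => trace (X.1 * Z.1)
            map_add' := fun Z W => by rw [Submodule.coe_add, mul_add, trace_add]
            map_smul' := fun z Z => by
              rw [Submodule.coe_smul, mul_smul_comm, trace_smul, RingHom.id_apply] }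
        map_add' := fun X X' => by
          refine LinearMap.ext fun Z => ?_
          change trace ((X.1 + X'.1) * Z.1) = trace (X.1 * Z.1) + trace (X'.1 * Z.1)
          rw [add_mul, trace_add]
        map_smul' := fun z X => by
          refine LinearMap.ext fun Z => ?_
          change trace ((z • X.1) * Z.1) = z • trace (X.1 * Z.1)
          rw [smul_mul_assoc, trace_smul] }
    have hT : Function.Injective T := by
      rw [injective_iff_map_eq_zero]
      intro X hX
      have h1 : X.1 ∈ b := ⟨X.2, fun Z hZ => LinearMap.congr_fun hX ⟨Z, hZ⟩⟩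
      rw [hbot, Submodule.mem_bot] at h1
      exact Subtype.ext h1
    have h1 := LinearMap.finrank_le_finrank_of_injective hT
    rw [Subspace.dual_finrank_eq] at h1
    have h2 : k = H := Submodule.eq_of_le_of_finrank_le (fun X hX => hX.1) h1
    obtain ⟨X, hX, hXk⟩ := hkH
    rw [h2] at hXk
    exact hXk hX
  obtain ⟨a, hab, ha⟩ := exists_minId hb hb0
  refine ⟨a, ha, ?_⟩
  by_contra hcon
  push Not at hcon
  apply ha.ne
  rw [Submodule.eq_bot_iff]
  intro X hX
  refine ha.nd hS hX fun Z hZ => ?_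
  exact (hab hX).2 Z ⟨ha.id.le hZ, fun v hv => hcon Z hZ v hv⟩

end Pool.Agent.V5helper88.HR
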