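import Pool.Agent.V5helper88.HR.G5
import Pool.Agent.V5helper88.HR.G6

/-!
Dual bases of minimal ideals, and their Casimir operators on blocks.
-/

set_option autoImplicit false

namespace Pool.Agent.V5helper88.HR

open Matrix Module

variable {ι : Type} [Fintype ι] [DecidableEq ι] {Ω : Matrix ι ι ℂ}
  {H : Submodule ℂ (Matrix ι ι ℂ)} {a : Submodule ℂ (Matrix ι ι ℂ)}

/-- Dual bases of `a` for the trace form. -/
structure Dual (a : Submodule ℂ (Matrix ι ι ℂ)) {n : ℕ} (x x' : Fin n → Matrix ι ι ℂ) : Prop where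
  mem : ∀ i, x i ∈ a
  mem' : ∀ i, x' i ∈ a
  ex : ∀ Y ∈ a, ∑ i, trace (x i * Y) • x' i = Y
  ex' : ∀ Y ∈ a, ∑ i, trace (x' i * Y) • x i = Y
  tr : ∑ i, trace (x i * x' i) = n

theorem exists_dual (hS : Sys Ω H) (ha : MinId H a) :
    ∃ (n : ℕ) (x x' : Fin n → Matrix ι ι ℂ), Dual a x x' ∧ 2 ≤ n := by
  let B : LinearMap.BilinForm ℂ a :=
    LinearMap.mk₂ ℂ (fun X Y => trace (X.1 * Y.1))
      (fun X X' Y => by rw [Submodule.coe_add, add_mul, trace_add])
      (fun z X Y => by rw [Submodule.coe_smul, smul_mul_assoc, trace_smul])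
      (fun X Y Y' => by rw [Submodule.coe_add, mul_add, trace_add])
      (fun z X Y => by rw [Submodule.coe_smul, mul_smul_comm, trace_smul])
  have hBa : ∀ X Y, B X Y = trace (X.1 * Y.1) := fun X Y => rfl
  have hB : B.Nondegenerate := by
    refine ⟨fun X h => Subtype.ext ?_, fun X h => Subtype.ext ?_⟩
    · exact ha.nd hS X.2 fun Y hY => h ⟨Y, hY⟩
    · refine ha.nd hS X.2 fun Y hY => ?_
      rw [trace_mul_comm]
      exact h ⟨Y, hY⟩
  let b := Module.finBasis ℂ a
  let d := B.dualBasis hB b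
  have hdb : ∀ i j, B (d i) (b j) = if j = i then 1 else 0 := fun i j =>
    LinearMap.BilinForm.apply_dualBasis_left hB b i j
  have hbd : ∀ i j, B (b i) (d j) = if i = j then 1 else 0 := by
    intro i j
    rw [hBa, trace_mul_comm, ← hBa, hdb]
  refine ⟨finrank ℂ a, fun i => (b i).1, fun i => (d i).1, ⟨fun i => (b i).2, fun i => (d i).2,
    fun Y hY => ?_, fun Y hY => ?_, ?_⟩, ?_⟩
  · have h1 : ∑ i, B (b i) ⟨Y, hY⟩ • d i = ⟨Y, hY⟩ := by
      conv_rhs => rw [← d.sum_repr ⟨Y, hY⟩]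
      refine Finset.sum_congr rfl fun i _ => ?_
      congr 1
      conv_lhs => rw [← d.sum_repr ⟨Y, hY⟩]
      rw [map_sum, Finset.sum_eq_single i]
      · rw [map_smul, hbd, if_pos rfl, smul_eq_mul, mul_one]
      · intro j _ hj
        rw [map_smul, hbd, if_neg (Ne.symm hj), smul_zero]
      · intro h; exact absurd (Finset.mem_univ _) h
    have h2 := congrArg (Submodule.subtype a) h1
    rw [map_sum] at h2
    exact h2
  · have h1 : ∑ i, B (d i) ⟨Y, hY⟩ • b i = ⟨Y, hY⟩ := by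
      conv_rhs => rw [← b.sum_repr ⟨Y, hY⟩]
      refine Finset.sum_congr rfl fun i _ => ?_
      congr 1
      conv_lhs => rw [← b.sum_repr ⟨Y, hY⟩]
      rw [map_sum, Finset.sum_eq_single i]
      · rw [map_smul, hdb, if_pos rfl, smul_eq_mul, mul_one]
      · intro j _ hj
        rw [map_smul, hdb, if_neg hj, smul_zero]
      · intro h; exact absurd (Finset.mem_univ _) h
    have h2 := congrArg (Submodule.subtype a) h1
    rw [map_sum] at h2
    exact h2
  · have h1 : ∀ i, trace ((b i).1 * (d i).1) = 1 := fun i => by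
      rw [← hBa, hbd, if_pos rfl]
    rw [Finset.sum_congr rfl fun i _ => h1 i, Finset.sum_const, Finset.card_univ,
      Fintype.card_fin, nsmul_eq_mul, mul_one]
  · by_contra hlt
    have h1 : finrank ℂ a ≤ 1 := by omega
    obtain ⟨X, hX, Y, hY, hne⟩ := ha.nonab hS
    apply hne
    have h2 : ∃ v : a, ∀ w : a, ∃ c : ℂ, c • v = w := finrank_le_one_iff.mp h1
    obtain ⟨v, hv⟩ := h2
    obtain ⟨c, hc⟩ := hv ⟨X, hX⟩
    obtain ⟨e, he⟩ := hv ⟨Y, hY⟩
    have hc' : X = c • v.1 := (congrArg Subtype.val hc).symm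
    have he' : Y = e • v.1 := (congrArg Subtype.val he).symm
    rw [hc', he', smul_mul_smul_comm, smul_mul_smul_comm, mul_comm e c, sub_self]

section dual

variable {n : ℕ} {x x' : Fin n → Matrix ι ι ℂ} (hD : Dual a x x')

include hD

/-- Invariance of the Casimir tensor. -/
theorem Dual.inv (ha : Ideal H a) {X : Matrix ι ι ℂ} (hX : X ∈ H) {Z : Type} [AddCommGroup Z]
    [Module ℂ Z] (F : Matrix ι ι ℂ →ₗ[ℂ] Matrix ι ι ℂ →ₗ[ℂ] Z) :
    ∑ i, F (X * x i - x i * X) (x' i) + ∑ i, F (x i) (X * x' i - x' i * X) = 0 := by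
  have h1 : ∀ i, F (X * x i - x i * X) (x' i)
      = ∑ j, trace (x' j * (X * x i - x i * X)) • F (x j) (x' i) := by
    intro i
    conv_lhs => rw [← hD.ex' _ (ha.br X hX _ (hD.mem i))]
    rw [map_sum, LinearMap.sum_apply]
    refine Finset.sum_congr rfl fun j _ => ?_
    rw [map_smul, LinearMap.smul_apply]
  have h2 : ∀ i, F (x i) (X * x' i - x' i * X)
      = ∑ j, trace (x j * (X * x' i - x' i * X)) • F (x i) (x' j) := by
    intro i
    conv_lhs => rw [← hD.ex _ (ha.br X hX _ (hD.mem' i))]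
    rw [map_sum]
    refine Finset.sum_congr rfl fun j _ => ?_
    rw [map_smul]
  simp only [h1, h2]
  rw [Finset.sum_comm, ← Finset.sum_add_distrib]
  refine Finset.sum_eq_zero fun i _ => ?_
  rw [← Finset.sum_add_distrib]
  refine Finset.sum_eq_zero fun j _ => ?_
  rw [← add_smul]
  have h3 : trace (x' i * (X * x j - x j * X)) + trace (x j * (X * x' i - x' i * X)) = 0 := by
    rw [mul_sub, mul_sub, trace_sub, trace_sub]
    have e1 : trace (x' i * (X * x j)) = trace (x j * (x' i * X)) := by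
      rw [← mul_assoc, trace_mul_comm]
    have e2 : trace (x' i * (x j * X)) = trace (x j * (X * x' i)) := by
      rw [trace_mul_comm, mul_assoc]
    rw [e1, e2]; ring
  rw [h3, zero_smul]

/-- Symmetry of the Casimir tensor. -/
theorem Dual.symm {Z : Type} [AddCommGroup Z] [Module ℂ Z]
    (F : Matrix ι ι ℂ →ₗ[ℂ] Matrix ι ι ℂ →ₗ[ℂ] Z) :
    ∑ i, F (x i) (x' i) = ∑ i, F (x' i) (x i) := by
  have h1 : ∀ i, F (x i) (x' i) = ∑ j, trace (x j * x i) • F (x' j) (x' i) := by
    intro i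
    conv_lhs => rw [← hD.ex _ (hD.mem i)]
    rw [map_sum, LinearMap.sum_apply]
    refine Finset.sum_congr rfl fun j _ => ?_
    rw [map_smul, LinearMap.smul_apply]
  have h2 : ∀ i, F (x' i) (x i) = ∑ j, trace (x j * x i) • F (x' i) (x' j) := by
    intro i
    conv_lhs => rw [← hD.ex _ (hD.mem i)]
    rw [map_sum]
    refine Finset.sum_congr rfl fun j _ => ?_
    rw [map_smul]
  simp only [h1, h2]
  rw [Finset.sum_comm]
  refine Finset.sum_congr rfl fun i _ => Finset.sum_congr rfl fun j _ => ?_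
  rw [trace_mul_comm]

/-- Invariant bilinear forms are multiples of the trace form. -/
theorem Dual.form (ha : MinId H a) (β : Matrix ι ι ℂ →ₗ[ℂ] Matrix ι ι ℂ →ₗ[ℂ] ℂ)
    (hβ : ∀ X ∈ H, ∀ Y ∈ a, ∀ Z ∈ a, β (X * Y - Y * X) Z + β Y (X * Z - Z * X) = 0) :
    ∃ t : ℂ, ∀ Y ∈ a, ∀ Z ∈ a, β Y Z = t * trace (Y * Z) := by
  let f : a →ₗ[ℂ] a :=
    { toFun := fun Y => ∑ i, β Y.1 (x i) • (⟨x' i, hD.mem' i⟩ : a)
      map_add' := fun Y Z => by
        simp only [Submodule.coe_add, map_add, LinearMap.add_apply, add_smul,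
          Finset.sum_add_distrib]
      map_smul' := fun z Y => by
        simp only [Submodule.coe_smul, map_smul, LinearMap.smul_apply, smul_assoc,
          ← Finset.smul_sum, RingHom.id_apply] }
  have hf : ∀ Y : a, (f Y).1 = ∑ i, β Y.1 (x i) • x' i := by
    intro Y
    change Submodule.subtype a (∑ i, β Y.1 (x i) • (⟨x' i, hD.mem' i⟩ : a)) = _
    rw [map_sum]
    rfl
  obtain ⟨t, ht⟩ := ha.scal f (by
    intro X hX Y
    rw [hf, hf]
    let F : Matrix ι ι ℂ →ₗ[ℂ] Matrix ι ι ℂ →ₗ[ℂ] Matrix ι ι ℂ :=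
      LinearMap.mk₂ ℂ (fun U V => β Y.1 U • V)
        (fun U U' V => by rw [map_add, add_smul])
        (fun z U V => by rw [map_smul, smul_assoc])
        (fun U V V' => by rw [smul_add])
        (fun z U V => by rw [smul_comm])
    have h1 := hD.inv ha.id hX F
    have h2 : ∀ U V, F U V = β Y.1 U • V := fun U V => rfl
    simp only [h2] at h1
    have h3 : ∑ i, β (X * Y.1 - Y.1 * X) (x i) • x' i
        = -∑ i, β Y.1 (X * x i - x i * X) • x' i := by
      rw [← Finset.sum_neg_distrib]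
      refine Finset.sum_congr rfl fun i _ => ?_
      rw [eq_neg_of_add_eq_zero_left (hβ X hX Y.1 Y.2 (x i) (hD.mem i)), neg_smul]
    rw [h3, neg_eq_of_add_eq_zero_right h1]
    simp only [smul_sub, Finset.sum_sub_distrib, Finset.mul_sum, Finset.sum_mul, mul_smul_comm,
      smul_mul_assoc])
  refine ⟨t, fun Y hY Z hZ => ?_⟩
  have h1 := ht ⟨Y, hY⟩
  have h2 := congrArg (fun U : a => trace (U.1 * Z)) h1
  rw [hf, Finset.sum_mul, trace_sum] at h2
  have h3 : trace ((t • (⟨Y, hY⟩ : a)).1 * Z) = t * trace (Y * Z) := by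
    change trace ((t • Y) * Z) = _
    rw [smul_mul_assoc, trace_smul, smul_eq_mul]
  rw [h3] at h2
  rw [← h2]
  conv_lhs => rw [← hD.ex' Z hZ]
  rw [map_sum]
  refine Finset.sum_congr rfl fun i _ => ?_
  rw [map_smul, smul_mul_assoc, trace_smul, smul_eq_mul, smul_eq_mul, mul_comm]

/-- The Casimir operator of the adjoint representation. -/
theorem Dual.casimir (ha : MinId H a) :
    ∃ k : ℂ, ∀ Y ∈ a, ∑ i, (x i * (x' i * Y - Y * x' i) - (x' i * Y - Y * x' i) * x i)
      = k • Y := by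
  let f : a →ₗ[ℂ] a :=
    { toFun := fun Y => ∑ i, (⟨x i * (x' i * Y.1 - Y.1 * x' i) - (x' i * Y.1 - Y.1 * x' i) * x i,
        ha.id.br _ (ha.id.le (hD.mem i)) _ (ha.id.br _ (ha.id.le (hD.mem' i)) _ Y.2)⟩ : a)
      map_add' := fun Y Z => by
        rw [← Finset.sum_add_distrib]
        refine Finset.sum_congr rfl fun i _ => Subtype.ext ?_
        simp only [Submodule.coe_add]
        noncomm_ring
      map_smul' := fun z Y => by
        rw [RingHom.id_apply, Finset.smul_sum]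
        refine Finset.sum_congr rfl fun i _ => Subtype.ext ?_
        simp only [Submodule.coe_smul, mul_smul_comm, smul_mul_assoc, ← smul_sub] }
  have hf : ∀ Y : a, (f Y).1 = ∑ i, (x i * (x' i * Y.1 - Y.1 * x' i)
      - (x' i * Y.1 - Y.1 * x' i) * x i) := by
    intro Y
    change Submodule.subtype a (∑ i, (⟨x i * (x' i * Y.1 - Y.1 * x' i)
      - (x' i * Y.1 - Y.1 * x' i) * x i, _⟩ : a)) = _
    rw [map_sum]
    rfl
  obtain ⟨k, hk⟩ := ha.scal f (by
    intro X hX Y
    rw [hf, hf]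
    let F : Matrix ι ι ℂ →ₗ[ℂ] Matrix ι ι ℂ →ₗ[ℂ] Matrix ι ι ℂ :=
      LinearMap.mk₂ ℂ (fun U V => U * (V * Y.1 - Y.1 * V) - (V * Y.1 - Y.1 * V) * U)
        (fun U U' V => by noncomm_ring)
        (fun z U V => by simp only [smul_mul_assoc, mul_smul_comm, smul_sub])
        (fun U V V' => by noncomm_ring)
        (fun z U V => by simp only [smul_mul_assoc, mul_smul_comm, smul_sub, mul_sub, sub_mul])
    have h1 := hD.inv ha.id hX F
    have h2 : ∀ U V, F U V = U * (V * Y.1 - Y.1 * V) - (V * Y.1 - Y.1 * V) * U := fun U V => rfl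
    simp only [h2] at h1
    rw [← Finset.sum_add_distrib] at h1
    rw [Finset.mul_sum, Finset.sum_mul, ← Finset.sum_sub_distrib, ← sub_eq_zero,
      ← Finset.sum_sub_distrib, ← neg_eq_zero, ← Finset.sum_neg_distrib, ← h1]
    refine Finset.sum_congr rfl fun i _ => ?_
    simp only
    noncomm_ring)
  refine ⟨k, fun Y hY => ?_⟩
  have h1 := congrArg Subtype.val (hk ⟨Y, hY⟩)
  rw [hf] at h1
  exact h1

end dual

end Pool.Agent.V5helper88.HR
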