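import Pool.Agent.V5helper88.HR.G7

/-!
The Casimir operator of a minimal ideal on a block with a frame.
-/

set_option autoImplicit false

namespace Pool.Agent.V5helper88.HR

open Matrix Module

variable {ι : Type} [Fintype ι] [DecidableEq ι] {Ω : Matrix ι ι ℂ}
  {H : Submodule ℂ (Matrix ι ι ℂ)} {a : Submodule ℂ (Matrix ι ι ℂ)}
  {n : ℕ} {x x' : Fin n → Matrix ι ι ℂ}
  {κ : Type} [Fintype κ] [DecidableEq κ] {K : Matrix κ κ ℂ} {B : Matrix ι κ ℂ}

theorem frame_irr (hS : Sys Ω H) (hB : Frame Ω H K B) {Y : Submodule ℂ (ι → ℂ)}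
    (hY : Block H Y) (hr : LinearMap.range B.mulVecLin = Y) :
    Irr K {R | ∃ X ∈ H, R = rho Ω K B X} := by
  refine ⟨?_, ?_, ?_⟩
  · rintro _ ⟨X, hX, rfl⟩
    exact hB.rho_sk hS hX
  · intro P hP
    exact hB.comm_scalar hS hY hr fun X hX => hP _ ⟨X, hX, rfl⟩
  · intro W hW
    exact hB.irred hY hr W fun X hX => hW _ ⟨X, hX, rfl⟩

theorem frame_cas (hS : Sys Ω H) (ha : MinId H a) (hD : Dual a x x') (hB : Frame Ω H K B) :
    Cas K (fun i => rho Ω K B (x i)) (fun i => rho Ω K B (x' i)) := by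
  refine ⟨hB.ksq, hB.ktr, fun i => hB.rho_sk hS (ha.id.le (hD.mem i)),
    fun i => hB.rho_sk hS (ha.id.le (hD.mem' i)), fun F => ?_⟩
  exact hD.symm ((F.comp (rho Ω K B)).compl₂ (rho Ω K B))

theorem phi_ad (ha : MinId H a) (hD : Dual a x x') (hB : Frame Ω H K B)
    {X : Matrix ι ι ℂ} (hX : X ∈ H) (Z : Matrix κ κ ℂ) :
    Phi (fun i => rho Ω K B (x i)) (fun i => rho Ω K B (x' i))
        (rho Ω K B X * Z - Z * rho Ω K B X)
      = rho Ω K B X * Phi (fun i => rho Ω K B (x i)) (fun i => rho Ω K B (x' i)) Z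
        - Phi (fun i => rho Ω K B (x i)) (fun i => rho Ω K B (x' i)) Z * rho Ω K B X := by
  let F : Matrix ι ι ℂ →ₗ[ℂ] Matrix ι ι ℂ →ₗ[ℂ] Matrix κ κ ℂ :=
    LinearMap.mk₂ ℂ (fun U V => rho Ω K B U * Z * rho Ω K B V)
      (fun U U' V => by rw [map_add, add_mul, add_mul])
      (fun z U V => by rw [map_smul, smul_mul_assoc, smul_mul_assoc])
      (fun U V V' => by rw [map_add, mul_add])
      (fun z U V => by rw [map_smul, mul_smul_comm])
  have h1 := hD.inv ha.id hX F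
  have h2 : ∀ U V, F U V = rho Ω K B U * Z * rho Ω K B V := fun U V => rfl
  simp only [h2, hB.rho_bracket hX (ha.id.le (hD.mem _)),
    hB.rho_bracket hX (ha.id.le (hD.mem' _))] at h1
  rw [← Finset.sum_add_distrib] at h1
  rw [Phi_apply, Phi_apply, Finset.mul_sum, Finset.sum_mul, ← Finset.sum_sub_distrib,
    ← sub_eq_zero, ← Finset.sum_sub_distrib, ← neg_eq_zero, ← Finset.sum_neg_distrib, ← h1]
  refine Finset.sum_congr rfl fun i _ => ?_
  noncomm_ring

theorem phi_one (hS : Sys Ω H) (ha : MinId H a) (hD : Dual a x x') (hB : Frame Ω H K B)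
    {Y : Submodule ℂ (ι → ℂ)} (hY : Block H Y) (hr : LinearMap.range B.mulVecLin = Y) :
    ∃ γ : ℂ, Phi (fun i => rho Ω K B (x i)) (fun i => rho Ω K B (x' i)) 1
      = γ • (1 : Matrix κ κ ℂ) := by
  refine hB.comm_scalar hS hY hr fun X hX => ?_
  have h1 := phi_ad ha hD hB hX 1
  rw [mul_one, one_mul, sub_self, map_zero] at h1
  exact (sub_eq_zero.mp h1.symm).symm

theorem frame_form (ha : MinId H a) (hD : Dual a x x') (hB : Frame Ω H K B) :
    ∃ t : ℂ, ∀ U ∈ a, ∀ V ∈ a, trace (rho Ω K B U * rho Ω K B V) = t * trace (U * V) := by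
  refine hD.form ha (LinearMap.mk₂ ℂ (fun U V => trace (rho Ω K B U * rho Ω K B V))
      (fun U U' V => by rw [map_add, add_mul, trace_add])
      (fun z U V => by rw [map_smul, smul_mul_assoc, trace_smul])
      (fun U V V' => by rw [map_add, mul_add, trace_add])
      (fun z U V => by rw [map_smul, mul_smul_comm, trace_smul])) ?_
  intro X hX U hU V hV
  change trace (rho Ω K B (X * U - U * X) * rho Ω K B V)
    + trace (rho Ω K B U * rho Ω K B (X * V - V * X)) = 0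
  rw [hB.rho_bracket hX (ha.id.le hU), hB.rho_bracket hX (ha.id.le hV), tr_ad]
  ring

section consts

variable {t γ k : ℂ}

theorem gam_eq (hD : Dual a x x')
    (ht : ∀ U ∈ a, ∀ V ∈ a, trace (rho Ω K B U * rho Ω K B V) = t * trace (U * V))
    (hγ : Phi (fun i => rho Ω K B (x i)) (fun i => rho Ω K B (x' i)) 1
      = γ • (1 : Matrix κ κ ℂ)) : γ * Fintype.card κ = t * n := by
  have h1 := congrArg trace hγ
  rw [trace_smul, trace_one, smul_eq_mul, Phi_apply, trace_sum] at h1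
  rw [← h1, ← hD.tr, Finset.mul_sum]
  refine Finset.sum_congr rfl fun i _ => ?_
  rw [mul_one, ht _ (hD.mem i) _ (hD.mem' i)]

theorem pii_eq (hD : Dual a x x')
    (ht : ∀ U ∈ a, ∀ V ∈ a, trace (rho Ω K B U * rho Ω K B V) = t * trace (U * V))
    {U : Matrix ι ι ℂ} (hU : U ∈ a) :
    Pii (fun i => rho Ω K B (x i)) (fun i => rho Ω K B (x' i)) (rho Ω K B U)
      = t • rho Ω K B U := by
  rw [Pii_apply]
  conv_rhs => rw [← hD.ex U hU]
  rw [map_sum, Finset.smul_sum]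
  refine Finset.sum_congr rfl fun i _ => ?_
  rw [ht _ (hD.mem i) _ hU, map_smul, smul_smul]

theorem phi_symm (hD : Dual a x x') (Z : Matrix κ κ ℂ) :
    ∑ i, rho Ω K B (x' i) * Z * rho Ω K B (x i)
      = Phi (fun i => rho Ω K B (x i)) (fun i => rho Ω K B (x' i)) Z := by
  let F : Matrix ι ι ℂ →ₗ[ℂ] Matrix ι ι ℂ →ₗ[ℂ] Matrix κ κ ℂ :=
    LinearMap.mk₂ ℂ (fun U V => rho Ω K B U * Z * rho Ω K B V)
      (fun U U' V => by rw [map_add, add_mul, add_mul])
      (fun z U V => by rw [map_smul, smul_mul_assoc, smul_mul_assoc])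
      (fun U V V' => by rw [map_add, mul_add])
      (fun z U V => by rw [map_smul, mul_smul_comm])
  exact (hD.symm F).symm

/-- The Casimir operator on the image of the ideal. -/
theorem cask (ha : MinId H a) (hD : Dual a x x') (hB : Frame Ω H K B)
    (hk : ∀ Y ∈ a, ∑ i, (x i * (x' i * Y - Y * x' i) - (x' i * Y - Y * x' i) * x i) = k • Y)
    (hγ : Phi (fun i => rho Ω K B (x i)) (fun i => rho Ω K B (x' i)) 1
      = γ • (1 : Matrix κ κ ℂ)) {U : Matrix ι ι ℂ} (hU : U ∈ a) :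
    k • rho Ω K B U = (2 * γ) • rho Ω K B U
      - (2 : ℂ) • Phi (fun i => rho Ω K B (x i)) (fun i => rho Ω K B (x' i))
        (rho Ω K B U) := by
  set u := rho Ω K B U with hu
  have h1 := congrArg (rho Ω K B) (hk U hU)
  rw [map_smul, map_sum] at h1
  have h2 : ∀ i, rho Ω K B (x i * (x' i * U - U * x' i) - (x' i * U - U * x' i) * x i)
      = rho Ω K B (x i) * 1 * rho Ω K B (x' i) * u - rho Ω K B (x i) * u * rho Ω K B (x' i)
        - rho Ω K B (x' i) * u * rho Ω K B (x i)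
        + u * (rho Ω K B (x' i) * 1 * rho Ω K B (x i)) := by
    intro i
    have e1 := ha.id.br _ (ha.id.le (hD.mem' i)) U hU
    rw [hB.rho_bracket (ha.id.le (hD.mem i)) (ha.id.le e1),
      hB.rho_bracket (ha.id.le (hD.mem' i)) (ha.id.le hU)]
    noncomm_ring
  simp only [h2] at h1
  rw [Finset.sum_add_distrib, Finset.sum_sub_distrib, Finset.sum_sub_distrib, ← Finset.sum_mul,
    ← Finset.mul_sum, phi_symm hD, phi_symm hD] at h1
  rw [← Phi_apply (fun i => rho Ω K B (x i)) (fun i => rho Ω K B (x' i)) 1,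
    ← Phi_apply (fun i => rho Ω K B (x i)) (fun i => rho Ω K B (x' i)) u, hγ] at h1
  rw [← h1, smul_mul_assoc, one_mul, mul_smul_comm, mul_one]
  module

end consts

/-- The data of a minimal ideal on a block of dimension four. -/
theorem blk4 (hS : Sys Ω H) (ha : MinId H a) (hD : Dual a x x') {k : ℂ}
    (hk : ∀ Y ∈ a, ∑ i, (x i * (x' i * Y - Y * x' i) - (x' i * Y - Y * x' i) * x i) = k • Y)
    {B : Matrix ι (Fin 4) ℂ} (hB : Frame Ω H J4 B) {Y : Submodule ℂ (ι → ℂ)}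
    (hY : Block H Y) (hr : LinearMap.range B.mulVecLin = Y) :
    ∃ t : ℂ, (∀ U ∈ a, ∀ V ∈ a, trace (rho Ω J4 B U * rho Ω J4 B V) = t * trace (U * V)) ∧
      Phi (fun i => rho Ω J4 B (x i)) (fun i => rho Ω J4 B (x' i)) 1
        = (t * n / 4) • (1 : Matrix (Fin 4) (Fin 4) ℂ) ∧
      (∀ s ∈ S0 J4, Phi (fun i => rho Ω J4 B (x i)) (fun i => rho Ω J4 B (x' i)) s
        = (t * n / 20) • s) ∧
      (∀ U ∈ a, rho Ω J4 B U ≠ 0 → k = t * (4 * n / 5 - 2)) := by
  obtain ⟨t, ht⟩ := frame_form ha hD hB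
  obtain ⟨γ, hγ⟩ := phi_one hS ha hD hB hY hr
  have hgam := gam_eq hD ht hγ
  rw [Fintype.card_fin] at hgam
  have hγt : γ = t * n / 4 := by
    push_cast at hgam
    linear_combination (1 / 4 : ℂ) * hgam
  have hcas := frame_cas hS ha hD hB
  have hirr := frame_irr hS hB hY hr
  -- the action on the traceless self-adjoint matrices
  have hmem : ∀ s ∈ S0 J4,
      Phi (fun i => rho Ω J4 B (x i)) (fun i => rho Ω J4 B (x' i)) s ∈ S0 J4 := by
    intro s hs
    refine ⟨?_, ?_⟩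
    · have h1 : ∀ i, (rho Ω J4 B (x i) * s * rho Ω J4 B (x' i))ᵀ * J4
          = J4 * (rho Ω J4 B (x' i) * s * rho Ω J4 B (x i)) := by
        intro i
        rw [transpose_mul, transpose_mul, mul_assoc, mul_assoc, hcas.sk i, mul_neg, ← mul_assoc
          (sᵀ), hs.1, mul_neg, mul_assoc J4 s, ← mul_assoc _ J4, hcas.sk' i]
        noncomm_ring
      rw [Phi_apply, transpose_sum, Finset.sum_mul, Finset.sum_congr rfl fun i _ => h1 i,
        ← Finset.mul_sum, phi_symm hD]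
      rfl
    · have h1 : ∀ i, trace (rho Ω J4 B (x i) * s * rho Ω J4 B (x' i))
          = trace ((rho Ω J4 B (x' i) * 1 * rho Ω J4 B (x i)) * s) := by
        intro i
        rw [mul_one, trace_mul_comm, ← mul_assoc]
      rw [Phi_apply, trace_sum, Finset.sum_congr rfl fun i _ => h1 i, ← trace_sum,
        ← Finset.sum_mul, phi_symm hD, hγ, smul_mul_assoc, one_mul, trace_smul, hs.2, smul_zero]
  let M : S0 J4 →ₗ[ℂ] S0 J4 :=
    (Phi (fun i => rho Ω J4 B (x i)) (fun i => rho Ω J4 B (x' i))).restrict hmem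
  obtain ⟨φ0, hφ0⟩ := S0_scal hirr M (by
    rintro _ ⟨X, hX, rfl⟩ s
    exact phi_ad ha hD hB hX s.1)
  have h0 : ∀ s ∈ S0 J4, Phi (fun i => rho Ω J4 B (x i)) (fun i => rho Ω J4 B (x' i)) s
      = φ0 • s := by
    intro s hs
    exact congrArg Subtype.val (hφ0 ⟨s, hs⟩)
  obtain ⟨h5, hsk⟩ := phi4 hcas h0 hγ
  refine ⟨t, ht, by rw [hγ, hγt], fun s hs => by rw [h0 s hs, h5, hγt]; congr 1; ring,
    fun U hU hne => ?_⟩
  have h6 := cask ha hD hB hk hγ hU
  rw [hsk _ (hB.rho_sk hS (ha.id.le hU)), pii_eq hD ht hU] at h6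
  have h7 : (k - (16 * γ / 5 - 2 * t)) • rho Ω J4 B U = 0 := by
    rw [sub_smul, h6]
    module
  have h8 := (smul_eq_zero.mp h7).resolve_right hne
  rw [sub_eq_zero.mp h8, hγt]
  ring

/-- The data of a minimal ideal on a block of dimension two. -/
theorem blk2 (hS : Sys Ω H) (ha : MinId H a) (hD : Dual a x x') {k : ℂ}
    (hk : ∀ Y ∈ a, ∑ i, (x i * (x' i * Y - Y * x' i) - (x' i * Y - Y * x' i) * x i) = k • Y)
    {B : Matrix ι (Fin 2) ℂ} (hB : Frame Ω H J2 B) {Y : Submodule ℂ (ι → ℂ)}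
    (hY : Block H Y) (hr : LinearMap.range B.mulVecLin = Y) :
    ∃ t : ℂ, (∀ U ∈ a, ∀ V ∈ a, trace (rho Ω J2 B U * rho Ω J2 B V) = t * trace (U * V)) ∧
      Phi (fun i => rho Ω J2 B (x i)) (fun i => rho Ω J2 B (x' i)) 1
        = (t * n / 2) • (1 : Matrix (Fin 2) (Fin 2) ℂ) ∧
      (∀ U ∈ a, rho Ω J2 B U ≠ 0 → k = t * (2 * n - 2)) := by
  obtain ⟨t, ht⟩ := frame_form ha hD hB
  obtain ⟨γ, hγ⟩ := phi_one hS ha hD hB hY hr
  have hgam := gam_eq hD ht hγ
  rw [Fintype.card_fin] at hgam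
  have hγt : γ = t * n / 2 := by
    push_cast at hgam
    linear_combination (1 / 2 : ℂ) * hgam
  have hcas := frame_cas hS ha hD hB
  refine ⟨t, ht, by rw [hγ, hγt], fun U hU hne => ?_⟩
  have h6 := cask ha hD hB hk hγ hU
  rw [phi2 hcas hγ _ (hB.rho_sk hS (ha.id.le hU)), pii_eq hD ht hU] at h6
  have h7 : (k - (4 * γ - 2 * t)) • rho Ω J2 B U = 0 := by
    rw [sub_smul, h6]
    module
  have h8 := (smul_eq_zero.mp h7).resolve_right hne
  rw [sub_eq_zero.mp h8, hγt]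
  ring

end Pool.Agent.V5helper88.HR
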