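import Pool.Agent.V5helper88.HR.G8

/-!
The Casimir eigenvalue of a minimal ideal does not vanish.
-/

set_option autoImplicit false

namespace Pool.Agent.V5helper88.HR

open Matrix Module

variable {ι : Type} [Fintype ι] [DecidableEq ι] {Ω : Matrix ι ι ℂ}
  {H : Submodule ℂ (Matrix ι ι ℂ)} {a : Submodule ℂ (Matrix ι ι ℂ)}
  {n : ℕ} {x x' : Fin n → Matrix ι ι ℂ}

theorem trace_zero_of_blocks (hS : Sys Ω H) {Z : Matrix ι ι ℂ}
    (hZ : ∀ Y, Block H Y → ∃ Q, Cm H Q ∧ (∀ v, Q *ᵥ v ∈ Y) ∧ (∀ v ∈ Y, Q *ᵥ v = v) ∧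
      trace (Z * Q) = 0) : trace Z = 0 := by
  have key : ∀ m : ℕ, ∀ P : Matrix ι ι ℂ, Cm H P → P * P = P →
      finrank ℂ (LinearMap.range (toLin' P)) = m → trace (Z * P) = 0 := by
    intro m
    induction m using Nat.strong_induction_on with
    | _ m ih =>
      intro P hP hPP hm
      have hst : Stable H (LinearMap.range (toLin' P)) := by
        rintro X hX _ ⟨v, rfl⟩
        refine ⟨X *ᵥ v, ?_⟩
        rw [toLin'_apply, toLin'_apply, mulVec_mulVec, mulVec_mulVec, hP X hX]
      by_cases h0 : LinearMap.range (toLin' P) = ⊥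
      · have h1 : P = 0 := by
          rw [LinearMap.range_eq_bot] at h0
          exact (toLin').map_eq_zero_iff.mp h0
        rw [h1, mul_zero, trace_zero]
      · obtain ⟨Y, hYP, hY⟩ := exists_block hst h0
        obtain ⟨Q, hQ, hQ1, hQ2, hQt⟩ := hZ Y hY
        have hPQ : P * Q = Q := by
          apply (toLin').injective
          refine LinearMap.ext fun v => ?_
          rw [toLin'_apply, toLin'_apply, ← mulVec_mulVec]
          obtain ⟨w, hw⟩ := hYP (hQ1 v)
          rw [toLin'_apply] at hw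
          rw [← hw, mulVec_mulVec, hPP]
        have hQP : Q * P = Q := by rw [← Cm.comm hS hP hQ, hPQ]
        have hQQ : Q * Q = Q := by
          apply (toLin').injective
          refine LinearMap.ext fun v => ?_
          rw [toLin'_apply, toLin'_apply, ← mulVec_mulVec, hQ2 _ (hQ1 v)]
        have h1 : (P - Q) * (P - Q) = P - Q := by
          rw [sub_mul, mul_sub, mul_sub, hPP, hPQ, hQP, hQQ]
          abel
        have hle : LinearMap.range (toLin' (P - Q)) ≤ LinearMap.range (toLin' P) := by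
          rintro _ ⟨v, rfl⟩
          refine ⟨(P - Q) *ᵥ v, ?_⟩
          rw [toLin'_apply, toLin'_apply, mulVec_mulVec, mul_sub, hPP, hPQ]
        obtain ⟨u, hu, hu0⟩ := Y.ne_bot_iff.mp hY.ne
        have hlt : LinearMap.range (toLin' (P - Q)) < LinearMap.range (toLin' P) := by
          refine lt_of_le_of_ne hle fun heq => hu0 ?_
          have h2 := hYP hu
          rw [← heq] at h2
          obtain ⟨w, hw⟩ := h2
          rw [toLin'_apply] at hw
          have h3 := hQ2 u hu
          rw [← hw, mulVec_mulVec, mul_sub, hQP, hQQ, sub_self, zero_mulVec] at h3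
          rw [← hw]
          exact h3.symm
        have h2 := ih _ (hm ▸ Submodule.finrank_lt_finrank_of_lt hlt) (P - Q) (hP.sub hQ) h1 rfl
        rw [mul_sub, trace_sub, hQt, sub_zero] at h2
        exact h2
  have h1 := key _ 1 Cm.one (one_mul 1) rfl
  rwa [mul_one] at h1

theorem frame_proj {κ : Type} [Fintype κ] [DecidableEq κ] {K : Matrix κ κ ℂ} {B : Matrix ι κ ℂ}
    (hS : Sys Ω H) (hB : Frame Ω H K B) {Y : Submodule ℂ (ι → ℂ)}
    (hr : LinearMap.range B.mulVecLin = Y) :
    Cm H (B * cof Ω K B) ∧ (∀ v, (B * cof Ω K B) *ᵥ v ∈ Y) ∧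
      (∀ v ∈ Y, (B * cof Ω K B) *ᵥ v = v) ∧
      ∀ U : Matrix ι ι ℂ, ∀ V ∈ H, trace (U * V * (B * cof Ω K B))
        = trace (rho Ω K B U * rho Ω K B V) := by
  refine ⟨?_, ?_, ?_, ?_⟩
  · have h1 := hB.cm_ext hS (P := 1) (fun X hX => by rw [Matrix.one_mul, Matrix.mul_one])
    rwa [Matrix.mul_one] at h1
  · intro v
    rw [← mulVec_mulVec, ← hr]
    exact ⟨_, rfl⟩
  · intro v hv
    rw [← hr] at hv
    obtain ⟨w, rfl⟩ := hv
    rw [mulVecLin_apply, mulVec_mulVec, Matrix.mul_assoc, hB.cof_mul, Matrix.mul_one]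
  · intro U V hV
    rw [← hB.rho_mul U hV, rho_apply, ← Matrix.mul_assoc, trace_mul_comm, ← Matrix.mul_assoc]

/-- The Casimir eigenvalue does not vanish. -/
theorem k_ne (hS : Sys Ω H) (hd : ∀ Y, Block H Y → finrank ℂ Y ≤ 4) (ha : MinId H a)
    (hD : Dual a x x') (hn : 2 ≤ n) {k : ℂ}
    (hk : ∀ Y ∈ a, ∑ i, (x i * (x' i * Y - Y * x' i) - (x' i * Y - Y * x' i) * x i) = k • Y) :
    k ≠ 0 := by
  intro hk0
  apply ha.ne
  rw [Submodule.eq_bot_iff]
  intro U hU
  refine ha.nd hS hU fun V hV => ?_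
  refine trace_zero_of_blocks hS fun Y hY => ?_
  have hn0 : ∀ m : ℕ, m ≤ 1 → (n : ℂ) ≠ m := by
    intro m hm h
    have : n = m := by exact_mod_cast h
    omega
  rcases exists_frame hS hY.st hY.ne (hd Y hY) with ⟨B, hB, hr⟩ | ⟨B, hB, hr⟩
  · obtain ⟨h1, h2, h3, h4⟩ := frame_proj hS hB hr
    refine ⟨_, h1, h2, h3, ?_⟩
    rw [h4 U V (ha.id.le hV)]
    obtain ⟨t, ht, -, htk⟩ := blk2 hS ha hD hk hB hY hr
    by_cases hne : rho Ω J2 B U = 0
    · rw [hne, zero_mul, trace_zero]
    · have h5 := htk U hU hne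
      rw [hk0] at h5
      have h6 : t = 0 := by
        rcases mul_eq_zero.mp h5.symm with h | h
        · exact h
        · exfalso
          apply hn0 1 le_rfl
          push_cast
          linear_combination (1 / 2 : ℂ) * h
      rw [ht U hU V hV, h6, zero_mul]
  · obtain ⟨h1, h2, h3, h4⟩ := frame_proj hS hB hr
    refine ⟨_, h1, h2, h3, ?_⟩
    rw [h4 U V (ha.id.le hV)]
    obtain ⟨t, ht, -, -, htk⟩ := blk4 hS ha hD hk hB hY hr
    by_cases hne : rho Ω J4 B U = 0
    · rw [hne, zero_mul, trace_zero]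
    · have h5 := htk U hU hne
      rw [hk0] at h5
      have h6 : t = 0 := by
        rcases mul_eq_zero.mp h5.symm with h | h
        · exact h
        · exfalso
          have h7 : (4 * n : ℂ) = 10 := by linear_combination 5 * h
          have h8 : 4 * n = 10 := by exact_mod_cast h7
          omega
      rw [ht U hU V hV, h6, zero_mul]

end Pool.Agent.V5helper88.HR
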